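import Pool.Agent.K6.H77.PD.Ap

set_option autoImplicit false
set_option linter.unusedSectionVars false

/-! # Cayley's identity implies the divisibility of every Bernstein-Sato polynomial -/

namespace Pool.Agent.K6.H77.PD

open MvPolynomial
open Pool.Agent.H628R4.TP (weylS IsBFunction)

variable {V : Type}

/-- The adjoint of a differential operator. -/
theorem adj (Q : Module.End ℂ (MvPolynomial V ℂ)) (hQ : Q ∈ weylS V) :
    ∃ Q' ∈ weylS V, ∀ u v : MvPolynomial V ℂ, ap (Q u) v = ap u (Q' v) := by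
  unfold weylS at hQ ⊢
  induction hQ using Algebra.adjoin_induction with
  | mem Q h =>
    rcases h with ⟨i, rfl⟩ | ⟨i, rfl⟩
    · refine ⟨((pderiv i : Derivation ℂ (MvPolynomial V ℂ) (MvPolynomial V ℂ)) :
        MvPolynomial V ℂ →ₗ[ℂ] MvPolynomial V ℂ), Algebra.subset_adjoin (Or.inr ⟨i, rfl⟩),
        fun u v => ap_X_mul i u v⟩
    · exact ⟨LinearMap.mulLeft ℂ (X i), Algebra.subset_adjoin (Or.inl ⟨i, rfl⟩),
        fun u v => ap_pderiv i u v⟩
  | algebraMap r =>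
    refine ⟨_, Subalgebra.algebraMap_mem _ r, fun u v => ?_⟩
    rw [Module.algebraMap_end_apply, Module.algebraMap_end_apply, smul_eq_C_mul, smul_eq_C_mul,
      ap_C_mul, ap_C_mul_right]
  | add Q₁ Q₂ _ _ h₁ h₂ =>
    obtain ⟨Q₁', a1, b1⟩ := h₁
    obtain ⟨Q₂', a2, b2⟩ := h₂
    refine ⟨Q₁' + Q₂', Subalgebra.add_mem _ a1 a2, fun u v => ?_⟩
    rw [LinearMap.add_apply, LinearMap.add_apply, ap_add_left, ap_add_right, b1, b2]
  | mul Q₁ Q₂ _ _ h₁ h₂ =>
    obtain ⟨Q₁', a1, b1⟩ := h₁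
    obtain ⟨Q₂', a2, b2⟩ := h₂
    refine ⟨Q₂' * Q₁', Subalgebra.mul_mem _ a2 a1, fun u v => ?_⟩
    rw [Module.End.mul_apply, Module.End.mul_apply, b1, b2]

/-- The functions `∑ s ^ k r_k`. -/
noncomputable def PF (V : Type) : Submodule ℂ (ℕ → MvPolynomial V ℂ) :=
  Submodule.span ℂ {g : ℕ → MvPolynomial V ℂ | ∃ (k : ℕ) (r : MvPolynomial V ℂ),
    g = fun s : ℕ => ((s : ℂ) ^ k) • r}

theorem PF_basic (k : ℕ) (r : MvPolynomial V ℂ) : (fun s : ℕ => ((s : ℂ) ^ k) • r) ∈ PF V :=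
  Submodule.subset_span ⟨k, r, rfl⟩

theorem PF_lin (L : MvPolynomial V ℂ →ₗ[ℂ] MvPolynomial V ℂ) (g : ℕ → MvPolynomial V ℂ)
    (hg : g ∈ PF V) : (fun s => L (g s)) ∈ PF V := by
  unfold PF at hg
  induction hg using Submodule.span_induction with
  | mem g h =>
    obtain ⟨k, r, rfl⟩ := h
    simp only [map_smul]
    exact PF_basic k (L r)
  | zero =>
    have e : (fun s => L ((0 : ℕ → MvPolynomial V ℂ) s)) = 0 := by
      funext s
      exact map_zero L
    rw [e]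
    exact (PF V).zero_mem
  | add g g' _ _ h h' =>
    have e : (fun s => L ((g + g') s)) = (fun s => L (g s)) + fun s => L (g' s) := by
      funext s
      rw [Pi.add_apply, map_add, Pi.add_apply]
    rw [e]
    exact (PF V).add_mem h h'
  | smul a g _ h =>
    have e : (fun s => L ((a • g) s)) = a • fun s => L (g s) := by
      funext s
      rw [Pi.smul_apply, map_smul, Pi.smul_apply]
    rw [e]
    exact (PF V).smul_mem a h

theorem PF_s (g : ℕ → MvPolynomial V ℂ) (hg : g ∈ PF V) :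
    (fun s : ℕ => (s : ℂ) • g s) ∈ PF V := by
  unfold PF at hg
  induction hg using Submodule.span_induction with
  | mem g h =>
    obtain ⟨k, r, rfl⟩ := h
    have : (fun s : ℕ => (s : ℂ) • ((s : ℂ) ^ k) • r) = fun s : ℕ => ((s : ℂ) ^ (k + 1)) • r := by
      funext s
      rw [smul_smul, pow_succ, mul_comm]
    rw [this]
    exact PF_basic (k + 1) r
  | zero =>
    have e : (fun s : ℕ => (s : ℂ) • (0 : ℕ → MvPolynomial V ℂ) s) = 0 := by
      funext s
      exact smul_zero _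
    rw [e]
    exact (PF V).zero_mem
  | add g g' _ _ h h' =>
    have e : (fun s : ℕ => (s : ℂ) • (g + g') s) =
        (fun s : ℕ => (s : ℂ) • g s) + fun s : ℕ => (s : ℂ) • g' s := by
      funext s
      rw [Pi.add_apply, smul_add, Pi.add_apply]
    rw [e]
    exact (PF V).add_mem h h'
  | smul a g _ h =>
    have := (PF V).smul_mem a h
    have e : (a • fun s : ℕ => (s : ℂ) • g s) = fun s : ℕ => (s : ℂ) • (a • g) s := by
      funext s
      simp only [Pi.smul_apply]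
      rw [smul_comm]
    rw [e] at this
    exact this

/-- Values of linear functionals on such families are polynomials in `s`. -/
theorem PF_val (φ : MvPolynomial V ℂ →ₗ[ℂ] ℂ) (g : ℕ → MvPolynomial V ℂ) (hg : g ∈ PF V) :
    ∃ q : Polynomial ℂ, ∀ s : ℕ, φ (g s) = q.eval (s : ℂ) := by
  unfold PF at hg
  induction hg using Submodule.span_induction with
  | mem g h =>
    obtain ⟨k, r, rfl⟩ := h
    refine ⟨Polynomial.X ^ k * Polynomial.C (φ r), fun s => ?_⟩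
    rw [map_smul, smul_eq_mul, Polynomial.eval_mul, Polynomial.eval_pow, Polynomial.eval_X,
      Polynomial.eval_C]
  | zero => exact ⟨0, fun s => by simp⟩
  | add g g' _ _ h h' =>
    obtain ⟨q, hq⟩ := h
    obtain ⟨q', hq'⟩ := h'
    refine ⟨q + q', fun s => ?_⟩
    rw [Pi.add_apply, map_add, hq, hq', Polynomial.eval_add]
  | smul a g _ h =>
    obtain ⟨q, hq⟩ := h
    refine ⟨Polynomial.C a * q, fun s => ?_⟩
    rw [Pi.smul_apply, map_smul, hq, Polynomial.eval_mul, Polynomial.eval_C, smul_eq_mul]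

/-- The families `f ^ (s - M) G(s)`, `s ≥ M`. -/
def Cls (f : MvPolynomial V ℂ) (g : ℕ → MvPolynomial V ℂ) : Prop :=
  ∃ (M : ℕ) (G : ℕ → MvPolynomial V ℂ), G ∈ PF V ∧ ∀ s, M ≤ s → g s = f ^ (s - M) * G s

theorem Cls.mono {f : MvPolynomial V ℂ} {g : ℕ → MvPolynomial V ℂ} {M M' : ℕ} (h : M ≤ M')
    {G : ℕ → MvPolynomial V ℂ} (hG : G ∈ PF V) (hg : ∀ s, M ≤ s → g s = f ^ (s - M) * G s) :
    ∃ G' : ℕ → MvPolynomial V ℂ, G' ∈ PF V ∧ ∀ s, M' ≤ s → g s = f ^ (s - M') * G' s := by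
  refine ⟨fun s => LinearMap.mulLeft ℂ (f ^ (M' - M)) (G s), PF_lin _ G hG, fun s hs => ?_⟩
  show g s = f ^ (s - M') * (f ^ (M' - M) * G s)
  rw [hg s (h.trans hs), ← mul_assoc, ← pow_add]
  congr 2
  omega

theorem cls_X {f : MvPolynomial V ℂ} {g : ℕ → MvPolynomial V ℂ} (h : Cls f g)
    (w : MvPolynomial V ℂ) : Cls f (fun s => w * g s) := by
  obtain ⟨M, G, hG, hg⟩ := h
  refine ⟨M, fun s => LinearMap.mulLeft ℂ w (G s), PF_lin _ G hG, fun s hs => ?_⟩
  show w * g s = f ^ (s - M) * (w * G s)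
  rw [hg s hs]
  ring

theorem cls_pd {f : MvPolynomial V ℂ} {g : ℕ → MvPolynomial V ℂ} (h : Cls f g) (i : V) :
    Cls f (fun s => pderiv i (g s)) := by
  obtain ⟨M, G, hG, hg⟩ := h
  have h1 : (fun s : ℕ => LinearMap.mulLeft ℂ (pderiv i f) ((s : ℂ) • G s)) ∈ PF V :=
    PF_lin _ _ (PF_s G hG)
  have h2 : (fun s : ℕ => LinearMap.mulLeft ℂ (C (-(M : ℂ)) * pderiv i f) (G s)) ∈ PF V :=
    PF_lin _ G hG
  have h3 : (fun s : ℕ => LinearMap.mulLeft ℂ f
      (((pderiv i : Derivation ℂ (MvPolynomial V ℂ) (MvPolynomial V ℂ)) :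
        MvPolynomial V ℂ →ₗ[ℂ] MvPolynomial V ℂ) (G s))) ∈ PF V :=
    PF_lin (LinearMap.mulLeft ℂ f ∘ₗ ((pderiv i : Derivation ℂ (MvPolynomial V ℂ)
      (MvPolynomial V ℂ)) : MvPolynomial V ℂ →ₗ[ℂ] MvPolynomial V ℂ)) G hG
  refine ⟨M + 1, _, (PF V).add_mem ((PF V).add_mem h1 h2) h3, fun s hs => ?_⟩
  show pderiv i (g s) = f ^ (s - (M + 1)) * (pderiv i f * ((s : ℂ) • G s) +
    (C (-(M : ℂ)) * pderiv i f) * G s + f * pderiv i (G s))
  rw [hg s (by omega), Derivation.leibniz, Derivation.leibniz_pow]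
  obtain ⟨r, hr⟩ : ∃ r, s = M + 1 + r := ⟨s - (M + 1), by omega⟩
  have e1 : s - M = r + 1 := by omega
  have e2 : s - (M + 1) = r := by omega
  rw [e1, e2]
  simp only [smul_eq_mul, Nat.add_sub_cancel, nsmul_eq_mul, smul_eq_C_mul]
  have e3 : (C (s : ℂ) : MvPolynomial V ℂ) = C (M : ℂ) + 1 + (r : MvPolynomial V ℂ) := by
    rw [hr]
    push_cast
    simp
  rw [e3, C_neg]
  push_cast
  ring

theorem cls_weyl {f : MvPolynomial V ℂ} (Q : Module.End ℂ (MvPolynomial V ℂ)) (hQ : Q ∈ weylS V) :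
    ∀ g : ℕ → MvPolynomial V ℂ, Cls f g → Cls f (fun s => Q (g s)) := by
  unfold weylS at hQ
  induction hQ using Algebra.adjoin_induction with
  | mem Q h =>
    intro g hg
    rcases h with ⟨i, rfl⟩ | ⟨i, rfl⟩
    · exact cls_X hg (X i)
    · exact cls_pd hg i
  | algebraMap r =>
    intro g hg
    have := cls_X hg (C r)
    simpa only [Module.algebraMap_end_apply, smul_eq_C_mul] using this
  | add Q₁ Q₂ _ _ h₁ h₂ =>
    intro g hg
    obtain ⟨M₁, G₁, a1, b1⟩ := h₁ g hg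
    obtain ⟨M₂, G₂, a2, b2⟩ := h₂ g hg
    obtain ⟨G₁', c1, d1⟩ := Cls.mono (le_max_left M₁ M₂) a1 b1
    obtain ⟨G₂', c2, d2⟩ := Cls.mono (le_max_right M₁ M₂) a2 b2
    refine ⟨max M₁ M₂, G₁' + G₂', (PF V).add_mem c1 c2, fun s hs => ?_⟩
    show (Q₁ + Q₂) (g s) = f ^ (s - max M₁ M₂) * (G₁' s + G₂' s)
    rw [LinearMap.add_apply, d1 s hs, d2 s hs]
    ring
  | mul Q₁ Q₂ _ _ h₁ h₂ =>
    intro g hg
    exact h₁ _ (h₂ g hg)

/-- Iteration of Cayley's identity. -/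
theorem cay_iter {f : MvPolynomial V ℤ} {β : ℕ → ℕ} (h : Cay f β) {R : Type} [CommRing R]
    (v : MvPolynomial V R) (s : ℕ) : ∀ j : ℕ,
    ap (map (Int.castRingHom R) f ^ j * v) (map (Int.castRingHom R) f ^ (s + j)) =
      ((∏ i ∈ Finset.range j, β (s + i) : ℕ) : R) * ap v (map (Int.castRingHom R) f ^ s)
  | 0 => by simp
  | j + 1 => by
    rw [pow_succ', mul_assoc, ← add_assoc, h R (s + j), cay_iter h v s j, Finset.prod_range_succ]
    push_cast
    ring

theorem ap_one_one {R : Type} [CommRing R] : ap (1 : MvPolynomial V R) 1 = 1 := by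
  have h := ap_C (V := V) (1 : R) 1
  rw [C_1] at h
  rw [h]
  simp

/-- **Cayley's identity implies Bernstein's divisibility.** -/
theorem bern (f : MvPolynomial V ℤ) (β : ℕ → ℕ) (h : Cay f β) (hβ : ∀ s, β s ≠ 0)
    (B : Polynomial ℂ) (hB : ∀ s : ℕ, B.eval (s : ℂ) = (β s : ℂ)) (b : Polynomial ℂ)
    (hb : IsBFunction (map (Int.castRingHom ℂ) f) b) : B ∣ b := by
  obtain ⟨P, hP⟩ := hb
  set F : MvPolynomial V ℂ := map (Int.castRingHom ℂ) f with hF
  -- the adjoint operators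
  have h1 : ∀ Q : weylS V, ∃ (M : ℕ) (q : Polynomial ℂ), ∀ s, M ≤ s →
      ap ((Q : Module.End ℂ (MvPolynomial V ℂ)) (F ^ (s + 1))) (F ^ s) =
        ((∏ i ∈ Finset.range (s - M), β (M + 1 + i) : ℕ) : ℂ) * q.eval (s : ℂ) := by
    intro Q
    obtain ⟨Q', hQ', h2⟩ := adj (Q : Module.End ℂ (MvPolynomial V ℂ)) Q.2
    have h3 : Cls F (fun s => F ^ s) := by
      refine ⟨0, fun s => ((s : ℂ) ^ 0) • (1 : MvPolynomial V ℂ), PF_basic 0 1, fun s _ => ?_⟩
      simp
    obtain ⟨M, G, hG, h4⟩ := cls_weyl Q' hQ' _ h3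
    set φ : MvPolynomial V ℂ →ₗ[ℂ] ℂ :=
      { toFun := fun v => ap v (F ^ (M + 1))
        map_add' := fun u v => ap_add_left u v _
        map_smul' := fun c v => by
          rw [smul_eq_C_mul, ap_C_mul]
          rfl } with hφ
    obtain ⟨q, hq⟩ := PF_val φ G hG
    refine ⟨M, q, fun s hs => ?_⟩
    have h4' : Q' (F ^ s) = F ^ (s - M) * G s := h4 s hs
    rw [h2, h4', ap_comm]
    have e : s + 1 = (M + 1) + (s - M) := by omega
    rw [e, cay_iter h (G s) (M + 1) (s - M), ← hq s]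
    rfl
  choose M q hq using h1
  have hne : ∀ n : ℕ, ((∏ i ∈ Finset.range n, β i : ℕ) : ℂ) ≠ 0 := fun n => by
    exact_mod_cast Finset.prod_ne_zero_iff.2 fun i _ => hβ i
  have hpp : ∀ M s : ℕ, M ≤ s → ((∏ i ∈ Finset.range (M + 1), β i : ℕ) : ℂ) *
      ((∏ i ∈ Finset.range (s - M), β (M + 1 + i) : ℕ) : ℂ) =
      ((∏ i ∈ Finset.range s, β i : ℕ) : ℂ) * (β s : ℂ) := by
    intro M s hs
    rw [← Nat.cast_mul, ← Nat.cast_mul, ← Finset.prod_range_succ, ← Finset.prod_range_add]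
    congr 3
    omega
  set c : Polynomial ℂ := ∑ m ∈ P.support, Polynomial.X ^ m * (q (P m) *
    Polynomial.C (((∏ i ∈ Finset.range (M (P m) + 1), β i : ℕ) : ℂ)⁻¹)) with hc
  refine ⟨c, ?_⟩
  set N : ℕ := P.support.sup fun m => M (P m) with hN
  have key : ∀ s : ℕ, N ≤ s → b.eval (s : ℂ) = (B * c).eval (s : ℂ) := by
    intro s hs
    have h2 : ap (C (b.eval (s : ℂ)) * F ^ s) (F ^ s) = ap (P.sum fun m Q => ((s : ℂ) ^ m) •
        (Q : Module.End ℂ (MvPolynomial V ℂ)) (F ^ (s + 1))) (F ^ s) := by rw [hP s]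
    rw [ap_C_mul, Finsupp.sum, ap_sum_left] at h2
    have h3 := cay_iter h (1 : MvPolynomial V ℂ) 0 s
    rw [mul_one, zero_add, pow_zero, ap_one_one, mul_one] at h3
    have e0 : ∏ i ∈ Finset.range s, β (0 + i) = ∏ i ∈ Finset.range s, β i :=
      Finset.prod_congr rfl fun i _ => by rw [zero_add]
    rw [← hF, e0] at h3
    rw [h3] at h2
    have h4 : ∀ m ∈ P.support,
        ap (((s : ℂ) ^ m) • ((P m : Module.End ℂ (MvPolynomial V ℂ)) (F ^ (s + 1)))) (F ^ s) =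
        ((∏ i ∈ Finset.range s, β i : ℕ) : ℂ) * (β s : ℂ) *
          ((s : ℂ) ^ m * ((q (P m)).eval (s : ℂ) *
            (((∏ i ∈ Finset.range (M (P m) + 1), β i : ℕ) : ℂ)⁻¹))) := by
      intro m hm
      have hMs : M (P m) ≤ s := (Finset.le_sup (f := fun m => M (P m)) hm).trans hs
      rw [smul_eq_C_mul, ap_C_mul, hq (P m) s hMs, ← hpp (M (P m)) s hMs]
      have := hne (M (P m) + 1)
      field_simp
    rw [Finset.sum_congr rfl h4, ← Finset.mul_sum] at h2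
    rw [Polynomial.eval_mul, hB, hc, Polynomial.eval_finsetSum]
    have h5 : b.eval (s : ℂ) = (β s : ℂ) * ∑ m ∈ P.support, ((s : ℂ) ^ m * ((q (P m)).eval (s : ℂ) *
            (((∏ i ∈ Finset.range (M (P m) + 1), β i : ℕ) : ℂ)⁻¹))) := by
      have h6 := hne s
      apply mul_right_cancel₀ h6
      rw [h2]
      ring
    rw [h5]
    congr 1
    refine Finset.sum_congr rfl fun m _ => ?_
    simp
  refine Polynomial.eq_of_infinite_eval_eq _ _ ?_
  refine Set.Infinite.mono (s := Set.range fun k : ℕ => ((N + k : ℕ) : ℂ)) ?_ ?_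
  · rintro _ ⟨k, rfl⟩
    exact key (N + k) (by omega)
  · refine Set.infinite_range_of_injective fun k l hkl => ?_
    have : N + k = N + l := by exact_mod_cast hkl
    omega

end Pool.Agent.K6.H77.PD
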