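import Pool.Agent.K6.H77.PD.CayP

set_option autoImplicit false
set_option linter.unusedSectionVars false

/-! # Cayley's identity for the polynomials of trees -/

namespace Pool.Agent.K6.H77.PD

open MvPolynomial

section sub

variable {n m : ℕ} {κ E : Type} {B : Type} [CommRing B]

/-- Substitution of `M z` for `y`. -/
noncomputable def sb (M : Fin n → Fin m → B) :
    MvPolynomial ((Fin n × κ) ⊕ E) B →ₐ[B] MvPolynomial ((Fin m × κ) ⊕ E) B :=
  aeval (Sum.elim (fun q => ∑ j, C (M q.1 j) * X (Sum.inl (j, q.2))) (fun e => X (Sum.inr e)))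

/-- The transposed substitution. -/
noncomputable def sbT (M : Fin n → Fin m → B) :
    MvPolynomial ((Fin m × κ) ⊕ E) B →ₐ[B] MvPolynomial ((Fin n × κ) ⊕ E) B :=
  aeval (Sum.elim (fun q => ∑ i, C (M i q.1) * X (Sum.inl (i, q.2))) (fun e => X (Sum.inr e)))

theorem cc_sb (M : Fin n → Fin m → B) (u : MvPolynomial ((Fin n × κ) ⊕ E) B) :
    constantCoeff (sb M u) = constantCoeff u := by
  induction u using MvPolynomial.induction_on with
  | C a => unfold sb; rw [aeval_C, algebraMap_eq]; simp
  | add p q h h' => rw [map_add, map_add, h, h', map_add]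
  | mul_X p j h =>
    rw [map_mul, map_mul, map_mul, h]
    congr 1
    unfold sb
    rw [aeval_X]
    rcases j with q | e <;> simp

theorem pd_sb_inl (M : Fin n → Fin m → B) (j : Fin m) (k : κ)
    (u : MvPolynomial ((Fin n × κ) ⊕ E) B) :
    pderiv (Sum.inl (j, k)) (sb M u) = ∑ i, C (M i j) * sb M (pderiv (Sum.inl (i, k)) u) := by
  classical
  induction u using MvPolynomial.induction_on with
  | C a =>
    have : sb (κ := κ) (E := E) M (C a) = C a := by unfold sb; rw [aeval_C]; rfl
    rw [this]
    simp
  | add p q h h' =>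
    rw [map_add, map_add, h, h', ← Finset.sum_add_distrib]
    exact Finset.sum_congr rfl fun i _ => by rw [map_add, map_add, mul_add]
  | mul_X p w h =>
    rw [map_mul, pderiv_mul, h]
    have h1 : ∀ i : Fin n, C (M i j) * sb M (pderiv (Sum.inl (i, k)) (p * X w)) =
        C (M i j) * sb M (pderiv (Sum.inl (i, k)) p) * sb M (X w) +
          sb M p * (C (M i j) * sb M (pderiv (Sum.inl (i, k)) (X w))) := by
      intro i
      rw [pderiv_mul, map_add, map_mul, map_mul]
      ring
    simp only [h1]
    rw [Finset.sum_add_distrib, ← Finset.sum_mul, ← Finset.mul_sum]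
    congr 2
    rcases w with q | e
    · have h2 : sb (E := E) M (X (Sum.inl q)) = ∑ j, C (M q.1 j) * X (Sum.inl (j, q.2)) := by
        unfold sb; rw [aeval_X]; rfl
      rw [h2, map_sum]
      by_cases hk : q.2 = k
      · rw [Finset.sum_eq_single j, Finset.sum_eq_single q.1]
        · have e1 : (Sum.inl (q.1, k) : (Fin n × κ) ⊕ E) = Sum.inl q := by rw [← hk]
          rw [hk, pderiv_C_mul, pderiv_X_self, e1, pderiv_X_self, map_one]
        · intro i _ hi
          rw [pderiv_X_of_ne (fun h => hi (by
            have := Sum.inl.inj h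
            rw [this])), map_zero, mul_zero]
        · simp
        · intro j' _ hj'
          rw [pderiv_C_mul, pderiv_X_of_ne (fun h => hj' (by
            have := Sum.inl.inj h
            exact congrArg Prod.fst this)), mul_zero]
        · simp
      · rw [Finset.sum_eq_zero, Finset.sum_eq_zero]
        · intro i _
          rw [pderiv_X_of_ne (fun h => hk (by
            have := Sum.inl.inj h
            rw [this])), map_zero, mul_zero]
        · intro j' _
          rw [pderiv_C_mul, pderiv_X_of_ne (fun h => hk (by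
            have := Sum.inl.inj h
            exact congrArg Prod.snd this)), mul_zero]
    · have h2 : sb (κ := κ) M (X (Sum.inr e)) = X (Sum.inr e) := by
        unfold sb; rw [aeval_X]; rfl
      rw [h2, pderiv_X_of_ne (by simp), Finset.sum_eq_zero]
      intro i _
      rw [pderiv_X_of_ne (by simp), map_zero, mul_zero]

theorem pd_sb_inr (M : Fin n → Fin m → B) (e : E) (u : MvPolynomial ((Fin n × κ) ⊕ E) B) :
    pderiv (Sum.inr e) (sb M u) = sb M (pderiv (Sum.inr e) u) := by
  classical
  induction u using MvPolynomial.induction_on with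
  | C a =>
    have : sb (κ := κ) (E := E) M (C a) = C a := by unfold sb; rw [aeval_C]; rfl
    rw [this, pderiv_C, pderiv_C, map_zero]
  | add p q h h' => rw [map_add, map_add, h, h', map_add, map_add]
  | mul_X p w h =>
    rw [map_mul, pderiv_mul, h, pderiv_mul, map_add, map_mul, map_mul]
    congr 2
    rcases w with q | e'
    · have h2 : sb (E := E) M (X (Sum.inl q)) = ∑ j, C (M q.1 j) * X (Sum.inl (j, q.2)) := by
        unfold sb; rw [aeval_X]; rfl
      rw [h2, map_sum, pderiv_X_of_ne (by simp), map_zero, Finset.sum_eq_zero]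
      intro j _
      rw [pderiv_C_mul, pderiv_X_of_ne (by simp), mul_zero]
    · have h2 : sb (κ := κ) M (X (Sum.inr e')) = X (Sum.inr e') := by
        unfold sb; rw [aeval_X]; rfl
      rw [h2]
      by_cases h3 : e = e'
      · rw [h3, pderiv_X_self, pderiv_X_self, map_one]
      · rw [pderiv_X_of_ne (fun h => h3 (Sum.inr.inj h).symm),
          pderiv_X_of_ne (fun h => h3 (Sum.inr.inj h).symm), map_zero]

/-- The adjoint of the substitution. -/
theorem ap_sb (M : Fin n → Fin m → B) (a : MvPolynomial ((Fin m × κ) ⊕ E) B) :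
    ∀ u : MvPolynomial ((Fin n × κ) ⊕ E) B, ap a (sb M u) = ap (sbT M a) u := by
  induction a using MvPolynomial.induction_on with
  | C c =>
    intro u
    have : sbT (κ := κ) (E := E) M (C c) = C c := by unfold sbT; rw [aeval_C]; rfl
    rw [this, ap_C, ap_C, cc_sb]
  | add p q h h' =>
    intro u
    rw [map_add, ap_add_left, ap_add_left, h, h']
  | mul_X p w h =>
    intro u
    rw [map_mul, mul_comm, ap_X_mul]
    rcases w with q | e
    · have h2 : sbT (E := E) M (X (Sum.inl q)) = ∑ i, C (M i q.1) * X (Sum.inl (i, q.2)) := by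
        unfold sbT; rw [aeval_X]; rfl
      obtain ⟨j, k⟩ := q
      rw [pd_sb_inl, ap_sum_right, h2, Finset.mul_sum, ap_sum_left]
      refine Finset.sum_congr rfl fun i _ => ?_
      rw [ap_C_mul_right, h, ← ap_X_mul, ← ap_C_mul]
      congr 1
      ring
    · have h2 : sbT (κ := κ) M (X (Sum.inr e)) = X (Sum.inr e) := by
        unfold sbT; rw [aeval_X]; rfl
      rw [pd_sb_inr, h, h2, mul_comm, ap_X_mul]

end sub

/-- The leaf. -/
theorem cay_leaf (n a : ℕ) : Cay (poly n (.leaf a)) (beta (facs n (.leaf a))) := by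
  intro R _ s v
  rw [map_poly]
  set d : MvPolynomial (Fin n × Fin n) R :=
    (Matrix.of fun i j : Fin n => (X (i, j) : MvPolynomial (Fin n × Fin n) R)).det with hd
  have hF : pR n (.leaf a) R = (rename Sum.inl (d ^ a) :
      MvPolynomial ((Fin n × Fin n) ⊕ Empty) R) := by
    rw [map_pow, hd, AlgHom.map_det]
    show (Matrix.det (Matrix.of fun i j : Fin n =>
      (X (Sum.inl (i, j)) : MvPolynomial ((Fin n × Fin n) ⊕ Empty) R))) ^ a = _
    congr 2
    ext i j
    rw [AlgHom.mapMatrix_apply, Matrix.map_apply, Matrix.of_apply, Matrix.of_apply, rename_X]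
  have h0 : ∀ v : MvPolynomial ((Fin n × Fin n) ⊕ Empty) R,
      ap ((rename Sum.inl (d ^ a) : MvPolynomial ((Fin n × Fin n) ⊕ Empty) R) * v)
        ((rename Sum.inl (d ^ a) : MvPolynomial ((Fin n × Fin n) ⊕ Empty) R) ^ (s + 1)) =
      (beta (facs n (.leaf a)) s : R) * ap v ((rename Sum.inl (d ^ a) :
        MvPolynomial ((Fin n × Fin n) ⊕ Empty) R) ^ s) := by
    intro v
    obtain ⟨v1, hv1⟩ := el_const v
    have e1 : ∀ k : ℕ, (er ((rename Sum.inl (d ^ a) :
        MvPolynomial ((Fin n × Fin n) ⊕ Empty) R) ^ k) :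
          MvPolynomial Empty (MvPolynomial (Fin n × Fin n) (MvPolynomial (Fin n × Fin n) R))) =
        C (map C d ^ (a * k)) * 1 := by
      intro k
      have e0 : (map C (d ^ a) : MvPolynomial (Fin n × Fin n) (MvPolynomial (Fin n × Fin n) R)) =
          map C d ^ a := map_pow _ _ _
      rw [map_pow, er_rinl, e0, mul_one, ← C_pow, ← pow_mul]
    rw [fub, fub, e1, e1, map_mul, el_rinl, ap_C_mul_right, ap_C_mul_right, ap_C_mul, hv1]
    have e2 : (ap (map C v1) 1 : MvPolynomial (Fin n × Fin n) (MvPolynomial (Fin n × Fin n) R)) =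
        C (ap v1 1) := by
      rw [ap_map, map_one]
    rw [e2]
    have a1 : (map C d : MvPolynomial (Fin n × Fin n) (MvPolynomial (Fin n × Fin n) R)) =
        (Matrix.of fun j i : Fin n => (X (i, j) :
          MvPolynomial (Fin n × Fin n) (MvPolynomial (Fin n × Fin n) R))).det := by
      rw [hd, RingHom.map_det, ← Matrix.det_transpose]
      congr 1
      ext i j
      rw [Matrix.transpose_apply, RingHom.mapMatrix_apply, Matrix.map_apply, Matrix.of_apply,
        Matrix.of_apply, map_X]
    have a2 : (C d : MvPolynomial (Fin n × Fin n) (MvPolynomial (Fin n × Fin n) R)) =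
        (Matrix.of fun i j : Fin n => (C (X (i, j)) :
          MvPolynomial (Fin n × Fin n) (MvPolynomial (Fin n × Fin n) R))).det := by
      rw [hd, RingHom.map_det]
      congr 1
    have hDX : DX n n R = C d * map C d := by
      rw [a1, a2, ← Matrix.det_mul, DX]
      congr 1
    have hw : GW (a * s) (map C d ^ (a * s) * C (ap v1 1) :
        MvPolynomial (Fin n × Fin n) (MvPolynomial (Fin n × Fin n) R)) := by
      have g1 : GW 1 (map C d : MvPolynomial (Fin n × Fin n) (MvPolynomial (Fin n × Fin n) R)) := by
        intro S _ _ x M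
        have g2 : ∀ y : Fin n × Fin n → S, aeval y (map C d :
            MvPolynomial (Fin n × Fin n) (MvPolynomial (Fin n × Fin n) R)) =
            (Matrix.of fun i j : Fin n => y (i, j)).det := by
          intro y
          rw [hd, RingHom.map_det, AlgHom.map_det]
          congr 1
          ext i j
          rw [AlgHom.mapMatrix_apply, Matrix.map_apply, RingHom.mapMatrix_apply, Matrix.map_apply,
            Matrix.of_apply, Matrix.of_apply, map_X, aeval_X]
        rw [g2, g2, pow_one, ← Matrix.det_mul]
        rfl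
      have g3 : GW 0 (C (ap v1 1) :
          MvPolynomial (Fin n × Fin n) (MvPolynomial (Fin n × Fin n) R)) := by
        intro S _ _ x M
        rw [aeval_C, aeval_C, pow_zero, one_mul]
      have g4 := (g1.pow (a * s)).mul g3
      rw [mul_one, add_zero] at g4
      exact g4
    have h5 := capelli_pow (a * s) _ hw a
    rw [beta_cast n a n s le_rfl R, ← beta_range] at h5
    have e3 : (map C d ^ (a * (s + 1)) * (C (d ^ a) * C (ap v1 1)) :
        MvPolynomial (Fin n × Fin n) (MvPolynomial (Fin n × Fin n) R)) =
        DX n n R ^ a * (map C d ^ (a * s) * C (ap v1 1)) := by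
      rw [hDX, C_pow, mul_pow, mul_add, mul_one, pow_add]
      ring
    rw [e3, h5]
    rfl
  rw [hF]
  exact h0 v

/-- The inner vertex. -/
theorem cay_step (n m : ℕ) (hm : n ≤ m) (t : Tr)
    (h : Cay (poly n t) (beta (facs n t))) :
    Cay (poly n (.step m t)) (beta (facs n (.step m t))) := by
  intro R _ s v0
  rw [map_poly]
  obtain ⟨v, hv⟩ : ∃ v : MvPolynomial ((Fin n × Fin m) ⊕ ((Fin m × Col n t) ⊕ Ent n t)) R,
    v = v0 := ⟨v0, rfl⟩
  set F : MvPolynomial ((Fin n × Fin m) ⊕ ((Fin m × Col n t) ⊕ Ent n t)) R :=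
    val n t (fun i k => ∑ j : Fin m, X (Sum.inl (i, j)) * X (Sum.inr (Sum.inl (j, k))))
      (fun e => X (Sum.inr (Sum.inr e))) with hF
  have key : ap (F * v) (F ^ (s + 1)) = (beta (facs n (.step m t)) s : R) * ap v (F ^ s) := by
    set Bt := MvPolynomial (Fin n × Fin m) (MvPolynomial (Fin n × Fin m) R) with hBt
    set G : MvPolynomial (Var n t) Bt := pR n t Bt with hG
    set M : Fin n → Fin m → Bt := fun i j => C (X (i, j)) with hM
    set M' : Fin n → Fin m → Bt := fun i j => X (i, j) with hM'
    have hsb : ∀ N : Fin n → Fin m → Bt, sb N G = val n t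
        (fun i k => ∑ j, C (N i j) * X (Sum.inl (j, k))) (fun e => X (Sum.inr e)) := by
      intro N
      rw [hG, pR]
      have := val_mapA n (sb (κ := Col n t) (E := Ent n t) N) t
        (fun i k => X (Sum.inl (i, k))) (fun e => X (Sum.inr e))
      rw [this]
      congr 1
      · funext i k
        unfold sb
        rw [aeval_X]
        rfl
      · funext e
        unfold sb
        rw [aeval_X]
        rfl
    have hel : el F = sb M G := by
      rw [hsb, hF]
      have := val_mapA n (S := MvPolynomial ((Fin n × Fin m) ⊕ ((Fin m × Col n t) ⊕ Ent n t)) R)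
        (S' := MvPolynomial ((Fin m × Col n t) ⊕ Ent n t) Bt) (A := R) el t
        (fun i k => ∑ j : Fin m, X (Sum.inl (i, j)) * X (Sum.inr (Sum.inl (j, k))))
        (fun e => X (Sum.inr (Sum.inr e)))
      rw [this]
      congr 1
      · funext i k
        rw [map_sum]
        refine Finset.sum_congr rfl fun j _ => ?_
        rw [map_mul, el_inl, el_inr]
      · funext e
        rw [el_inr]
    have her : er F = sb M' G := by
      rw [hsb, hF]
      have := val_mapA n (S := MvPolynomial ((Fin n × Fin m) ⊕ ((Fin m × Col n t) ⊕ Ent n t)) R)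
        (S' := MvPolynomial ((Fin m × Col n t) ⊕ Ent n t) Bt) (A := R) er t
        (fun i k => ∑ j : Fin m, X (Sum.inl (i, j)) * X (Sum.inr (Sum.inl (j, k))))
        (fun e => X (Sum.inr (Sum.inr e)))
      rw [this]
      congr 1
      · funext i k
        rw [map_sum]
        refine Finset.sum_congr rfl fun j _ => ?_
        rw [map_mul, er_inl, er_inr]
      · funext e
        rw [er_inr]
    have hTT : sbT M' (sb M G) = C (DX n m R ^ wt t) * G := by
      rw [hsb]
      have := val_mapA n (sbT (κ := Col n t) (E := Ent n t) M') t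
        (fun i k => ∑ j, C (M i j) * X (Sum.inl (j, k))) (fun e => X (Sum.inr e))
      rw [this]
      have e1 : (fun (i : Fin n) (k : Col n t) =>
          sbT (κ := Col n t) (E := Ent n t) M' (∑ j, C (M i j) * X (Sum.inl (j, k)))) =
          fun i k => ∑ i', (Matrix.of fun a b : Fin n => (C (∑ j, M a j * M' b j) :
            MvPolynomial (Var n t) Bt)) i i' * X (Sum.inl (i', k)) := by
        funext i k
        rw [map_sum]
        have e2 : ∀ j : Fin m, sbT (κ := Col n t) (E := Ent n t) M' (C (M i j) * X (Sum.inl (j, k))) =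
            ∑ i', C (M i j) * (C (M' i' j) * X (Sum.inl (i', k))) := by
          intro j
          rw [map_mul, ← Finset.mul_sum]
          congr 1
          · unfold sbT; rw [aeval_C]; rfl
          · unfold sbT; rw [aeval_X]; rfl
        simp only [e2, Matrix.of_apply]
        rw [Finset.sum_comm]
        refine Finset.sum_congr rfl fun i' _ => ?_
        rw [map_sum, Finset.sum_mul]
        refine Finset.sum_congr rfl fun j _ => ?_
        rw [C_mul]
        ring
      have e3 : (fun e : Ent n t => sbT (κ := Col n t) (E := Ent n t) M' (X (Sum.inr e))) =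
          fun e => X (Sum.inr e) := by
        funext e
        unfold sbT
        rw [aeval_X]
        rfl
      rw [e1, e3, val_mulM, hG, pR]
      congr 1
      rw [C_pow]
      congr 1
      have e4 : (C : Bt →+* MvPolynomial (Var n t) Bt) (DX n m R) =
          ((C : Bt →+* MvPolynomial (Var n t) Bt).mapMatrix
            (Matrix.of fun a i : Fin n => ∑ j : Fin m, C (X (a, j)) * X (i, j))).det := by
        rw [← RingHom.map_det]
        rfl
      rw [e4]
      congr 1
    -- the inner pairing
    have hin : ap (el F * el v) (er F ^ (s + 1)) =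
        DX n m R ^ wt t * ((beta (facs n t) s : Bt) * ap (el v) (er F ^ s)) := by
      have hc := h Bt s (sbT M' (el v))
      rw [map_poly, ← hG] at hc
      rw [hel, her, ← map_pow, ← map_pow, ap_sb, map_mul, hTT, mul_assoc, ap_C_mul, hc, ap_sb]
    have hL : GW (wt t * s) (ap (el v) (er F ^ s) : Bt) := by
      intro S _ _ x N
      have n1 : ∀ y : Fin n × Fin m → S, (aeval y (ap (el v) (er F ^ s) : Bt) : S) =
          ap (map ((aeval y : Bt →ₐ[MvPolynomial (Fin n × Fin m) R] S) : Bt →+* S) (el v))
            (map ((aeval y : Bt →ₐ[MvPolynomial (Fin n × Fin m) R] S) : Bt →+* S) (er F) ^ s) := by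
        intro y
        have := ap_map ((aeval y : Bt →ₐ[MvPolynomial (Fin n × Fin m) R] S) : Bt →+* S)
          (el v) (er F ^ s)
        rw [map_pow] at this
        exact this
      obtain ⟨v1, hv1⟩ := el_const v
      have n2 : ∀ y : Fin n × Fin m → S,
          map ((aeval y : Bt →ₐ[MvPolynomial (Fin n × Fin m) R] S) : Bt →+* S) (el v) =
          map (algebraMap (MvPolynomial (Fin n × Fin m) R) S) v1 := by
        intro y
        have n6 : ((aeval y : Bt →ₐ[MvPolynomial (Fin n × Fin m) R] S) : Bt →+* S).comp C =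
            algebraMap (MvPolynomial (Fin n × Fin m) R) S :=
          RingHom.ext fun a => aeval_C y a
        rw [hv1, map_map, n6]
      have n3 : ∀ y : Fin n × Fin m → S,
          map ((aeval y : Bt →ₐ[MvPolynomial (Fin n × Fin m) R] S) : Bt →+* S) (er F) =
          val n t (fun i k => ∑ j, C (y (i, j)) * X (Sum.inl (j, k))) (fun e => X (Sum.inr e)) := by
        intro y
        have n7 := val_map n (map ((aeval y : Bt →ₐ[MvPolynomial (Fin n × Fin m) R] S) :
          Bt →+* S) : MvPolynomial ((Fin m × Col n t) ⊕ Ent n t) Bt →+*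
            MvPolynomial ((Fin m × Col n t) ⊕ Ent n t) S) t
          (fun i k => ∑ j, C (M' i j) * X (Sum.inl (j, k))) (fun e => X (Sum.inr e))
        rw [her, hsb, n7]
        congr 1
        · funext i k
          rw [map_sum]
          refine Finset.sum_congr rfl fun j _ => ?_
          rw [map_mul, map_C, map_X, hM']
          congr 2
          exact aeval_X y (i, j)
        · funext e
          rw [map_X]
      have n4 : map ((aeval (fun q : Fin n × Fin m => ∑ b, N q.1 b * x b q.2) :
          Bt →ₐ[MvPolynomial (Fin n × Fin m) R] S) : Bt →+* S) (er F) =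
          C (N.det ^ wt t) * map ((aeval (fun q : Fin n × Fin m => x q.1 q.2) :
          Bt →ₐ[MvPolynomial (Fin n × Fin m) R] S) : Bt →+* S) (er F) := by
        rw [n3, n3]
        have n5 := val_mulM n ((C : S →+* MvPolynomial ((Fin m × Col n t) ⊕ Ent n t) S).mapMatrix N)
          t (fun i k => ∑ j, C (x i j) * X (Sum.inl (j, k))) (fun e => X (Sum.inr e))
        rw [← RingHom.map_det, ← map_pow] at n5
        rw [← n5]
        congr 1
        funext i k
        simp only [map_sum, Finset.sum_mul, Finset.mul_sum]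
        rw [Finset.sum_comm]
        refine Finset.sum_congr rfl fun b _ => Finset.sum_congr rfl fun j _ => ?_
        rw [C_mul, RingHom.mapMatrix_apply, Matrix.map_apply]
        ring
      rw [n1, n1, n2, n2, n4, mul_pow, ← C_pow, ap_C_mul_right, ← pow_mul]
    rw [fub (F * v) (F ^ (s + 1)), fub v (F ^ s), map_mul, map_pow, map_pow, hin]
    have e6 : (DX n m R ^ wt t * ((beta (facs n t) s : Bt) * ap (el v) (er F ^ s)) : Bt) =
        C (C (beta (facs n t) s : R)) * (DX n m R ^ wt t * ap (el v) (er F ^ s)) := by
      have : (beta (facs n t) s : Bt) = C (C (beta (facs n t) s : R)) := by simp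
      rw [this]
      ring
    rw [e6, lam_CC_mul, capelli_pow (wt t * s) _ hL, beta_cast n (wt t) m s hm R, ← beta_range]
    have e7 : beta (facs n (.step m t)) s =
        beta ((List.range n).map fun i => (wt t, m - i)) s * beta (facs n t) s :=
      beta_append _ _ s
    rw [e7]
    push_cast
    ring
  subst hv
  exact key

/-- The index map of a fork. -/
def forkEquiv (n : ℕ) (t t' : Tr) : (Var n t ⊕ Var n t') ≃ Var n (.fork t t') where
  toFun := Sum.elim
    (Sum.elim (fun q => Sum.inl (q.1, Sum.inl q.2)) (fun e => Sum.inr (Sum.inl e)))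
    (Sum.elim (fun q => Sum.inl (q.1, Sum.inr q.2)) (fun e => Sum.inr (Sum.inr e)))
  invFun := fun z => match z with
    | Sum.inl (i, Sum.inl k) => Sum.inl (Sum.inl (i, k))
    | Sum.inl (i, Sum.inr k) => Sum.inr (Sum.inl (i, k))
    | Sum.inr (Sum.inl e) => Sum.inl (Sum.inr e)
    | Sum.inr (Sum.inr e) => Sum.inr (Sum.inr e)
  left_inv := by
    rintro ((⟨i, k⟩ | e) | (⟨i, k⟩ | e)) <;> rfl
  right_inv := by
    rintro (⟨i, (k | k)⟩ | (e | e)) <;> rfl

theorem poly_fork (n : ℕ) (t t' : Tr) : poly n (.fork t t') =
    rename (forkEquiv n t t') (rename Sum.inl (poly n t) * rename Sum.inr (poly n t')) := by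
  rw [map_mul, rename_rename, rename_rename]
  unfold poly
  have h1 := val_mapA n (rename (forkEquiv n t t' ∘ Sum.inl) :
    MvPolynomial (Var n t) ℤ →ₐ[ℤ] MvPolynomial (Var n (.fork t t')) ℤ) t
    (fun i k => X (Sum.inl (i, k))) (fun e => X (Sum.inr e))
  have h2 := val_mapA n (rename (forkEquiv n t t' ∘ Sum.inr) :
    MvPolynomial (Var n t') ℤ →ₐ[ℤ] MvPolynomial (Var n (.fork t t')) ℤ) t'
    (fun i k => X (Sum.inl (i, k))) (fun e => X (Sum.inr e))
  simp only [rename_X] at h1 h2
  rw [h1, h2]
  rfl

/-- **Cayley's identity for trees.** -/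
theorem cay_tree (n : ℕ) : ∀ t : Tr, Ok n t → Cay (poly n t) (beta (facs n t))
  | .leaf a, _ => cay_leaf n a
  | .fork t t', h => by
    have h1 := ((cay_tree n t h.1).prod (cay_tree n t' h.2)).rename (forkEquiv n t t')
    rw [← poly_fork] at h1
    intro R _ s v
    have h2 := h1 R s v
    rw [h2]
    have h3 : beta (facs n (.fork t t')) s = beta (facs n t) s * beta (facs n t') s :=
      beta_append _ _ s
    rw [h3]
  | .step m t, h => cay_step n m h.1 t (cay_tree n t h.2)

end Pool.Agent.K6.H77.PD
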