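import Pool.Agent.K6.H77.PD.StmP

set_option autoImplicit false

/-! # Path determinants: unimodular substitutions (pieces U1 and U2) -/

namespace Pool.Agent.K6.H77.PD

open MeasureTheory Pool.Agent.W427.SMC Pool.Agent.K6.H33.NM
open scoped ENNReal

attribute [local instance] msZ bsZ

/-! ## U1 -/

theorem u1 : S_U1 := by
  intro p _ m U V hUV hVU κ _
  let f : (Fin m × κ → ℤ_[p]) →+ (Fin m × κ → ℤ_[p]) :=
    { toFun := fun z q => ∑ j, U q.1 j * z (j, q.2)
      map_zero' := by funext q; simp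
      map_add' := by
        intro z z'
        funext q
        simp only [Pi.add_apply, mul_add, Finset.sum_add_distrib] }
  have hcont : Continuous f := by
    change Continuous fun (z : Fin m × κ → ℤ_[p]) (q : Fin m × κ) => ∑ j, U q.1 j * z (j, q.2)
    fun_prop
  have hsurj : Function.Surjective f := by
    intro z
    refine ⟨fun q => ∑ j, V q.1 j * z (j, q.2), ?_⟩
    funext q
    change ∑ j, U q.1 j * (∑ l, V j l * z (l, q.2)) = z q
    simp only [Finset.mul_sum]
    rw [Finset.sum_comm]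
    have h1 : ∀ l : Fin m, ∑ j, U q.1 j * (V j l * z (l, q.2)) =
        (1 : Matrix (Fin m) (Fin m) ℤ_[p]) q.1 l * z (l, q.2) := by
      intro l
      rw [← hUV, Matrix.mul_apply, Finset.sum_mul]
      exact Finset.sum_congr rfl fun j _ => by ring
    simp only [h1, Matrix.one_apply, ite_mul, one_mul, zero_mul, Finset.sum_ite_eq,
      Finset.mem_univ, if_true]
  exact AddMonoidHom.measurePreserving (f := f) hcont hsurj (by simp)

/-! ## U2 -/

section

variable (p : ℕ) [Fact p.Prime]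

theorem tau_mono (σ : ℝ) (hσ : 0 ≤ σ) (x y : ℤ_[p]) (h : ‖x‖ ≤ ‖y‖) : tau p σ x ≤ tau p σ y := by
  unfold tau
  exact ENNReal.ofReal_le_ofReal (Real.rpow_le_rpow (norm_nonneg _) h hσ)

theorem det_cols {n m : ℕ} (y : Fin n → Fin m → ℤ_[p]) (U : Matrix (Fin m) (Fin m) ℤ_[p])
    (c : Fin n → Fin m) :
    Matrix.det (Matrix.of fun i k : Fin n => ∑ l, y i l * U l (c k)) =
      ∑ r : Fin n → Fin m, (∏ k, U (r k) (c k)) *
        Matrix.det (Matrix.of fun i k : Fin n => y i (r k)) := by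
  rw [← Matrix.det_transpose]
  have h1 : (Matrix.of fun i k : Fin n => ∑ l, y i l * U l (c k)).transpose =
      (fun k => ∑ l, U l (c k) • (fun i => y i l)) := by
    funext k i
    simp only [Matrix.transpose_apply, Matrix.of_apply, Finset.sum_apply, Pi.smul_apply, smul_eq_mul]
    exact Finset.sum_congr rfl fun l _ => mul_comm _ _
  rw [h1]
  have h2 := (Matrix.detRowAlternating (R := ℤ_[p]) (n := Fin n)).toMultilinearMap.map_sum
    (fun (k : Fin n) (l : Fin m) => U l (c k) • (fun i => y i l : Fin n → ℤ_[p]))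
  change Matrix.detRowAlternating _ = _
  rw [← AlternatingMap.coe_multilinearMap, h2]
  refine Finset.sum_congr rfl fun r _ => ?_
  rw [MultilinearMap.map_smul_univ, smul_eq_mul]
  congr 1
  rw [← Matrix.det_transpose]
  rfl

theorem Dm_mul_le (σ : ℝ) (hσ : 0 ≤ σ) {n m : ℕ} (y : Fin n → Fin m → ℤ_[p])
    (U : Matrix (Fin m) (Fin m) ℤ_[p]) : Dm p σ (fun i j => ∑ l, y i l * U l j) ≤ Dm p σ y := by
  unfold Dm
  refine iSup_le fun c => ?_
  rw [det_cols]
  have : Nonempty (Fin n → Fin m) := ⟨c⟩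
  obtain ⟨r, -, hr⟩ := IsUltrametricDist.exists_norm_finsetSum_le Finset.univ
    (fun r : Fin n → Fin m => (∏ k, U (r k) (c k)) *
        Matrix.det (Matrix.of fun i k : Fin n => y i (r k)))
  refine le_trans (tau_mono p σ hσ _ (Matrix.det (Matrix.of fun i k : Fin n => y i (r k)))
    (hr.trans ?_)) (le_iSup (fun c : Fin n → Fin m =>
      tau p σ (Matrix.det (Matrix.of fun i k : Fin n => y i (c k)))) r)
  rw [norm_mul]
  exact mul_le_of_le_one_left (norm_nonneg _) (PadicInt.norm_le_one _)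

theorem Dm_eq_of_inv (σ : ℝ) (hσ : 0 ≤ σ) {n m : ℕ} (y : Fin n → Fin m → ℤ_[p])
    (U V : Matrix (Fin m) (Fin m) ℤ_[p]) (hUV : U * V = 1) :
    Dm p σ (fun i j => ∑ l, y i l * U l j) = Dm p σ y := by
  refine le_antisymm (Dm_mul_le p σ hσ y U) ?_
  have h := Dm_mul_le p σ hσ (fun i j => ∑ l, y i l * U l j) V
  have h1 : (fun (i : Fin n) (j : Fin m) => ∑ l, (∑ l', y i l' * U l' l) * V l j) = y := by
    funext i j
    simp only [Finset.sum_mul]
    rw [Finset.sum_comm]
    have h2 : ∀ l' : Fin m, ∑ l, y i l' * U l' l * V l j =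
        y i l' * (1 : Matrix (Fin m) (Fin m) ℤ_[p]) l' j := by
      intro l'
      rw [← hUV, Matrix.mul_apply, Finset.mul_sum]
      exact Finset.sum_congr rfl fun l _ => by ring
    simp only [h2, Matrix.one_apply, mul_ite, mul_one, mul_zero, Finset.sum_ite_eq',
      Finset.mem_univ, if_true]
  rwa [h1] at h

theorem det_sub_le {n : ℕ} (A : Matrix (Fin n) (Fin n) ℤ_[p]) (c : Fin n → Fin n) :
    ‖Matrix.det (Matrix.of fun i k : Fin n => A i (c k))‖ ≤ ‖A.det‖ := by
  have h1 : (Matrix.of fun i k : Fin n => A i (c k)) =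
      A * Matrix.of (fun l k : Fin n => if l = c k then (1 : ℤ_[p]) else 0) := by
    ext i k
    simp [Matrix.mul_apply]
  rw [h1, Matrix.det_mul, norm_mul]
  exact mul_le_of_le_one_right (norm_nonneg _) (PadicInt.norm_le_one _)

theorem Dm_block (σ : ℝ) (hσ : 0 ≤ σ) {n m : ℕ} (hnm : n ≤ m) (z : Fin n → Fin m → ℤ_[p])
    (hz : ∀ (i : Fin n) (j : Fin m), n ≤ (j : ℕ) → z i j = 0) :
    Dm p σ z = tau p σ (Matrix.det (Matrix.of fun i k : Fin n => z i (Fin.castLE hnm k))) := by
  unfold Dm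
  refine le_antisymm (iSup_le fun c => ?_) (le_iSup (fun c : Fin n → Fin m =>
    tau p σ (Matrix.det (Matrix.of fun i k : Fin n => z i (c k)))) (Fin.castLE hnm))
  refine tau_mono p σ hσ _ _ ?_
  by_cases h : ∃ k, n ≤ (c k : ℕ)
  · obtain ⟨k, hk⟩ := h
    rw [Matrix.det_eq_zero_of_column_eq_zero k (fun i => hz i _ hk), norm_zero]
    exact norm_nonneg _
  · push Not at h
    have h1 : (Matrix.of fun i k : Fin n => z i (c k)) =
        Matrix.of fun i k : Fin n => (Matrix.of fun i k : Fin n => z i (Fin.castLE hnm k)) i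
          (⟨c k, h k⟩ : Fin n) := by
      ext i k
      rfl
    rw [h1]
    exact det_sub_le p _ _

/-- The block sum of `1` and a matrix. -/
noncomputable def blk {m : ℕ} (W : Matrix (Fin m) (Fin m) ℤ_[p]) : Matrix (Fin (m + 1)) (Fin (m + 1)) ℤ_[p] :=
  Matrix.of (Fin.cons (Fin.cons 1 0) (fun i => Fin.cons 0 (W i)))

theorem blk_zz {m : ℕ} (W : Matrix (Fin m) (Fin m) ℤ_[p]) : blk p W 0 0 = 1 := rfl
theorem blk_zs {m : ℕ} (W : Matrix (Fin m) (Fin m) ℤ_[p]) (j : Fin m) : blk p W 0 j.succ = 0 := rfl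
theorem blk_sz {m : ℕ} (W : Matrix (Fin m) (Fin m) ℤ_[p]) (i : Fin m) : blk p W i.succ 0 = 0 := rfl
theorem blk_ss {m : ℕ} (W : Matrix (Fin m) (Fin m) ℤ_[p]) (i j : Fin m) :
    blk p W i.succ j.succ = W i j := rfl

theorem blk_mul {m : ℕ} (W W' : Matrix (Fin m) (Fin m) ℤ_[p]) (h : W * W' = 1) :
    blk p W * blk p W' = 1 := by
  ext i j
  rw [Matrix.mul_apply, Fin.sum_univ_succ]
  refine Fin.cases ?_ (fun i => ?_) i
  · refine Fin.cases ?_ (fun j => ?_) j
    · simp [blk_zz, blk_zs]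
    · simp only [blk_zz, blk_zs, mul_zero, zero_mul, Finset.sum_const_zero, add_zero]
      rw [Matrix.one_apply_ne (Fin.succ_ne_zero j).symm]
  · refine Fin.cases ?_ (fun j => ?_) j
    · simp only [blk_sz, zero_mul, mul_zero, Finset.sum_const_zero, add_zero]
      rw [Matrix.one_apply_ne (Fin.succ_ne_zero i)]
    · simp only [blk_sz, blk_ss, zero_mul, zero_add]
      have := congrFun (congrFun h i) j
      rw [Matrix.mul_apply] at this
      rw [this, Matrix.one_apply, Matrix.one_apply]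
      simp [Fin.succ_inj]

theorem hermite : ∀ (n m : ℕ) (y : Fin n → Fin m → ℤ_[p]), n ≤ m →
    ∃ U V : Matrix (Fin m) (Fin m) ℤ_[p], U * V = 1 ∧ V * U = 1 ∧
      ∀ (i : Fin n) (j : Fin m), n ≤ (j : ℕ) → ∑ l, y i l * U l j = 0
  | 0, m, y, _ => ⟨1, 1, one_mul _, one_mul _, fun i => i.elim0⟩
  | n + 1, 0, y, h => by omega
  | n + 1, m + 1, y, h => by
    set U₀ := UU (PP p) m (y 0) with hU0
    have hdet : IsUnit U₀.det := by
      rw [PadicInt.isUnit_iff]
      have h1 : ‖U₀.det‖ₑ = 1 := det_UU (PP p) m (y 0)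
      have h2 : ‖U₀.det‖ₑ = ENNReal.ofReal ‖U₀.det‖ := (ofReal_norm _).symm
      rw [h2, ENNReal.ofReal_eq_one] at h1
      exact h1
    have hu : IsUnit U₀ := (Matrix.isUnit_iff_isUnit_det _).2 hdet
    obtain ⟨V₀, hV1, hV2⟩ : ∃ V₀, U₀ * V₀ = 1 ∧ V₀ * U₀ = 1 :=
      ⟨U₀⁻¹, Matrix.mul_nonsing_inv _ hdet, Matrix.nonsing_inv_mul _ hdet⟩
    obtain ⟨U', V', h1, h2, h3⟩ := hermite n m
      (fun i j => ∑ l, y i.succ l * U₀ l j.succ) (by omega)
    refine ⟨U₀ * blk p U', blk p V' * V₀, ?_, ?_, ?_⟩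
    · calc U₀ * blk p U' * (blk p V' * V₀) = U₀ * (blk p U' * blk p V') * V₀ := by
            simp only [Matrix.mul_assoc]
        _ = 1 := by rw [blk_mul p _ _ h1, Matrix.mul_one, hV1]
    · calc blk p V' * V₀ * (U₀ * blk p U') = blk p V' * (V₀ * U₀) * blk p U' := by
            simp only [Matrix.mul_assoc]
        _ = 1 := by rw [hV2, Matrix.mul_one, blk_mul p _ _ h2]
    · intro i j hj
      have hassoc : ∑ l, y i l * (U₀ * blk p U') l j =
          ∑ l', (∑ l, y i l * U₀ l l') * blk p U' l' j := by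
        simp only [Matrix.mul_apply, Finset.mul_sum, Finset.sum_mul]
        rw [Finset.sum_comm]
        exact Finset.sum_congr rfl fun a _ => Finset.sum_congr rfl fun b _ => by ring
      rw [hassoc, Fin.sum_univ_succ]
      obtain ⟨j', rfl⟩ : ∃ j' : Fin m, j = j'.succ := by
        refine ⟨⟨j - 1, by omega⟩, ?_⟩
        ext
        simp only [Fin.val_succ]
        omega
      have hj' : n ≤ (j' : ℕ) := by
        simp only [Fin.val_succ] at hj
        omega
      simp only [blk_zs, blk_ss, mul_zero, zero_add]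
      refine Fin.cases ?_ (fun i => ?_) i
      · refine Finset.sum_eq_zero fun l _ => ?_
        have h4 : ∑ l', y 0 l' * U₀ l' l.succ = 0 := u_succ (PP p) m (y 0) l
        rw [h4, zero_mul]
      · exact h3 i j' hj'

end

theorem u2 : S_U2 := by
  intro p _ n m hnm y
  obtain ⟨U, V, h1, h2, h3⟩ := hermite p n m y hnm
  refine ⟨U, V, h1, h2, Matrix.of fun i k => ∑ l, y i l * U l (Fin.castLE hnm k), ?_, ?_⟩
  · intro i j
    split_ifs with h
    · rfl
    · exact h3 i j (by omega)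
  · intro σ hσ
    rw [← Dm_eq_of_inv p σ hσ y U V h1, Dm_block p σ hσ hnm _ h3]

end Pool.Agent.K6.H77.PD
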