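import Pool.Agent.K6.H77.PD.StmP

set_option autoImplicit false

/-! # Path determinants: the integral of the maximal norm of the minors (piece U3, by helper44) -/

namespace Pool.Agent.K6.H77.PD

open MeasureTheory Pool.Agent.W427.SMC Pool.Agent.K6.H33.NM
open scoped ENNReal

attribute [local instance] msZ bsZ

namespace U3

section

variable (p : ℕ) [Fact p.Prime]

/-- The maximal norm of the `n × n` minors. -/
noncomputable def Dn {n m : ℕ} (y : Fin n → Fin m → ℤ_[p]) : ℝ≥0∞ :=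
  ⨆ c : Fin n → Fin m, ‖Matrix.det (Matrix.of fun i k : Fin n => y i (c k))‖ₑ

theorem le_Dn {n m : ℕ} (y : Fin n → Fin m → ℤ_[p]) (c : Fin n → Fin m) :
    ‖Matrix.det (Matrix.of fun i k : Fin n => y i (c k))‖ₑ ≤ Dn p y :=
  le_iSup (fun c : Fin n → Fin m => ‖Matrix.det (Matrix.of fun i k : Fin n => y i (c k))‖ₑ) c

theorem tau_e (σ : ℝ) (hσ : 0 ≤ σ) (x : ℤ_[p]) : tau p σ x = ‖x‖ₑ ^ σ :=
  Pool.Agent.TH192.PA.tau_eq p σ hσ x

theorem Dm_eq (σ : ℝ) (hσ : 0 ≤ σ) {n m : ℕ} (h : n ≤ m) (y : Fin n → Fin m → ℤ_[p]) :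
    Dm p σ y = Dn p y ^ σ := by
  have : Nonempty (Fin n → Fin m) := ⟨Fin.castLE h⟩
  obtain ⟨c0, hc0⟩ := Finite.exists_max
    (fun c : Fin n → Fin m => ‖Matrix.det (Matrix.of fun i k : Fin n => y i (c k))‖ₑ)
  have h1 : Dn p y = ‖Matrix.det (Matrix.of fun i k : Fin n => y i (c0 k))‖ₑ :=
    le_antisymm (iSup_le hc0) (le_Dn p y c0)
  rw [h1, Dm]
  refine le_antisymm (iSup_le fun c => ?_) ?_
  · rw [tau_e p σ hσ]
    exact ENNReal.rpow_le_rpow (hc0 c) hσ
  · rw [← tau_e p σ hσ]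
    exact le_iSup (fun c : Fin n → Fin m =>
      tau p σ (Matrix.det (Matrix.of fun i k : Fin n => y i (c k)))) c0

theorem enorm_add_le' (a b : ℤ_[p]) (B : ℝ≥0∞) (ha : ‖a‖ₑ ≤ B) (hb : ‖b‖ₑ ≤ B) :
    ‖a + b‖ₑ ≤ B := by
  rw [← ofReal_norm] at ha hb ⊢
  have h := PadicInt.nonarchimedean a b
  rcases le_total ‖a‖ ‖b‖ with h1 | h1
  · rw [max_eq_right h1] at h
    exact (ENNReal.ofReal_le_ofReal h).trans hb
  · rw [max_eq_left h1] at h
    exact (ENNReal.ofReal_le_ofReal h).trans ha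

theorem enorm_sum_le' {ι : Type} (s : Finset ι) (f : ι → ℤ_[p]) (B : ℝ≥0∞)
    (h : ∀ i ∈ s, ‖f i‖ₑ ≤ B) : ‖∑ i ∈ s, f i‖ₑ ≤ B := by
  classical
  induction s using Finset.induction_on with
  | empty => simp
  | insert a s ha ih =>
    rw [Finset.sum_insert ha]
    exact enorm_add_le' p _ _ B (h a (Finset.mem_insert_self _ _))
      (ih fun i hi => h i (Finset.mem_insert_of_mem hi))

theorem enorm_prod_le {ι : Type} (s : Finset ι) (f : ι → ℤ_[p]) : ‖∏ i ∈ s, f i‖ₑ ≤ 1 :=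
  enorm_le_one' p _

/-- Expansion of a minor of a product. -/
theorem det_expand {n m m' : ℕ} (y : Fin n → Fin m → ℤ_[p]) (U : Matrix (Fin m) (Fin m') ℤ_[p])
    (c : Fin n → Fin m') :
    Matrix.det (Matrix.of fun i k : Fin n => Matrix.vecMul (y i) U (c k)) =
      ∑ r : Fin n → Fin m, (∏ k, U (r k) (c k)) *
        Matrix.det (Matrix.of fun i k : Fin n => y i (r k)) := by
  classical
  have h1 : Matrix.det (Matrix.of fun i k : Fin n => Matrix.vecMul (y i) U (c k)) =
      Matrix.detRowAlternating (R := ℤ_[p]) (n := Fin n)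
        (fun k : Fin n => ∑ l : Fin m, U l (c k) • (fun i : Fin n => y i l)) := by
    rw [← Matrix.det_transpose]
    show Matrix.det _ = Matrix.det _
    congr 1
    ext k i
    simp only [Matrix.transpose_apply, Matrix.of_apply, Matrix.vecMul, dotProduct, Finset.sum_apply,
      Pi.smul_apply, smul_eq_mul]
    exact Finset.sum_congr rfl fun l _ => mul_comm _ _
  rw [h1]
  have h2 := (Matrix.detRowAlternating (R := ℤ_[p]) (n := Fin n)).toMultilinearMap.map_sum
    (fun (k : Fin n) (l : Fin m) => U l (c k) • (fun i : Fin n => y i l))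
  refine h2.trans (Finset.sum_congr rfl fun r _ => ?_)
  have h3 := (Matrix.detRowAlternating (R := ℤ_[p]) (n := Fin n)).toMultilinearMap.map_smul_univ
    (fun k => U (r k) (c k)) (fun (k : Fin n) (i : Fin n) => y i (r k))
  refine h3.trans ?_
  rw [smul_eq_mul]
  congr 1
  rw [← Matrix.det_transpose]
  rfl

theorem Dn_mul_le {n m m' : ℕ} (y : Fin n → Fin m → ℤ_[p]) (U : Matrix (Fin m) (Fin m') ℤ_[p]) :
    Dn p (fun i => Matrix.vecMul (y i) U) ≤ Dn p y := by
  refine iSup_le fun c => ?_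
  rw [det_expand]
  refine enorm_sum_le' p _ _ _ fun r _ => ?_
  rw [enorm_mul]
  calc ‖∏ k, U (r k) (c k)‖ₑ * ‖Matrix.det (Matrix.of fun i k : Fin n => y i (r k))‖ₑ ≤
      1 * Dn p y := mul_le_mul' (enorm_prod_le p _ _) (le_Dn p y r)
    _ = Dn p y := one_mul _

theorem Dn_mul {n m : ℕ} (y : Fin n → Fin m → ℤ_[p]) (U : Matrix (Fin m) (Fin m) ℤ_[p])
    (hU : ‖U.det‖ₑ = 1) : Dn p (fun i => Matrix.vecMul (y i) U) = Dn p y := by
  refine le_antisymm (Dn_mul_le p y U) ?_
  have h1 : IsUnit U.det := by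
    rw [PadicInt.isUnit_iff]
    rw [← ofReal_norm, ← ENNReal.ofReal_one,
      ENNReal.ofReal_eq_ofReal_iff (norm_nonneg _) zero_le_one] at hU
    exact hU
  have h2 := Dn_mul_le p (fun i => Matrix.vecMul (y i) U) U⁻¹
  have h3 : (fun i => Matrix.vecMul (Matrix.vecMul (y i) U) U⁻¹) = y := by
    funext i
    rw [Matrix.vecMul_vecMul, Matrix.mul_nonsing_inv _ h1, Matrix.vecMul_one]
  rw [h3] at h2
  exact h2

/-- A matrix whose first row has one entry. -/
theorem Dn_lead {n m : ℕ} (w : Fin (n + 1) → Fin (m + 1) → ℤ_[p]) (hw : ∀ j : Fin m, w 0 j.succ = 0) :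
    Dn p w = ‖w 0 0‖ₑ * Dn p (fun (i : Fin n) (j : Fin m) => w i.succ j.succ) := by
  classical
  refine le_antisymm (iSup_le fun c => ?_) ?_
  · by_cases hdet : Matrix.det (Matrix.of fun i k : Fin (n + 1) => w i (c k)) = 0
    · rw [hdet]; simp
    have hinj : Function.Injective c := by
      intro a b hab
      by_contra hne
      exact hdet (Matrix.det_zero_of_column_eq hne fun i => by
        simp only [Matrix.of_apply, hab])
    have hz : ∀ x : Fin (m + 1), x ≠ 0 → w 0 x = 0 := by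
      intro x hx
      obtain ⟨j, rfl⟩ := Fin.exists_succ_eq.2 hx
      exact hw j
    have hk : ∃ k, c k = 0 := by
      by_contra hcon
      push Not at hcon
      exact hdet (Matrix.det_eq_zero_of_row_eq_zero 0 fun k => hz _ (hcon k))
    obtain ⟨k0, hk0⟩ := hk
    have hne : ∀ k : Fin n, c (k0.succAbove k) ≠ 0 := by
      intro k hk
      rw [← hk0] at hk
      exact Fin.succAbove_ne k0 k (hinj hk)
    rw [Matrix.det_succ_row_zero, Finset.sum_eq_single k0]
    · have h1 : (Matrix.of fun i k : Fin (n + 1) => w i (c k)).submatrix Fin.succ k0.succAbove =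
          Matrix.of fun i k : Fin n => w i.succ ((c (k0.succAbove k)).pred (hne k)).succ := by
        ext i k
        simp
      rw [h1, enorm_mul, enorm_mul]
      have h2 : ‖((-1 : ℤ_[p]) ^ (k0 : ℕ))‖ₑ ≤ 1 := enorm_le_one' p _
      simp only [Matrix.of_apply, hk0]
      calc ‖((-1 : ℤ_[p]) ^ (k0 : ℕ))‖ₑ * ‖w 0 0‖ₑ *
          ‖Matrix.det (Matrix.of fun i k : Fin n => w i.succ ((c (k0.succAbove k)).pred (hne k)).succ)‖ₑ
          ≤ 1 * ‖w 0 0‖ₑ * Dn p (fun (i : Fin n) (j : Fin m) => w i.succ j.succ) :=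
            mul_le_mul' (mul_le_mul' h2 le_rfl) (le_Dn p (fun (i : Fin n) (j : Fin m) =>
              w i.succ j.succ) fun k => (c (k0.succAbove k)).pred (hne k))
        _ = _ := by rw [one_mul]
    · intro k _ hkk
      have h1 : c k ≠ 0 := by
        intro h2
        rw [← hk0] at h2
        exact hkk (hinj h2)
      simp only [Matrix.of_apply, hz _ h1, mul_zero, zero_mul]
    · intro h
      exact absurd (Finset.mem_univ _) h
  · rw [Dn, ENNReal.mul_iSup]
    refine iSup_le fun c => ?_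
    have h1 := le_Dn p w (Fin.cons 0 (fun k => (c k).succ))
    have h2 : Matrix.det (Matrix.of fun i k : Fin (n + 1) =>
        w i ((Fin.cons 0 (fun k => (c k).succ) : Fin (n + 1) → Fin (m + 1)) k)) =
        w 0 0 * Matrix.det (Matrix.of fun i k : Fin n => w i.succ (c k).succ) := by
      rw [Matrix.det_succ_row_zero, Fin.sum_univ_succ]
      have h3 : ∑ i : Fin n, (-1 : ℤ_[p]) ^ ((i.succ : Fin (n + 1)) : ℕ) *
          (Matrix.of fun i k : Fin (n + 1) =>
            w i ((Fin.cons 0 (fun k => (c k).succ) : Fin (n + 1) → Fin (m + 1)) k)) 0 i.succ *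
          ((Matrix.of fun i k : Fin (n + 1) =>
            w i ((Fin.cons 0 (fun k => (c k).succ) : Fin (n + 1) → Fin (m + 1)) k)).submatrix Fin.succ
              (i.succ : Fin (n + 1)).succAbove).det = 0 := by
        refine Finset.sum_eq_zero fun i _ => ?_
        simp only [Matrix.of_apply, Fin.cons_succ, hw, mul_zero, zero_mul]
      rw [h3, add_zero]
      simp only [Fin.val_zero, pow_zero, one_mul, Matrix.of_apply, Fin.cons_zero]
      congr 1
    rw [h2, enorm_mul] at h1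
    exact h1

/-- Peeling off the first row. -/
theorem Dn_cons {n m : ℕ} (u : Fin (m + 1) → ℤ_[p]) (Y : Fin n → Fin (m + 1) → ℤ_[p]) :
    Dn p (Fin.cons u Y : Fin (n + 1) → Fin (m + 1) → ℤ_[p]) = (PP p).N (m + 1) u *
      Dn p (fun (i : Fin n) (j : Fin m) => Matrix.vecMul (Y i) (UU (PP p) m u) j.succ) := by
  rw [← Dn_mul p (Fin.cons u Y : Fin (n + 1) → Fin (m + 1) → ℤ_[p]) (UU (PP p) m u)
    (det_UU (PP p) m u), Dn_lead p _ (fun j => by
      simp only [Fin.cons_zero]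
      exact u_succ (PP p) m u j)]
  simp only [Fin.cons_zero, Fin.cons_succ]
  congr 1
  exact u_zero (PP p) m u

theorem Dn_meas (n m : ℕ) : Measurable fun y : Fin n → Fin m → ℤ_[p] => Dn p y := by
  refine Measurable.iSup fun c => ?_
  have h1 : Continuous fun y : Fin n → Fin m → ℤ_[p] =>
      Matrix.det (Matrix.of fun i k : Fin n => y i (c k)) :=
    Continuous.matrix_det (by fun_prop)
  exact h1.enorm.measurable

/-- The integral over matrices given by rows. -/
noncomputable def II (s : ℝ) (n m : ℕ) : ℝ≥0∞ :=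
  ∫⁻ Y : Fin n → Fin m → ℤ_[p], Dn p Y ^ s ∂(Measure.pi fun _ => Measure.pi fun _ => mu p)

theorem II_zero (s : ℝ) (m : ℕ) : II p s 0 m = 1 := by
  have h1 : ∀ Y : Fin 0 → Fin m → ℤ_[p], Dn p Y ^ s = 1 := by
    intro Y
    have h2 : Dn p Y = 1 := by
      simp [Dn, enorm]
    rw [h2, ENNReal.one_rpow]
  simp only [II, h1]
  simp

theorem rows_mp' (n m : ℕ) (u : Fin (m + 1) → ℤ_[p]) : MeasurePreserving
    (fun (Y : Fin n → Fin (m + 1) → ℤ_[p]) (i : Fin n) (j : Fin m) =>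
      Matrix.vecMul (Y i) (UU (PP p) m u) j.succ)
    (Measure.pi fun _ => Measure.pi fun _ => mu p) (Measure.pi fun _ => Measure.pi fun _ => mu p) := by
  have h := (tail_mp (PP p) m).comp (UU_mp (PP p) m u)
  exact measurePreserving_pi _ _ (fun _ : Fin n => h)

theorem II_succ (s : ℝ) (hs : 0 ≤ s) (n m : ℕ) :
    II p s (n + 1) (m + 1) = (∫⁻ u : Fin (m + 1) → ℤ_[p], (PP p).N (m + 1) u ^ s
      ∂(Measure.pi fun _ => mu p)) * II p s n m := by
  have hF : ∀ n' m' : ℕ, Measurable fun y : Fin n' → Fin m' → ℤ_[p] => Dn p y ^ s :=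
    fun n' m' => (Dn_meas p n' m').pow_const s
  have h1 := (measurePreserving_piFinSuccAbove
    (fun _ : Fin (n + 1) => Measure.pi fun _ : Fin (m + 1) => mu p) 0).symm
  have h2 : II p s (n + 1) (m + 1) = ∫⁻ z : (Fin (m + 1) → ℤ_[p]) × (Fin n → Fin (m + 1) → ℤ_[p]),
      Dn p (Fin.cons z.1 z.2 : Fin (n + 1) → Fin (m + 1) → ℤ_[p]) ^ s
        ∂((Measure.pi fun _ => mu p).prod (Measure.pi fun _ => Measure.pi fun _ => mu p)) := by
    rw [II, ← h1.lintegral_comp (hF (n + 1) (m + 1))]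
    refine lintegral_congr fun z => ?_
    simp [MeasurableEquiv.piFinSuccAbove, Fin.insertNthEquiv]
  have hm : Measurable fun z : (Fin (m + 1) → ℤ_[p]) × (Fin n → Fin (m + 1) → ℤ_[p]) =>
      Dn p (Fin.cons z.1 z.2 : Fin (n + 1) → Fin (m + 1) → ℤ_[p]) ^ s := by
    have h3 : Measurable fun z : (Fin (m + 1) → ℤ_[p]) × (Fin n → Fin (m + 1) → ℤ_[p]) =>
        (Fin.cons z.1 z.2 : Fin (n + 1) → Fin (m + 1) → ℤ_[p]) := by
      refine measurable_pi_lambda _ fun i => ?_
      refine Fin.cases ?_ (fun i => ?_) i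
      · simp only [Fin.cons_zero]
        exact measurable_fst
      · simp only [Fin.cons_succ]
        exact (measurable_pi_apply i).comp measurable_snd
    exact (hF (n + 1) (m + 1)).comp h3
  rw [h2, lintegral_prod _ hm.aemeasurable]
  have h4 : ∀ u : Fin (m + 1) → ℤ_[p], ∫⁻ Y : Fin n → Fin (m + 1) → ℤ_[p],
      Dn p (Fin.cons u Y : Fin (n + 1) → Fin (m + 1) → ℤ_[p]) ^ s
      ∂(Measure.pi fun _ => Measure.pi fun _ => mu p) = (PP p).N (m + 1) u ^ s * II p s n m := by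
    intro u
    simp only [Dn_cons, ENNReal.mul_rpow_of_nonneg _ _ hs]
    have h6 := (rows_mp' p n m u).lintegral_comp (hF n m)
    have h7 : Measurable fun Y : Fin n → Fin (m + 1) → ℤ_[p] =>
        Dn p (fun (i : Fin n) (j : Fin m) => Matrix.vecMul (Y i) (UU (PP p) m u) j.succ) ^ s :=
      (hF n m).comp (rows_mp' p n m u).measurable
    rw [lintegral_const_mul _ h7, h6]
    rfl
  simp only [h4]
  rw [lintegral_mul_const _ ((N_meas (PP p) (m + 1)).pow_const s)]

theorem W_one (P : Peel ℤ_[p]) (s : ℕ → ℝ) : ∀ (m : ℕ), (∀ i, i ≤ m → s i = 0) →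
    ∀ v : Fin m → ℤ_[p], P.W s m v = 1
  | 0, _, _ => rfl
  | m + 1, h, v => by
    have h1 : P.W s (m + 1) v = P.N (m + 1) v ^ s (m + 1) * P.W s m (Fin.tail v) := rfl
    rw [h1, h (m + 1) le_rfl, ENNReal.rpow_zero, one_mul]
    exact W_one P s m (fun i hi => h i (by omega)) _

theorem row_int (N : ℕ) (σ : ℝ) (hσ : 0 ≤ σ) (m : ℕ) :
    ((p : ℝ) ^ (m + 1) - tr' p σ ^ N) * (∫⁻ u : Fin (m + 1) → ℤ_[p],
      (PP p).N (m + 1) u ^ ((N : ℝ) * σ) ∂(Measure.pi fun _ => mu p)).toReal =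
    (p : ℝ) ^ (m + 1) - 1 := by
  classical
  set a : ℕ → ℕ := fun i => if i = m + 1 then N else 0 with ha
  have h0 : ∀ i, i ≤ m → ((a i : ℕ) : ℝ) * σ = 0 := by
    intro i hi
    have : a i = 0 := by simp only [ha]; rw [if_neg (by omega)]
    rw [this]; simp
  have hAA : AA a m = 0 := by
    unfold AA
    refine Finset.sum_eq_zero fun i hi => ?_
    have := Finset.mem_range.1 hi
    simp only [ha]
    rw [if_neg (by omega)]
  have hAA1 : AA a (m + 1) = N := by
    rw [AA_succ, hAA, zero_add]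
    simp [ha]
  have h1 := J_real p a σ hσ m
  rw [hAA, hAA1, pow_zero] at h1
  have h2 : (PP p).J (fun i => (a i : ℝ) * σ) m = 1 := by
    have : (PP p).J (fun i => (a i : ℝ) * σ) m = ∫⁻ v, 1 ∂(Measure.pi fun _ : Fin m => mu p) :=
      lintegral_congr fun v => W_one p (PP p) _ m h0 v
    rw [this, lintegral_one, measure_univ]
  have h3 : (PP p).J (fun i => (a i : ℝ) * σ) (m + 1) = ∫⁻ u : Fin (m + 1) → ℤ_[p],
      (PP p).N (m + 1) u ^ ((N : ℝ) * σ) ∂(Measure.pi fun _ => mu p) := by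
    refine lintegral_congr fun v => ?_
    have e1 : (PP p).W (fun i => (a i : ℝ) * σ) (m + 1) v = (PP p).N (m + 1) v ^ ((a (m + 1) : ℝ) * σ) *
      (PP p).W (fun i => (a i : ℝ) * σ) m (Fin.tail v) := rfl
    rw [e1, W_one p (PP p) _ m h0, mul_one]
    simp [ha]
  rw [h2, h3] at h1
  simpa using h1

theorem II_real (N : ℕ) (σ : ℝ) (hσ : 0 ≤ σ) : ∀ n m : ℕ, n ≤ m →
    (∏ i ∈ Finset.range n, ((p : ℝ) ^ (m - i) - tr' p σ ^ N)) * (II p ((N : ℝ) * σ) n m).toReal =
      ∏ i ∈ Finset.range n, ((p : ℝ) ^ (m - i) - 1)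
  | 0, m, _ => by rw [II_zero]; simp
  | n + 1, 0, h => by omega
  | n + 1, m + 1, h => by
    have ih := II_real N σ hσ n m (by omega)
    have hr := row_int p N σ hσ m
    rw [Finset.prod_range_succ', Finset.prod_range_succ', II_succ p _ (by positivity),
      ENNReal.toReal_mul]
    simp only [Nat.add_sub_add_right, Nat.sub_zero]
    rw [← ih, ← hr]
    ring

theorem unc_mp (n m : ℕ) : MeasurePreserving
    (fun (X : Fin n → Fin m → ℤ_[p]) (q : Fin n × Fin m) => X q.1 q.2)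
    (Measure.pi fun _ => Measure.pi fun _ => mu p) (Measure.pi fun _ => mu p) := by
  have hm : Measurable (fun (X : Fin n → Fin m → ℤ_[p]) (q : Fin n × Fin m) => X q.1 q.2) := by
    fun_prop
  refine ⟨hm, (Measure.pi_eq fun s hs => ?_).symm⟩
  rw [Measure.map_apply hm (MeasurableSet.univ_pi hs)]
  have h1 : (fun (X : Fin n → Fin m → ℤ_[p]) (q : Fin n × Fin m) => X q.1 q.2) ⁻¹'
      (Set.univ.pi s) = Set.univ.pi fun i => Set.univ.pi fun j => s (i, j) := by
    ext X
    simp only [Set.mem_preimage, Set.mem_univ_pi]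
    exact ⟨fun h i j => h (i, j), fun h q => h q.1 q.2⟩
  rw [h1, Measure.pi_pi]
  simp only [Measure.pi_pi]
  rw [Fintype.prod_prod_type]

end

end U3

open U3 in
theorem u3 : S_U3 := by
  intro p _ n m h N σ hσ
  have h1 : ∫⁻ y : Fin n × Fin m → ℤ_[p], Dm p (N * σ) (fun i j => y (i, j))
      ∂(Measure.pi fun _ => mu p) = II p ((N : ℝ) * σ) n m := by
    have hN : 0 ≤ (N : ℝ) * σ := by positivity
    have hc : Measurable fun (y : Fin n × Fin m → ℤ_[p]) (i : Fin n) (j : Fin m) => y (i, j) :=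
      measurable_pi_lambda _ fun i => measurable_pi_lambda _ fun j => measurable_pi_apply (i, j)
    have hm : Measurable fun y : Fin n × Fin m → ℤ_[p] => Dn p (fun i j => y (i, j)) ^ ((N : ℝ) * σ) :=
      ((Dn_meas p n m).comp hc).pow_const _
    simp only [Dm_eq p _ hN h]
    rw [← (unc_mp p n m).lintegral_comp hm]
    rfl
  rw [h1]
  exact II_real p N σ hσ n m h

end Pool.Agent.K6.H77.PD
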