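import Pool.Agent.K6.H77.PD.StmP

set_option autoImplicit false

/-! # Path determinants: the recursion over the tree (helper63) -/

namespace Pool.Agent.K6.H77.PD

open MeasureTheory Pool.Agent.W427.SMC
open scoped ENNReal

attribute [local instance] msZ bsZ

section

variable (p : ℕ) [Fact p.Prime]

/-- The restriction to a subset of the coordinates preserves the measure. -/
theorem mp_inj {α β : Type} [Fintype α] [Fintype β] (j : α → β) (hj : Function.Injective j) :
    MeasurePreserving (fun (z : β → ℤ_[p]) (a : α) => z (j a)) (Measure.pi fun _ => mu p)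
      (Measure.pi fun _ => mu p) := by
  classical
  have hm : Measurable (fun (z : β → ℤ_[p]) (a : α) => z (j a)) := by fun_prop
  refine ⟨hm, (Measure.pi_eq fun s hs => ?_).symm⟩
  rw [Measure.map_apply hm (MeasurableSet.univ_pi hs)]
  have h1 : (fun (z : β → ℤ_[p]) (a : α) => z (j a)) ⁻¹' (Set.univ.pi s) =
      Set.univ.pi (Function.extend j s fun _ => Set.univ) := by
    ext z
    simp only [Set.mem_preimage, Set.mem_univ_pi]
    constructor
    · intro h b
      by_cases hb : ∃ a, j a = b
      · obtain ⟨a, rfl⟩ := hb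
        rw [hj.extend_apply]
        exact h a
      · rw [Function.extend_apply' _ _ _ hb]
        trivial
    · intro h a
      have := h (j a)
      rwa [hj.extend_apply] at this
  rw [h1, Measure.pi_pi]
  symm
  refine Fintype.prod_of_injective j hj _ _ (fun b hb => ?_) (fun a => ?_)
  · rw [Function.extend_apply' _ _ _ hb]
    exact measure_univ
  · rw [hj.extend_apply]

theorem mp_two {α α' β : Type} [Fintype α] [Fintype α'] [Fintype β] (j : α → β) (j' : α' → β)
    (hj : Function.Injective (Sum.elim j j')) :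
    MeasurePreserving (fun (z : β → ℤ_[p]) => ((fun a => z (j a)), (fun a => z (j' a))))
      (Measure.pi fun _ => mu p) ((Measure.pi fun _ => mu p).prod (Measure.pi fun _ => mu p)) := by
  have h1 := mp_inj p (Sum.elim j j') hj
  have h2 := measurePreserving_sumPiEquivProdPi (fun _ : α ⊕ α' => mu p)
  exact h2.comp h1

theorem int_two {α α' β : Type} [Fintype α] [Fintype α'] [Fintype β] (j : α → β) (j' : α' → β)
    (hj : Function.Injective (Sum.elim j j')) (F : (α → ℤ_[p]) × (α' → ℤ_[p]) → ℝ≥0∞)
    (hF : Measurable F) :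
    ∫⁻ z : β → ℤ_[p], F ((fun a => z (j a)), (fun a => z (j' a))) ∂(Measure.pi fun _ => mu p) =
      ∫⁻ u, ∫⁻ v, F (u, v) ∂(Measure.pi fun _ => mu p) ∂(Measure.pi fun _ => mu p) := by
  rw [(mp_two p j j' hj).lintegral_comp hF, lintegral_prod _ hF.aemeasurable]

theorem cont_val {X : Type} [TopologicalSpace X] (n : ℕ) : ∀ (t : Tr)
    (y : X → Fin n → Col n t → ℤ_[p]) (e : X → Ent n t → ℤ_[p])
    (_ : ∀ i k, Continuous fun x => y x i k) (_ : ∀ j, Continuous fun x => e x j),
    Continuous fun x => val n t (y x) (e x)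
  | .leaf a, y, e, hy, he => by
    have h1 : Continuous fun x => Matrix.det (Matrix.of fun i j : Fin n => y x i j) := by
      refine Continuous.matrix_det ?_
      exact continuous_pi fun i => continuous_pi fun j => hy i j
    exact h1.pow a
  | .fork t t', y, e, hy, he =>
    (cont_val n t _ _ (fun i k => hy i (Sum.inl k)) (fun j => he (Sum.inl j))).mul
      (cont_val n t' _ _ (fun i k => hy i (Sum.inr k)) (fun j => he (Sum.inr j)))
  | .step m t, y, e, hy, he =>
    cont_val n t _ _ (fun i k => continuous_finsetSum _ fun j _ =>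
      (hy i j).mul (he (Sum.inl (j, k)))) (fun j => he (Sum.inr j))

/-- The integrand. -/
noncomputable def G (σ : ℝ) (n : ℕ) (t : Tr) (z : Var n t → ℤ_[p]) : ℝ≥0∞ :=
  tau p σ (val n t (fun i k => z (Sum.inl (i, k))) (fun e => z (Sum.inr e)))

/-- The integral. -/
noncomputable def II (σ : ℝ) (n : ℕ) (t : Tr) : ℝ≥0∞ :=
  ∫⁻ z : Var n t → ℤ_[p], G p σ n t z ∂(Measure.pi fun _ => mu p)

theorem meas_G (σ : ℝ) (n : ℕ) (t : Tr) : Measurable (G p σ n t) := by
  refine (tau_meas p σ).comp (Continuous.measurable ?_)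
  exact cont_val p n t _ _ (fun i k => continuous_apply _) (fun j => continuous_apply _)

theorem tau_le (σ : ℝ) (hσ : 0 ≤ σ) (x : ℤ_[p]) : tau p σ x ≤ 1 := by
  unfold tau
  exact ENNReal.ofReal_le_one.2 (Real.rpow_le_one (norm_nonneg _) (PadicInt.norm_le_one x) hσ)

theorem II_le (σ : ℝ) (hσ : 0 ≤ σ) (n : ℕ) (t : Tr) : II p σ n t ≤ 1 := by
  unfold II
  calc ∫⁻ z : Var n t → ℤ_[p], G p σ n t z ∂(Measure.pi fun _ => mu p) ≤
      ∫⁻ _ : Var n t → ℤ_[p], 1 ∂(Measure.pi fun _ => mu p) :=
        lintegral_mono fun z => tau_le p σ hσ _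
    _ = 1 := by simp

theorem tau_npow (σ : ℝ) (x : ℤ_[p]) (a : ℕ) : tau p σ (x ^ a) = tau p (a * σ) x := by
  unfold tau
  rw [norm_pow, Real.rpow_natCast_mul (norm_nonneg _)]

theorem meas_Dm (σ : ℝ) (n m : ℕ) :
    Measurable fun y : Fin n × Fin m → ℤ_[p] => Dm p σ (fun i j => y (i, j)) := by
  unfold Dm
  refine Measurable.iSup fun c => ?_
  refine (tau_meas p σ).comp (Continuous.measurable ?_)
  refine Continuous.matrix_det ?_
  exact continuous_pi fun i => continuous_pi fun j => continuous_apply _

end

theorem val_mul {S : Type} [CommRing S] (n : ℕ) : ∀ (t : Tr) (A : Matrix (Fin n) (Fin n) S)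
    (y : Fin n → Col n t → S) (e : Ent n t → S),
    val n t (fun i k => ∑ j, A i j * y j k) e = A.det ^ wt t * val n t y e
  | .leaf a, A, y, e => by
    have h1 : (Matrix.of fun i j : Fin n => ∑ l, A i l * y l j) =
        A * (Matrix.of fun i j : Fin n => y i j) := by
      ext i j
      rw [Matrix.mul_apply]
      rfl
    show (Matrix.det (Matrix.of fun i j : Fin n => ∑ l, A i l * y l j)) ^ a = A.det ^ a *
      (Matrix.det (Matrix.of fun i j : Fin n => y i j)) ^ a
    rw [h1, Matrix.det_mul, mul_pow]
  | .fork t t', A, y, e => by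
    have h1 := val_mul n t A (fun i k => y i (Sum.inl k)) (fun j => e (Sum.inl j))
    have h2 := val_mul n t' A (fun i k => y i (Sum.inr k)) (fun j => e (Sum.inr j))
    show val n t (fun i k => ∑ j, A i j * y j (Sum.inl k)) (fun j => e (Sum.inl j)) *
      val n t' (fun i k => ∑ j, A i j * y j (Sum.inr k)) (fun j => e (Sum.inr j)) =
      A.det ^ (wt t + wt t') * (val n t (fun i k => y i (Sum.inl k)) (fun j => e (Sum.inl j)) *
        val n t' (fun i k => y i (Sum.inr k)) (fun j => e (Sum.inr j)))
    rw [h1, h2, pow_add]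
    ring
  | .step m t, A, y, e => by
    have h1 := val_mul n t A (fun i k => ∑ j : Fin m, y i j * e (Sum.inl (j, k)))
      (fun j => e (Sum.inr j))
    show val n t (fun i k => ∑ j : Fin m, (∑ l, A i l * y l j) * e (Sum.inl (j, k)))
      (fun j => e (Sum.inr j)) = A.det ^ wt t *
        val n t (fun i k => ∑ j : Fin m, y i j * e (Sum.inl (j, k))) (fun j => e (Sum.inr j))
    rw [← h1]
    congr 1
    funext i k
    simp only [Finset.sum_mul, Finset.mul_sum]
    rw [Finset.sum_comm]
    refine Finset.sum_congr rfl fun l _ => Finset.sum_congr rfl fun j _ => ?_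
    ring

theorem list_prod (f : ℕ → ℝ) (n : ℕ) :
    ((List.range n).map f).prod = ∏ i ∈ Finset.range n, f i := by
  induction n with
  | zero => simp
  | succ n ih => rw [List.range_succ, List.map_append, List.prod_append, ih,
      Finset.prod_range_succ]; simp

/-- The embeddings of the variables for a fork. -/
def jl (A C C' E E' : Type) : (A × C) ⊕ E → (A × (C ⊕ C')) ⊕ (E ⊕ E')
  | Sum.inl (i, k) => Sum.inl (i, Sum.inl k)
  | Sum.inr e => Sum.inr (Sum.inl e)

def jr (A C C' E E' : Type) : (A × C') ⊕ E' → (A × (C ⊕ C')) ⊕ (E ⊕ E')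
  | Sum.inl (i, k) => Sum.inl (i, Sum.inr k)
  | Sum.inr e => Sum.inr (Sum.inr e)

theorem jlr_inj (A C C' E E' : Type) :
    Function.Injective (Sum.elim (jl A C C' E E') (jr A C C' E E')) := by
  rintro ((⟨i, k⟩ | e) | (⟨i, k⟩ | e)) ((⟨i', k'⟩ | e') | (⟨i', k'⟩ | e')) h <;>
    simp [jl, jr] at h ⊢ <;> exact h

/-- The embedding of the variables for a step. -/
def js (n m : ℕ) (C E : Type) (h : n ≤ m) : (Fin n × C) ⊕ E → (Fin m × C) ⊕ E
  | Sum.inl (i, k) => Sum.inl (Fin.castLE h i, k)
  | Sum.inr e => Sum.inr e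

theorem js_inj (n m : ℕ) (C E : Type) (h : n ≤ m) : Function.Injective (js n m C E h) := by
  rintro (⟨i, k⟩ | e) (⟨i', k'⟩ | e') h' <;> simp [js] at h' ⊢ <;> exact h'

theorem u4 : S_U4 := by
  intro h1 h2 h3 p _ n t
  induction t with
  | leaf a =>
    intro _ σ hσ
    have h := h3 p n n le_rfl a σ hσ
    have hint : ∫⁻ z : Var n (.leaf a) → ℤ_[p], tau p σ (val n (.leaf a)
        (fun i k => z (Sum.inl (i, k))) (fun e => z (Sum.inr e))) ∂(Measure.pi fun _ => mu p) =
        ∫⁻ y : Fin n × Fin n → ℤ_[p], Dm p (a * σ) (fun i j => y (i, j))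
          ∂(Measure.pi fun _ => mu p) := by
      have hj : Function.Injective (fun q : Fin n × Fin n => (Sum.inl q : Var n (.leaf a))) :=
        fun x y hxy => Sum.inl_injective hxy
      rw [← (mp_inj p (fun q : Fin n × Fin n => (Sum.inl q : Var n (.leaf a))) hj).lintegral_comp
        (meas_Dm p (a * σ) n n)]
      refine lintegral_congr fun z => ?_
      obtain ⟨U, V, hUV, hVU, A, hA, hD⟩ := h2 p n n le_rfl (fun i j => z (Sum.inl (i, j)))
      refine Eq.trans ?_ (hD (a * σ) (by positivity)).symm
      show tau p σ ((Matrix.det (Matrix.of fun i j : Fin n => z (Sum.inl (i, j)))) ^ a) = _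
      rw [tau_npow]
      have h4 : (Matrix.of fun i j : Fin n => z (Sum.inl (i, j))) * U = A := by
        ext i j
        rw [Matrix.mul_apply]
        have h5 := hA i j
        rw [dif_pos j.2] at h5
        exact h5
      have h6 : ‖U.det‖ = 1 := by
        have h7 : IsUnit U.det := by
          rw [← Matrix.isUnit_iff_isUnit_det]
          exact ⟨⟨U, V, hUV, hVU⟩, rfl⟩
        exact PadicInt.isUnit_iff.1 h7
      rw [← h4, Matrix.det_mul, tau_mul, tau_unit p _ _ h6, mul_one]
    rw [hint]
    have e1 : ((facs n (.leaf a)).map fun q => ((p : ℝ) ^ q.2 - tr' p σ ^ q.1)).prod =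
        ∏ i ∈ Finset.range n, ((p : ℝ) ^ (n - i) - tr' p σ ^ a) := by
      rw [← list_prod]
      simp [facs, List.map_map, Function.comp_def]
    have e2 : ((facs n (.leaf a)).map fun q => ((p : ℝ) ^ q.2 - 1)).prod =
        ∏ i ∈ Finset.range n, ((p : ℝ) ^ (n - i) - 1) := by
      rw [← list_prod]
      simp [facs, List.map_map, Function.comp_def]
    rw [e1, e2]
    exact h
  | fork t t' ih ih' =>
    intro hok σ hσ
    have i1 := ih hok.1 σ hσ
    have i2 := ih' hok.2 σ hσ
    have hint : ∫⁻ z : Var n (.fork t t') → ℤ_[p], tau p σ (val n (.fork t t')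
        (fun i k => z (Sum.inl (i, k))) (fun e => z (Sum.inr e))) ∂(Measure.pi fun _ => mu p) =
        II p σ n t * II p σ n t' := by
      have h4 := int_two p (β := Var n (.fork t t'))
        (jl (Fin n) (Col n t) (Col n t') (Ent n t) (Ent n t'))
        (jr (Fin n) (Col n t) (Col n t') (Ent n t) (Ent n t'))
        (jlr_inj _ _ _ _ _) (fun w => G p σ n t w.1 * G p σ n t' w.2)
        (((meas_G p σ n t).comp measurable_fst).mul ((meas_G p σ n t').comp measurable_snd))
      have h5 : ∀ z : Var n (.fork t t') → ℤ_[p], tau p σ (val n (.fork t t')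
          (fun i k => z (Sum.inl (i, k))) (fun e => z (Sum.inr e))) =
          G p σ n t (fun a => z (jl (Fin n) (Col n t) (Col n t') (Ent n t) (Ent n t') a)) *
          G p σ n t' (fun a => z (jr (Fin n) (Col n t) (Col n t') (Ent n t) (Ent n t') a)) := by
        intro z
        exact tau_mul p σ _ _
      simp only [h5]
      refine Eq.trans h4 ?_
      have h6 : ∀ u : Var n t → ℤ_[p], ∫⁻ v : Var n t' → ℤ_[p], G p σ n t u * G p σ n t' v
          ∂(Measure.pi fun _ => mu p) = G p σ n t u * II p σ n t' := fun u =>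
        lintegral_const_mul _ (meas_G p σ n t')
      simp only [h6]
      exact lintegral_mul_const _ (meas_G p σ n t)
    rw [hint, ENNReal.toReal_mul]
    have e1 : facs n (.fork t t') = facs n t ++ facs n t' := rfl
    rw [e1, List.map_append, List.prod_append, List.map_append, List.prod_append, ← i1, ← i2]
    unfold II G
    ring
  | step m t ih =>
    intro hok σ hσ
    have i1 := ih hok.2 σ hσ
    have hnm : n ≤ m := hok.1
    have h := h3 p n m hnm (wt t) σ hσ
    have hint : ∫⁻ z : Var n (.step m t) → ℤ_[p], tau p σ (val n (.step m t)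
        (fun i k => z (Sum.inl (i, k))) (fun e => z (Sum.inr e))) ∂(Measure.pi fun _ => mu p) =
        (∫⁻ y : Fin n × Fin m → ℤ_[p], Dm p (wt t * σ) (fun i j => y (i, j))
          ∂(Measure.pi fun _ => mu p)) * II p σ n t := by
      -- the integrand for a pair of arguments
      let F : (Fin n × Fin m → ℤ_[p]) × ((Fin m × Col n t) ⊕ Ent n t → ℤ_[p]) → ℝ≥0∞ :=
        fun w => tau p σ (val n t (fun i k => ∑ j : Fin m, w.1 (i, j) * w.2 (Sum.inl (j, k)))
          (fun e => w.2 (Sum.inr e)))
      have hF : Measurable F := by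
        refine (tau_meas p σ).comp (Continuous.measurable ?_)
        exact cont_val p n t _ _ (fun i k => by fun_prop) (fun j => by fun_prop)
      have h4 := int_two p (β := Var n (.step m t))
        (Sum.inl : Fin n × Fin m → (Fin n × Fin m) ⊕ ((Fin m × Col n t) ⊕ Ent n t))
        (Sum.inr : ((Fin m × Col n t) ⊕ Ent n t) → (Fin n × Fin m) ⊕ ((Fin m × Col n t) ⊕ Ent n t))
        (by
          rintro (x | x) (y | y) hxy
          · exact congrArg Sum.inl (Sum.inl_injective hxy)
          · cases hxy
          · cases hxy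
          · exact congrArg Sum.inr (Sum.inr_injective hxy)) F hF
      refine Eq.trans h4 ?_
      rw [← lintegral_mul_const _ (meas_Dm p (wt t * σ) n m)]
      refine lintegral_congr fun y => ?_
      -- the inner integral
      obtain ⟨U, V, hUV, hVU, A, hA, hD⟩ := h2 p n m hnm (fun i j => y (i, j))
      have hF' : ∀ w : (Fin n × Fin m → ℤ_[p]) × ((Fin m × Col n t) ⊕ Ent n t → ℤ_[p]), F w =
        tau p σ (val n t (fun i k => ∑ j : Fin m, w.1 (i, j) * w.2 (Sum.inl (j, k)))
          (fun e => w.2 (Sum.inr e))) := fun w => rfl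
      let F2 : (Fin m × Col n t → ℤ_[p]) × (Ent n t → ℤ_[p]) → ℝ≥0∞ :=
        fun w => tau p σ (val n t (fun i k => ∑ j : Fin m, y (i, j) * w.1 (j, k)) w.2)
      have hF2 : Measurable F2 := by
        refine (tau_meas p σ).comp (Continuous.measurable ?_)
        exact cont_val p n t _ _ (fun i k => by fun_prop) (fun j => by fun_prop)
      have inj0 : Function.Injective (Sum.elim
          (Sum.inl : Fin m × Col n t → (Fin m × Col n t) ⊕ Ent n t)
          (Sum.inr : Ent n t → (Fin m × Col n t) ⊕ Ent n t)) := by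
        rintro (x | x) (y | y) hxy
        · exact congrArg Sum.inl (Sum.inl_injective hxy)
        · cases hxy
        · cases hxy
        · exact congrArg Sum.inr (Sum.inr_injective hxy)
      have h5 := int_two p (β := (Fin m × Col n t) ⊕ Ent n t) (Sum.inl : Fin m × Col n t → _)
        (Sum.inr : Ent n t → _) inj0 F2 hF2
      have h6 : ∫⁻ v, F (y, v) ∂(Measure.pi fun _ => mu p) =
          ∫⁻ u, ∫⁻ v, F2 (u, v) ∂(Measure.pi fun _ => mu p) ∂(Measure.pi fun _ => mu p) := h5
      rw [h6]
      -- the unimodular substitution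
      have hm2 : Measurable fun u => ∫⁻ v, F2 (u, v) ∂(Measure.pi fun _ => mu p) :=
        hF2.lintegral_prod_right'
      rw [← (h1 p m U V hUV hVU (Col n t)).lintegral_comp hm2]
      have h7 : ∀ (u : Fin m × Col n t → ℤ_[p]) (v : Ent n t → ℤ_[p]),
          F2 ((fun q => ∑ j, U q.1 j * u (j, q.2)), v) =
          tau p σ (A.det ^ wt t) * tau p σ (val n t (fun i k => u (Fin.castLE hnm i, k)) v) := by
        intro u v
        rw [← tau_mul, ← val_mul n t A (fun i k => u (Fin.castLE hnm i, k)) v]
        show tau p σ (val n t (fun i k => ∑ j : Fin m, y (i, j) * ∑ l, U j l * u (l, k)) v) = _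
        congr 2
        funext i k
        have h8 : ∑ j : Fin m, y (i, j) * ∑ l, U j l * u (l, k) =
            ∑ l : Fin m, (∑ j, y (i, j) * U j l) * u (l, k) := by
          simp only [Finset.mul_sum, Finset.sum_mul]
          rw [Finset.sum_comm]
          refine Finset.sum_congr rfl fun l _ => Finset.sum_congr rfl fun j _ => ?_
          ring
        rw [h8]
        have h9 : ∀ l : Fin m, (∑ j, y (i, j) * U j l) = if h : (l : ℕ) < n then A i ⟨l, h⟩ else 0 :=
          fun l => hA i l
        simp only [h9]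
        symm
        refine Fintype.sum_of_injective (Fin.castLE hnm) (Fin.castLE_injective hnm) _ _ ?_ ?_
        · intro l hl
          rw [dif_neg, zero_mul]
          intro hln
          exact hl ⟨⟨l, hln⟩, Fin.ext rfl⟩
        · intro l
          rw [dif_pos (by simp)]
          rfl
      have h10 : ∀ u : Fin m × Col n t → ℤ_[p],
          ∫⁻ v, F2 ((fun q => ∑ j, U q.1 j * u (j, q.2)), v) ∂(Measure.pi fun _ => mu p) =
          tau p σ (A.det ^ wt t) *
            ∫⁻ v, tau p σ (val n t (fun i k => u (Fin.castLE hnm i, k)) v)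
              ∂(Measure.pi fun _ => mu p) := by
        intro u
        simp only [h7]
        refine lintegral_const_mul _ ?_
        refine (tau_meas p σ).comp (Continuous.measurable ?_)
        exact cont_val p n t _ _ (fun i k => by fun_prop) (fun j => by fun_prop)
      have hF3 : Measurable fun w : (Fin m × Col n t → ℤ_[p]) × (Ent n t → ℤ_[p]) =>
          tau p σ (val n t (fun i k => w.1 (Fin.castLE hnm i, k)) w.2) := by
        refine (tau_meas p σ).comp (Continuous.measurable ?_)
        exact cont_val p n t _ _ (fun i k => by fun_prop) (fun j => by fun_prop)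
      have h11 := int_two p (β := (Fin m × Col n t) ⊕ Ent n t) (Sum.inl : Fin m × Col n t → _)
        (Sum.inr : Ent n t → _) inj0 _ hF3
      have h12 := (mp_inj p (js n m (Col n t) (Ent n t) hnm) (js_inj _ _ _ _ _)).lintegral_comp
        (meas_G p σ n t)
      have h13 : ∫⁻ u, ∫⁻ v, tau p σ (val n t (fun i k => u (Fin.castLE hnm i, k)) v)
          ∂(Measure.pi fun _ => mu p) ∂(Measure.pi fun _ => mu p) = II p σ n t :=
        h11.symm.trans h12
      have h14 : ∫⁻ u : Fin m × Col n t → ℤ_[p],
          ∫⁻ v, F2 ((fun q => ∑ j, U q.1 j * u (j, q.2)), v) ∂(Measure.pi fun _ => mu p)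
            ∂(Measure.pi fun _ => mu p) = tau p σ (A.det ^ wt t) * II p σ n t := by
        rw [lintegral_congr h10, lintegral_const_mul _ hF3.lintegral_prod_right', h13]
      refine Eq.trans h14 ?_
      rw [tau_npow, ← hD (wt t * σ) (by positivity)]
    rw [hint, ENNReal.toReal_mul]
    have e0 : facs n (.step m t) = ((List.range n).map fun i => (wt t, m - i)) ++ facs n t := rfl
    have e1 : (((List.range n).map fun i => (wt t, m - i)).map
        fun q : ℕ × ℕ => ((p : ℝ) ^ q.2 - tr' p σ ^ q.1)).prod =
        ∏ i ∈ Finset.range n, ((p : ℝ) ^ (m - i) - tr' p σ ^ wt t) := by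
      rw [← list_prod]
      simp [List.map_map, Function.comp_def]
    have e2 : (((List.range n).map fun i => (wt t, m - i)).map
        fun q : ℕ × ℕ => ((p : ℝ) ^ q.2 - 1)).prod =
        ∏ i ∈ Finset.range n, ((p : ℝ) ^ (m - i) - 1) := by
      rw [← list_prod]
      simp [List.map_map, Function.comp_def]
    rw [e0, List.map_append, List.prod_append, List.map_append, List.prod_append, e1, e2, ← i1, ← h]
    unfold II G
    ring

end Pool.Agent.K6.H77.PD
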