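import Pool.Agent.K6.H77.PD.Stm

set_option autoImplicit false
set_option linter.unusedSectionVars false

/-! # The apolar pairing -/

namespace Pool.Agent.K6.H77.PD

open MvPolynomial

section

variable {V : Type} {R : Type} [CommRing R]

/-- `α!` -/
noncomputable def fac (R : Type) [CommRing R] (α : V →₀ ℕ) : R :=
  α.prod fun _ k => (k.factorial : R)

theorem ap_eq (u v : MvPolynomial V R) (s : Finset (V →₀ ℕ)) (h : u.support ⊆ s) :
    ap u v = ∑ α ∈ s, u.coeff α * (v.coeff α * fac R α) := by
  unfold ap fac
  refine Finset.sum_subset h fun α _ h2 => ?_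
  rw [notMem_support_iff.1 h2, zero_mul]

theorem ap_add_left (u u' v : MvPolynomial V R) : ap (u + u') v = ap u v + ap u' v := by
  classical
  rw [ap_eq (u + u') v (u.support ∪ u'.support) support_add,
    ap_eq u v (u.support ∪ u'.support) Finset.subset_union_left,
    ap_eq u' v (u.support ∪ u'.support) Finset.subset_union_right, ← Finset.sum_add_distrib]
  refine Finset.sum_congr rfl fun α _ => ?_
  rw [coeff_add]
  ring

theorem ap_C_mul (c : R) (u v : MvPolynomial V R) : ap (C c * u) v = c * ap u v := by
  rw [ap_eq (C c * u) v u.support (fun α hα => by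
    rw [mem_support_iff, coeff_C_mul] at hα
    rw [mem_support_iff]
    exact fun h => hα (by rw [h, mul_zero])), ap_eq u v u.support subset_rfl, Finset.mul_sum]
  refine Finset.sum_congr rfl fun α _ => ?_
  rw [coeff_C_mul]
  ring

theorem ap_comm (u v : MvPolynomial V R) : ap u v = ap v u := by
  classical
  rw [ap_eq u v (u.support ∪ v.support) Finset.subset_union_left,
    ap_eq v u (u.support ∪ v.support) Finset.subset_union_right]
  refine Finset.sum_congr rfl fun α _ => ?_
  ring

theorem ap_add_right (u v v' : MvPolynomial V R) : ap u (v + v') = ap u v + ap u v' := by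
  rw [ap_comm, ap_add_left, ap_comm v, ap_comm v']

theorem ap_C_mul_right (c : R) (u v : MvPolynomial V R) : ap u (C c * v) = c * ap u v := by
  rw [ap_comm, ap_C_mul, ap_comm]

theorem ap_zero_left (v : MvPolynomial V R) : ap 0 v = 0 := by
  unfold ap
  simp

theorem ap_zero_right (v : MvPolynomial V R) : ap v 0 = 0 := by
  rw [ap_comm, ap_zero_left]

theorem ap_sum_left {ι : Type} (s : Finset ι) (u : ι → MvPolynomial V R) (v : MvPolynomial V R) :
    ap (∑ i ∈ s, u i) v = ∑ i ∈ s, ap (u i) v := by
  classical
  induction s using Finset.induction_on with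
  | empty => simp [ap_zero_left]
  | insert a s ha ih => rw [Finset.sum_insert ha, Finset.sum_insert ha, ap_add_left, ih]

theorem ap_sum_right {ι : Type} (s : Finset ι) (u : ι → MvPolynomial V R) (v : MvPolynomial V R) :
    ap v (∑ i ∈ s, u i) = ∑ i ∈ s, ap v (u i) := by
  rw [ap_comm, ap_sum_left]
  exact Finset.sum_congr rfl fun i _ => ap_comm _ _

theorem ap_monomial (α : V →₀ ℕ) (c : R) (v : MvPolynomial V R) :
    ap (monomial α c) v = c * (v.coeff α * fac R α) := by
  classical
  rw [ap_eq (monomial α c) v {α} support_monomial_subset, Finset.sum_singleton, coeff_monomial,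
    if_pos rfl]

theorem fac_zero : fac R (0 : V →₀ ℕ) = 1 := by
  unfold fac
  exact Finsupp.prod_zero_index

theorem ap_C (c : R) (v : MvPolynomial V R) : ap (C c) v = c * constantCoeff v := by
  have h := ap_monomial (0 : V →₀ ℕ) c v
  rw [fac_zero, mul_one] at h
  exact h

theorem fac_add_single (α : V →₀ ℕ) (i : V) :
    fac R (α + Finsupp.single i 1) = ((α i : R) + 1) * fac R α := by
  classical
  unfold fac
  obtain ⟨β, hβ⟩ : ∃ β : V →₀ ℕ, β = α + Finsupp.single i 1 := ⟨_, rfl⟩
  have hb : ∀ j, β j = α j + if i = j then 1 else 0 := by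
    intro j
    rw [hβ, Finsupp.add_apply, Finsupp.single_apply]
  rw [← hβ]
  have h1 : β.prod (fun _ k => (k.factorial : R)) =
      ∏ j ∈ insert i α.support, ((β j).factorial : R) := by
    refine Finsupp.prod_of_support_subset _ ?_ _ (by simp)
    intro j hj
    rw [Finsupp.mem_support_iff, hb] at hj
    rw [Finset.mem_insert, Finsupp.mem_support_iff]
    by_contra hn
    push Not at hn
    exact hj (by rw [hn.2, if_neg (Ne.symm hn.1), add_zero])
  have h2 : α.prod (fun _ k => (k.factorial : R)) =
      ∏ j ∈ insert i α.support, ((α j).factorial : R) :=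
    Finsupp.prod_of_support_subset _ (Finset.subset_insert _ _) _ (by simp)
  rw [h1, h2, ← Finset.mul_prod_erase _ _ (Finset.mem_insert_self i α.support),
    ← Finset.mul_prod_erase (insert i α.support) (fun j => ((α j).factorial : R))
      (Finset.mem_insert_self i α.support)]
  have h3 : ∏ x ∈ (insert i α.support).erase i, ((β x).factorial : R) =
      ∏ x ∈ (insert i α.support).erase i, ((α x).factorial : R) := by
    refine Finset.prod_congr rfl fun x hx => ?_
    have : x ≠ i := (Finset.mem_erase.1 hx).1
    rw [hb, if_neg (Ne.symm this), add_zero]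
  rw [h3]
  have h4 : ((β i).factorial : R) = ((α i : R) + 1) * ((α i).factorial : R) := by
    rw [hb, if_pos rfl, Nat.factorial_succ]
    push_cast
    ring
  rw [h4]
  ring

theorem ap_X_mul (i : V) (u v : MvPolynomial V R) : ap (X i * u) v = ap u (pderiv i v) := by
  classical
  induction u using MvPolynomial.induction_on' with
  | monomial α c =>
    induction v using MvPolynomial.induction_on' with
    | monomial γ d =>
      have h1 : X i * monomial α c = monomial (α + Finsupp.single i 1) c := by
        rw [X, monomial_mul, one_mul, add_comm]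
      rw [h1, ap_monomial, ap_monomial, pderiv_monomial, coeff_monomial, coeff_monomial]
      by_cases h : γ = α + Finsupp.single i 1
      · have h2 : γ - Finsupp.single i 1 = α := by rw [h, add_tsub_cancel_right]
        rw [if_pos h, if_pos h2, fac_add_single]
        have h3 : (γ i : R) = (α i : R) + 1 := by rw [h]; simp
        rw [h3]
        ring
      · rw [if_neg h]
        by_cases h2 : γ - Finsupp.single i 1 = α
        · have h3 : γ i = 0 := by
            by_contra h3
            apply h
            rw [← h2]
            refine (tsub_add_cancel_of_le ?_).symm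
            rw [Finsupp.single_le_iff]
            omega
          rw [if_pos h2, h3]
          simp
        · rw [if_neg h2]
          simp
    | add v v' h h' => rw [ap_add_right, h, h', map_add, ap_add_right]
  | add u u' h h' => rw [mul_add, ap_add_left, h, h', ap_add_left]

theorem ap_pderiv (i : V) (u v : MvPolynomial V R) : ap (pderiv i u) v = ap u (X i * v) := by
  rw [ap_comm, ← ap_X_mul, ap_comm]

/-- Naturality. -/
theorem ap_map {S : Type} [CommRing S] (φ : R →+* S) (u v : MvPolynomial V R) :
    φ (ap u v) = ap (map φ u) (map φ v) := by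
  rw [ap_eq (map φ u) (map φ v) u.support (support_map_subset φ u), ap_eq u v u.support subset_rfl,
    map_sum]
  refine Finset.sum_congr rfl fun α _ => ?_
  rw [map_mul, map_mul, coeff_map, coeff_map]
  congr 2
  unfold fac
  rw [Finsupp.prod, Finsupp.prod, map_prod]
  exact Finset.prod_congr rfl fun j _ => map_natCast φ _

end

end Pool.Agent.K6.H77.PD
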