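import Pool.Agent.K6.H77.PD.CayT
import Pool.Agent.K6.H77.PD.Bern
import Pool.Agent.K6.H77.PD.U12
import Pool.Agent.K6.H77.PD.U3
import Pool.Agent.K6.H77.PD.U4

set_option autoImplicit false
set_option linter.unusedSectionVars false

/-! # Path determinants: the strong monodromy conjecture with orders -/

namespace Pool.Agent.K6.H77.PD

open MeasureTheory Pool.Agent.W427.SMC Pool.Agent.H628R4.TP

theorem facs_pos (n : ℕ) : ∀ t : Tr, Ok n t → ∀ q ∈ facs n t, 1 ≤ q.2
  | .leaf a, _, q, hq => by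
    unfold facs at hq
    simp only [List.mem_map, List.mem_range] at hq
    obtain ⟨i, hi, rfl⟩ := hq
    show 1 ≤ n - i
    omega
  | .fork t t', h, q, hq => by
    unfold facs at hq
    rcases List.mem_append.1 hq with hq | hq
    · exact facs_pos n t h.1 q hq
    · exact facs_pos n t' h.2 q hq
  | .step m t, h, q, hq => by
    unfold facs at hq
    have hm : n ≤ m := h.1
    rcases List.mem_append.1 hq with hq | hq
    · simp only [List.mem_map, List.mem_range] at hq
      obtain ⟨i, hi, rfl⟩ := hq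
      show 1 ≤ m - i
      omega
    · exact facs_pos n t h.2 q hq

theorem beta_ne_zero (l : List (ℕ × ℕ)) (hl : ∀ q ∈ l, 1 ≤ q.2) (s : ℕ) : beta l s ≠ 0 := by
  unfold beta
  refine List.prod_ne_zero fun h => ?_
  obtain ⟨q, hq, h0⟩ := List.mem_map.1 h
  have h1 := hl q hq
  refine (Finset.prod_ne_zero_iff.2 fun j _ => ?_) h0
  omega

theorem betaP_eval (l : List (ℕ × ℕ)) (s : ℕ) : (betaP l).eval (s : ℂ) = (beta l s : ℂ) := by
  induction l with
  | nil => simp [betaP, beta]
  | cons q l ih =>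
    have h1 : betaP (q :: l) = (∏ j ∈ Finset.range q.1,
        (Polynomial.C (q.1 : ℂ) * Polynomial.X + Polynomial.C (q.2 : ℂ) + Polynomial.C (j : ℂ))) *
        betaP l := rfl
    have h2 : beta (q :: l) s = (∏ j ∈ Finset.range q.1, (q.1 * s + q.2 + j)) * beta l s := rfl
    rw [h1, h2, Polynomial.eval_mul, ih, Polynomial.eval_prod, Nat.cast_mul, Nat.cast_prod]
    congr 1
    refine Finset.prod_congr rfl fun j _ => ?_
    simp

theorem betaP_ne_zero (l : List (ℕ × ℕ)) (hl : ∀ q ∈ l, 1 ≤ q.2) : betaP l ≠ 0 := by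
  intro h
  have h1 := betaP_eval l 0
  rw [h, Polynomial.eval_zero] at h1
  exact beta_ne_zero l hl 0 (by exact_mod_cast h1.symm)

section

variable (p : ℕ) [Fact p.Prime]

/-- A factor of the denominator. -/
noncomputable def fD (q : ℕ × ℕ) : Polynomial ℂ :=
  Polynomial.C ((p : ℂ) ^ q.2) - Polynomial.X ^ q.1

/-- The denominator. -/
noncomputable def DT (l : List (ℕ × ℕ)) : Polynomial ℂ := (l.map fun q => fD p q).prod

/-- The numerator. -/
noncomputable def NT (l : List (ℕ × ℕ)) : Polynomial ℂ :=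
  (l.map fun q => Polynomial.C ((p : ℂ) ^ q.2 - 1)).prod

theorem DT_eval (l : List (ℕ × ℕ)) (x : ℝ) : (DT p l).eval (x : ℂ) =
    (((l.map fun q => ((p : ℝ) ^ q.2 - x ^ q.1)).prod : ℝ) : ℂ) := by
  induction l with
  | nil => simp [DT]
  | cons q l ih =>
    have h1 : DT p (q :: l) = fD p q * DT p l := rfl
    rw [h1, Polynomial.eval_mul, ih, List.map_cons, List.prod_cons, fD]
    simp

theorem NT_eval (l : List (ℕ × ℕ)) (x : ℂ) : (NT p l).eval x =
    (((l.map fun q => ((p : ℝ) ^ q.2 - 1)).prod : ℝ) : ℂ) := by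
  induction l with
  | nil => simp [NT]
  | cons q l ih =>
    have h1 : NT p (q :: l) = Polynomial.C ((p : ℂ) ^ q.2 - 1) * NT p l := rfl
    rw [h1, Polynomial.eval_mul, ih, List.map_cons, List.prod_cons]
    simp

theorem fD_zero (q : ℕ × ℕ) (hq : 1 ≤ q.2) : (fD p q).eval 0 ≠ 0 := by
  have hp : (p : ℂ) ≠ 0 := by exact_mod_cast (Fact.out : p.Prime).ne_zero
  unfold fD
  simp only [Polynomial.eval_sub, Polynomial.eval_C, Polynomial.eval_pow, Polynomial.eval_X]
  by_cases h : q.1 = 0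
  · rw [h, pow_zero]
    intro h1
    have h2 : (p : ℂ) ^ q.2 = ((1 : ℕ) : ℂ) := by
      rw [Nat.cast_one]
      exact sub_eq_zero.1 h1
    have h3 : p ^ q.2 = 1 := by exact_mod_cast h2
    have h4 : 1 < p ^ q.2 := Nat.one_lt_pow (by omega) (Fact.out : p.Prime).one_lt
    omega
  · rw [zero_pow h, sub_zero]
    exact pow_ne_zero _ hp

theorem DT_zero (l : List (ℕ × ℕ)) (hl : ∀ q ∈ l, 1 ≤ q.2) : (DT p l).eval 0 ≠ 0 := by
  induction l with
  | nil => simp [DT]
  | cons q l ih =>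
    have h1 : DT p (q :: l) = fD p q * DT p l := rfl
    rw [h1, Polynomial.eval_mul]
    exact mul_ne_zero (fD_zero p q (hl q (by simp))) (ih fun q' h => hl q' (by simp [h]))

theorem DT_ne_zero (l : List (ℕ × ℕ)) (hl : ∀ q ∈ l, 1 ≤ q.2) : DT p l ≠ 0 := by
  intro h
  apply DT_zero p l hl
  rw [h, Polynomial.eval_zero]

theorem fD_mult_le_one (q : ℕ × ℕ) (hq : 1 ≤ q.2) (T : ℂ) : (fD p q).rootMultiplicity T ≤ 1 := by
  have hp : (p : ℂ) ≠ 0 := by exact_mod_cast (Fact.out : p.Prime).ne_zero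
  have h0 : fD p q ≠ 0 := by
    intro h
    apply fD_zero p q hq
    rw [h, Polynomial.eval_zero]
  by_contra hlt
  rw [not_le, Polynomial.one_lt_rootMultiplicity_iff_isRoot h0] at hlt
  obtain ⟨h1, h2⟩ := hlt
  rw [Polynomial.IsRoot.def] at h1 h2
  unfold fD at h1 h2
  simp only [Polynomial.derivative_sub, Polynomial.derivative_C, Polynomial.derivative_X_pow,
    Polynomial.eval_sub, Polynomial.eval_C, Polynomial.eval_pow, Polynomial.eval_X,
    Polynomial.eval_mul, zero_sub, Polynomial.eval_neg, neg_eq_zero] at h1 h2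
  rcases mul_eq_zero.1 h2 with h3 | h3
  · have h4 : q.1 = 0 := by simpa using h3
    apply fD_zero p q hq
    unfold fD
    simp only [Polynomial.eval_sub, Polynomial.eval_C, Polynomial.eval_pow, Polynomial.eval_X]
    rw [h4, pow_zero] at h1 ⊢
    exact h1
  · have h4 : T = 0 := by
      by_contra hne
      exact pow_ne_zero _ hne h3
    apply fD_zero p q hq
    unfold fD
    simp only [Polynomial.eval_sub, Polynomial.eval_C, Polynomial.eval_pow, Polynomial.eval_X]
    rw [h4] at h1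
    exact h1

theorem fD_root (q : ℕ × ℕ) (hq : 1 ≤ q.2) (T : ℂ) (hT : (fD p q).eval T = 0) :
    0 < q.1 ∧ -Real.log ‖T‖ / Real.log p = -(q.2 : ℝ) / (q.1 : ℝ) := by
  have h1 : 0 < q.1 := by
    by_contra h
    have h4 : q.1 = 0 := by omega
    apply fD_zero p q hq
    unfold fD at hT ⊢
    simp only [Polynomial.eval_sub, Polynomial.eval_C, Polynomial.eval_pow, Polynomial.eval_X] at hT ⊢
    rw [h4, pow_zero] at hT ⊢
    exact hT
  refine ⟨h1, ?_⟩
  have h2 : T ^ q.1 = (p : ℂ) ^ (q.2 - 1 + 1) := by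
    unfold fD at hT
    simp only [Polynomial.eval_sub, Polynomial.eval_C, Polynomial.eval_pow, Polynomial.eval_X] at hT
    rw [Nat.sub_add_cancel hq]
    exact (sub_eq_zero.1 hT).symm
  rw [Pool.Agent.K6.H33.NM.log_root p T q.1 (q.2 - 1) h1 h2]
  congr 2
  rw [Nat.cast_sub hq]
  push_cast
  ring

/-- The factor of `betaP`. -/
noncomputable def fB (q : ℕ × ℕ) : Polynomial ℂ := ∏ j ∈ Finset.range q.1,
    (Polynomial.C (q.1 : ℂ) * Polynomial.X + Polynomial.C (q.2 : ℂ) + Polynomial.C (j : ℂ))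

theorem fB_ne_zero (q : ℕ × ℕ) (hq : 1 ≤ q.2) : fB q ≠ 0 := by
  have h := betaP_ne_zero [q] (fun q' h => by rw [List.mem_singleton] at h; rw [h]; exact hq)
  have h1 : betaP [q] = fB q * 1 := rfl
  rwa [h1, mul_one] at h

theorem fB_root (q : ℕ × ℕ) (h1 : 0 < q.1) : (fB q).eval ((-(q.2 : ℝ) / (q.1 : ℝ) : ℝ) : ℂ) = 0 := by
  unfold fB
  rw [Polynomial.eval_prod]
  refine Finset.prod_eq_zero (Finset.mem_range.2 h1) ?_
  have h2 : (q.1 : ℂ) ≠ 0 := by exact_mod_cast h1.ne'
  simp only [Polynomial.eval_add, Polynomial.eval_mul, Polynomial.eval_C, Polynomial.eval_X,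
    Nat.cast_zero, map_zero, add_zero]
  push_cast
  rw [mul_div_cancel₀ _ h2]
  ring

theorem mult_le (l : List (ℕ × ℕ)) (hl : ∀ q ∈ l, 1 ≤ q.2) (T : ℂ) :
    (DT p l).rootMultiplicity T ≤
      (betaP l).rootMultiplicity ((-Real.log ‖T‖ / Real.log p : ℝ) : ℂ) := by
  induction l with
  | nil =>
    have h : DT p [] = 1 := rfl
    rw [h, Polynomial.rootMultiplicity_eq_zero (by simp [Polynomial.IsRoot.def])]
    exact Nat.zero_le _
  | cons q l ih =>
    have hq := hl q (by simp)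
    have hl' : ∀ q' ∈ l, 1 ≤ q'.2 := fun q' h => hl q' (by simp [h])
    have h1 : DT p (q :: l) = fD p q * DT p l := rfl
    have h2 : betaP (q :: l) = fB q * betaP l := rfl
    rw [h1, h2, Polynomial.rootMultiplicity_mul (h1 ▸ DT_ne_zero p _ hl),
      Polynomial.rootMultiplicity_mul (h2 ▸ betaP_ne_zero _ hl)]
    refine Nat.add_le_add ?_ (ih hl')
    by_cases hT : (fD p q).eval T = 0
    · obtain ⟨h3, h4⟩ := fD_root p q hq T hT
      rw [h4]
      refine (fD_mult_le_one p q hq T).trans ?_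
      exact (Polynomial.rootMultiplicity_pos (fB_ne_zero q hq)).2 (fB_root q h3)
    · rw [Polynomial.rootMultiplicity_eq_zero hT]
      exact Nat.zero_le _

end

theorem pd : S_PD := u4 u1 u2 u3

/-- Every polynomial `b` of the functional equation is divisible by `betaP`. -/
theorem dvd_b (n : ℕ) (t : Tr) (h : Ok n t) (b : Polynomial ℂ)
    (hb : IsBFunction (MvPolynomial.map (Int.castRingHom ℂ) (poly n t)) b) :
    betaP (facs n t) ∣ b :=
  bern (poly n t) (beta (facs n t)) (cay_tree n t h)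
    (fun s => beta_ne_zero _ (facs_pos n t h) s) (betaP (facs n t))
    (fun s => betaP_eval _ s) b hb

theorem dvd_mult (n : ℕ) (t : Tr) (h : Ok n t) (b : Polynomial ℂ) (hb0 : b ≠ 0)
    (hb : IsBFunction (MvPolynomial.map (Int.castRingHom ℂ) (poly n t)) b) (x : ℂ) :
    (betaP (facs n t)).rootMultiplicity x ≤ b.rootMultiplicity x :=
  Polynomial.rootMultiplicity_le_rootMultiplicity_of_dvd hb0 (dvd_b n t h b hb) x

attribute [local instance] msZ bsZ

theorem zeta_tree (p : ℕ) [Fact p.Prime] (n : ℕ) (t : Tr) (h : Ok n t) (σ : ℝ) (hσ : 0 ≤ σ) :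
    (DT p (facs n t)).eval (tr' p σ : ℂ) *
      ((∫⁻ z, tau p σ (MvPolynomial.aeval z (poly n t))
        ∂(Measure.pi fun _ : Var n t => mu p)).toReal : ℂ) =
      (NT p (facs n t)).eval (tr' p σ : ℂ) := by
  rw [DT_eval, NT_eval, ← pd p n t h σ hσ]
  simp only [aeval_poly]
  push_cast
  rfl

/-- **The strong monodromy conjecture with orders for path determinants.** -/
theorem smo_tree (p : ℕ) [Fact p.Prime] (n : ℕ) (t : Tr) (h : Ok n t) :
    Pool.Agent.N165.CU.StrongMonodromyOrders p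
      (MvPolynomial.map (Int.castRingHom ℚ) (poly n t)) := by
  intro Z hZ hI s₀ b hb0 hb
  have hb' : IsBFunction (MvPolynomial.map (Int.castRingHom ℂ) (poly n t)) b := by
    rw [MvPolynomial.map_map] at hb
    have e : (algebraMap ℚ ℂ).comp (Int.castRingHom ℚ) = Int.castRingHom ℂ :=
      RingHom.ext_int _ _
    rwa [e] at hb
  have h1 := mero_bound p (DT p (facs n t)) (NT p (facs n t)) (DT_ne_zero p _ (facs_pos n t h)) Z hZ
    (fun s hs => by
      rw [hI s (by simpa using hs), Pool.Agent.N165.CU.zeta_int, igusaZeta_eq, pw_real]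
      exact zeta_tree p n t h s hs.le) s₀
  refine le_trans ?_ h1
  have h2 := (mult_le p (facs n t) (facs_pos n t h) (pw p s₀)).trans
    (dvd_mult n t h b hb0 hb' _)
  rw [pw_norm] at h2
  have h3 : (-(b.rootMultiplicity (s₀.re : ℂ) : ℤ) : ℤ) ≤
      -((DT p (facs n t)).rootMultiplicity (pw p s₀) : ℤ) := by
    have : ((DT p (facs n t)).rootMultiplicity (pw p s₀) : ℤ) ≤
      (b.rootMultiplicity (s₀.re : ℂ) : ℤ) := by exact_mod_cast h2
    omega
  exact_mod_cast h3

/-- **The Poincare series of path determinants.** -/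
theorem poincare_tree (p : ℕ) [Fact p.Prime] (n : ℕ) (t : Tr) (h : Ok n t) :
    ∃ Φ : RatFunc ℂ,
      ((Φ.denom : Polynomial ℂ) : PowerSeries ℂ) * poincare p (poly n t) =
        ((Φ.num : Polynomial ℂ) : PowerSeries ℂ) ∧
      ∀ T₀ : ℂ, ∀ b : Polynomial ℂ, b ≠ 0 →
        IsBFunction (MvPolynomial.map (Int.castRingHom ℂ) (poly n t)) b →
        Φ.denom.rootMultiplicity T₀ ≤
          b.rootMultiplicity ((-Real.log ‖T₀‖ / Real.log p : ℝ) : ℂ) := by
  obtain ⟨Φ, h1, -, h2⟩ := poincare_of (p := p) (f := poly n t) (DT p (facs n t))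
    (NT p (facs n t)) (DT_ne_zero p _ (facs_pos n t h)) (fun s hs => zeta_tree p n t h s hs)
  exact ⟨Φ, h1, fun T₀ b hb0 hb => ((h2 T₀).trans (mult_le p _ (facs_pos n t h) T₀)).trans
    (dvd_mult n t h b hb0 hb _)⟩

end Pool.Agent.K6.H77.PD
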