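import Pool.Agent.K6.H77.PD.Two

set_option autoImplicit false
set_option linter.unusedSectionVars false

/-! # Capelli's identity -/

namespace Pool.Agent.K6.H77.PD

open MvPolynomial

section wt

variable {n m : ℕ} {A : Type} [CommRing A]

/-- `K(M x) = det(M) ^ σ K(x)`. -/
def GW (σ : ℕ) (K : MvPolynomial (Fin n × Fin m) A) : Prop :=
  ∀ (S : Type) [CommRing S] [Algebra A S] (x : Fin n → Fin m → S) (M : Matrix (Fin n) (Fin n) S),
    aeval (fun q : Fin n × Fin m => ∑ b, M q.1 b * x b q.2) K =
      M.det ^ σ * aeval (fun q : Fin n × Fin m => x q.1 q.2) K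

/-- The infinitesimal version. -/
def Wt (σ : ℕ) (K : MvPolynomial (Fin n × Fin m) A) : Prop :=
  ∀ i k : Fin n, ∑ j, X (i, j) * pderiv (k, j) K =
    if i = k then (σ : MvPolynomial (Fin n × Fin m) A) * K else 0

theorem GW.mul {σ τ : ℕ} {K L : MvPolynomial (Fin n × Fin m) A} (hK : GW σ K) (hL : GW τ L) :
    GW (σ + τ) (K * L) := by
  intro S _ _ x M
  rw [map_mul, map_mul, hK, hL, pow_add]
  ring

theorem GW.pow {σ : ℕ} {K : MvPolynomial (Fin n × Fin m) A} (hK : GW σ K) (w : ℕ) :
    GW (w * σ) (K ^ w) := by
  intro S _ _ x M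
  rw [map_pow, map_pow, hK, mul_pow, ← pow_mul, mul_comm w]

theorem det_elem (k i : Fin n) (S : Type) [CommRing S] (t : S) :
    (1 + Matrix.single k i t).det = if i = k then 1 + t else 1 := by
  by_cases h : i = k
  · subst h
    rw [if_pos rfl]
    have h1 : (1 + Matrix.single i i t : Matrix (Fin n) (Fin n) S) =
        Matrix.diagonal fun a => if a = i then 1 + t else 1 := by
      ext a b
      rw [Matrix.add_apply, Matrix.one_apply, Matrix.single_apply, Matrix.diagonal_apply]
      by_cases hab : a = b
      · subst hab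
        by_cases ha : i = a
        · subst ha; simp
        · simp [ha, Ne.symm ha]
      · have : ¬ (i = a ∧ i = b) := fun h => hab (h.1.symm.trans h.2)
        simp [hab, this]
    rw [h1, Matrix.det_diagonal, Finset.prod_ite_eq' Finset.univ i fun _ => 1 + t]
    simp
  · rw [if_neg h]
    exact Matrix.det_transvection_of_ne k i (Ne.symm h) t

theorem coeff01 (k i : Fin n) (K : MvPolynomial (Fin n × Fin m) A) :
    (aeval (fun q : Fin n × Fin m => Polynomial.C (X q : MvPolynomial (Fin n × Fin m) A) +
      Polynomial.X * Polynomial.C (if q.1 = k then X (i, q.2) else 0)) K).coeff 0 = K ∧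
    (aeval (fun q : Fin n × Fin m => Polynomial.C (X q : MvPolynomial (Fin n × Fin m) A) +
      Polynomial.X * Polynomial.C (if q.1 = k then X (i, q.2) else 0)) K).coeff 1 =
      ∑ j, X (i, j) * pderiv (k, j) K := by
  classical
  induction K using MvPolynomial.induction_on with
  | C a =>
    rw [aeval_C]
    have : (algebraMap A (Polynomial (MvPolynomial (Fin n × Fin m) A))) a =
        Polynomial.C (C a) := rfl
    rw [this, Polynomial.coeff_C_zero, Polynomial.coeff_C]
    simp
  | add p q h h' =>
    rw [map_add, Polynomial.coeff_add, Polynomial.coeff_add, h.1, h'.1, h.2, h'.2]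
    refine ⟨rfl, ?_⟩
    rw [← Finset.sum_add_distrib]
    exact Finset.sum_congr rfl fun j _ => by rw [map_add]; ring
  | mul_X p q h =>
    rw [map_mul, aeval_X]
    set P := (aeval (fun q : Fin n × Fin m => Polynomial.C (X q : MvPolynomial (Fin n × Fin m) A) +
      Polynomial.X * Polynomial.C (if q.1 = k then X (i, q.2) else 0)) p) with hP
    constructor
    · rw [Polynomial.mul_coeff_zero, h.1]
      simp
    · have h1 : (P * (Polynomial.C (X q) +
          Polynomial.X * Polynomial.C (if q.1 = k then X (i, q.2) else 0))).coeff 1 =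
          P.coeff 1 * X q + P.coeff 0 * (if q.1 = k then X (i, q.2) else 0) := by
        rw [mul_add, Polynomial.coeff_add, Polynomial.coeff_mul_C, ← mul_assoc,
          Polynomial.coeff_mul_C, Polynomial.coeff_mul_X]
      rw [h1, h.1, h.2, Finset.sum_mul]
      have h2 : ∀ j : Fin m, X (i, j) * pderiv (k, j) (p * X q) =
          X (i, j) * pderiv (k, j) p * X q + p * (X (i, j) * pderiv (k, j) (X q)) := by
        intro j
        rw [pderiv_mul]
        ring
      simp only [h2]
      rw [Finset.sum_add_distrib]
      congr 1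
      rw [← Finset.mul_sum]
      congr 1
      by_cases hq : q.1 = k
      · rw [if_pos hq, Finset.sum_eq_single q.2]
        · have : (k, q.2) = q := by rw [← hq]
          rw [this, pderiv_X_self, mul_one]
        · intro j _ hj
          rw [pderiv_X_of_ne (fun h => hj (by rw [h])), mul_zero]
        · simp
      · rw [if_neg hq]
        symm
        refine Finset.sum_eq_zero fun j _ => ?_
        rw [pderiv_X_of_ne (fun h => hq (by rw [h])), mul_zero]

theorem GW.wt {σ : ℕ} {K : MvPolynomial (Fin n × Fin m) A} (h : GW σ K) : Wt σ K := by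
  classical
  intro i k
  have h1 := h (Polynomial (MvPolynomial (Fin n × Fin m) A))
    (fun a j => Polynomial.C (X (a, j))) (1 + Matrix.single k i Polynomial.X)
  have h2 : (fun q : Fin n × Fin m => ∑ b,
      (1 + Matrix.single k i (Polynomial.X : Polynomial (MvPolynomial (Fin n × Fin m) A))) q.1 b *
        Polynomial.C (X (b, q.2))) =
      fun q : Fin n × Fin m => Polynomial.C (X q : MvPolynomial (Fin n × Fin m) A) +
        Polynomial.X * Polynomial.C (if q.1 = k then X (i, q.2) else 0) := by
    funext q
    simp only [Matrix.add_apply, add_mul, Finset.sum_add_distrib, Matrix.one_apply,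
      Matrix.single_apply]
    congr 1
    · rw [Finset.sum_eq_single q.1]
      · simp
      · intro b _ hb
        rw [if_neg (Ne.symm hb), zero_mul]
      · simp
    · rw [Finset.sum_eq_single i]
      · by_cases hq : q.1 = k
        · simp [hq]
        · have : ¬ (k = q.1 ∧ i = i) := fun h => hq h.1.symm
          rw [if_neg this, if_neg hq]
          simp
      · intro b _ hb
        have : ¬ (k = q.1 ∧ i = b) := fun h => hb h.2.symm
        rw [if_neg this, zero_mul]
      · simp
  have h3 : ∀ K : MvPolynomial (Fin n × Fin m) A,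
      aeval (fun q : Fin n × Fin m => (Polynomial.C (X (q.1, q.2)) :
        Polynomial (MvPolynomial (Fin n × Fin m) A))) K = Polynomial.C K := by
    intro K
    induction K using MvPolynomial.induction_on with
    | C a => rw [aeval_C]; rfl
    | add p q h h' => rw [map_add, h, h', map_add]
    | mul_X p q h => rw [map_mul, aeval_X, h, map_mul]
  rw [h2, h3, det_elem] at h1
  have h4 : Polynomial.coeff _ 1 = Polynomial.coeff _ 1 := congrArg (fun P => Polynomial.coeff P 1) h1
  rw [(coeff01 k i K).2, Polynomial.coeff_mul_C] at h4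
  rw [h4]
  by_cases hik : i = k
  · rw [if_pos hik, if_pos hik, Polynomial.coeff_one_add_X_pow, Nat.choose_one_right]
  · rw [if_neg hik, if_neg hik, one_pow, Polynomial.coeff_one]
    simp

/-- One step of Capelli's identity. -/
theorem cap_step (σ : ℕ) (K : MvPolynomial (Fin n × Fin m) A) (hK : Wt σ K) (r : ℕ) (hr : r < n)
    (j' : Fin r → Fin m) :
    ∑ l, pderiv ((⟨r, hr⟩ : Fin n), l) ((Matrix.of fun i a : Fin (r + 1) =>
      (X (Fin.castLE hr i, (Fin.snoc j' l : Fin (r + 1) → Fin m) a) :
        MvPolynomial (Fin n × Fin m) A)).det * K) =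
      ((σ : MvPolynomial (Fin n × Fin m) A) + (m : MvPolynomial (Fin n × Fin m) A) -
        (r : MvPolynomial (Fin n × Fin m) A)) *
      ((Matrix.of fun i a : Fin r => (X (Fin.castLE hr.le i, j' a) :
        MvPolynomial (Fin n × Fin m) A)).det * K) := by
  classical
  set N : Fin m → Matrix (Fin (r + 1)) (Fin (r + 1)) (MvPolynomial (Fin n × Fin m) A) := fun l =>
    Matrix.of fun i a : Fin (r + 1) =>
      X (Fin.castLE hr i, (Fin.snoc j' l : Fin (r + 1) → Fin m) a) with hN
  set d : MvPolynomial (Fin n × Fin m) A :=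
    (Matrix.of fun i a : Fin r => (X (Fin.castLE hr.le i, j' a) :
        MvPolynomial (Fin n × Fin m) A)).det with hd
  have hlast : ∀ l, ((N l).updateCol (Fin.last r) (Pi.single (Fin.last r) 1)).det = d := by
    intro l
    rw [det_last_col, hd]
    congr 1
    ext i a
    rw [Matrix.of_apply, Matrix.of_apply, hN]
    simp only [Matrix.of_apply, Fin.snoc_castSucc]
    rfl
  have hcl : (Fin.castLE hr (Fin.last r) : Fin n) = ⟨r, hr⟩ := rfl
  have hcne : ∀ i : Fin (r + 1), i ≠ Fin.last r → (Fin.castLE hr i : Fin n) ≠ ⟨r, hr⟩ := by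
    intro i hi h
    apply hi
    rw [Fin.ext_iff] at h ⊢
    simpa using h
  -- the derivative of the determinant
  have h1 : ∀ l, pderiv ((⟨r, hr⟩ : Fin n), l) (N l).det =
      (∑ b : Fin r, ((N l).updateCol b.castSucc fun i =>
        pderiv ((⟨r, hr⟩ : Fin n), l) (N l i b.castSucc)).det) + d := by
    intro l
    rw [der_det (pderiv ((⟨r, hr⟩ : Fin n), l)) (N l), Fin.sum_univ_castSucc]
    congr 1
    rw [← hlast l]
    congr 2
    funext i
    rw [hN]
    simp only [Matrix.of_apply, Fin.snoc_last]
    by_cases hi : i = Fin.last r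
    · rw [hi, hcl, pderiv_X_self, Pi.single_eq_same]
    · rw [Pi.single_eq_of_ne hi, pderiv_X_of_ne]
      intro h
      exact hcne i hi (congrArg Prod.fst h)
  have h2 : ∀ b : Fin r, ∑ l, ((N l).updateCol b.castSucc fun i =>
        pderiv ((⟨r, hr⟩ : Fin n), l) (N l i b.castSucc)).det = -d := by
    intro b
    rw [Finset.sum_eq_single (j' b)]
    · have h3 : (fun i => pderiv ((⟨r, hr⟩ : Fin n), j' b) (N (j' b) i b.castSucc)) =
          Pi.single (Fin.last r) 1 := by
        funext i
        rw [hN]
        simp only [Matrix.of_apply, Fin.snoc_castSucc]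
        by_cases hi : i = Fin.last r
        · rw [hi, hcl, pderiv_X_self, Pi.single_eq_same]
        · rw [Pi.single_eq_of_ne hi, pderiv_X_of_ne]
          intro h
          exact hcne i hi (congrArg Prod.fst h)
      rw [h3, det_swap_col (N (j' b)) b.castSucc (Fin.last r) (Fin.castSucc_lt_last b).ne, hlast]
      intro i
      rw [hN]
      simp only [Matrix.of_apply, Fin.snoc_castSucc, Fin.snoc_last]
    · intro l _ hl
      refine Matrix.det_eq_zero_of_column_eq_zero b.castSucc fun i => ?_
      rw [Matrix.updateCol_self, hN]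
      simp only [Matrix.of_apply, Fin.snoc_castSucc]
      rw [pderiv_X_of_ne]
      intro h
      exact hl (congrArg Prod.snd h).symm
    · simp
  -- the expansion along the last column
  set N0 : Matrix (Fin (r + 1)) (Fin (r + 1)) (MvPolynomial (Fin n × Fin m) A) :=
    Matrix.of fun i a : Fin (r + 1) =>
      (Fin.snoc (fun b : Fin r => X (Fin.castLE hr i, j' b)) 0 :
        Fin (r + 1) → MvPolynomial (Fin n × Fin m) A) a with hN0
  have h4 : ∀ l (v : Fin (r + 1) → MvPolynomial (Fin n × Fin m) A),
      (N l).updateCol (Fin.last r) v = N0.updateCol (Fin.last r) v := by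
    intro l v
    ext i a
    induction a using Fin.lastCases with
    | last => rw [Matrix.updateCol_self, Matrix.updateCol_self]
    | cast a =>
      rw [Matrix.updateCol_ne (Fin.castSucc_lt_last a).ne,
        Matrix.updateCol_ne (Fin.castSucc_lt_last a).ne, hN, hN0]
      simp only [Matrix.of_apply, Fin.snoc_castSucc]
  have h5 : ∀ l, (N l).det = ∑ i : Fin (r + 1), X (Fin.castLE hr i, l) *
      (N0.updateCol (Fin.last r) (Pi.single i 1)).det := by
    intro l
    have h6 : (N l).updateCol (Fin.last r) (fun i => X (Fin.castLE hr i, l)) = N l := by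
      ext i a
      induction a using Fin.lastCases with
      | last =>
        rw [Matrix.updateCol_self, hN]
        simp only [Matrix.of_apply, Fin.snoc_last]
      | cast a => rw [Matrix.updateCol_ne (Fin.castSucc_lt_last a).ne]
    rw [← h6, h4, ← Matrix.cramer_apply, LinearMap.pi_apply_eq_sum_univ (Matrix.cramer N0),
      Finset.sum_apply]
    refine Finset.sum_congr rfl fun i _ => ?_
    rw [Pi.smul_apply, smul_eq_mul, Matrix.cramer_apply]
    congr 3
    funext j
    rw [Pi.single_apply]
    simp only [eq_comm]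
  have h8 : (N0.updateCol (Fin.last r) (Pi.single (Fin.last r) 1)).det = d := by
    rw [det_last_col, hd]
    congr 1
    ext i a
    rw [Matrix.of_apply, Matrix.of_apply, hN0]
    simp only [Matrix.of_apply, Fin.snoc_castSucc]
    rfl
  have h7 : ∑ l, (N l).det * pderiv ((⟨r, hr⟩ : Fin n), l) K = d * (σ * K) := by
    simp only [h5, Finset.sum_mul]
    rw [Finset.sum_comm]
    have h9 : ∀ i : Fin (r + 1), ∑ l, X (Fin.castLE hr i, l) *
        (N0.updateCol (Fin.last r) (Pi.single i 1)).det * pderiv ((⟨r, hr⟩ : Fin n), l) K =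
        (N0.updateCol (Fin.last r) (Pi.single i 1)).det *
          (if Fin.castLE hr i = (⟨r, hr⟩ : Fin n) then (σ : MvPolynomial (Fin n × Fin m) A) * K
            else 0) := by
      intro i
      rw [← hK (Fin.castLE hr i) ⟨r, hr⟩, Finset.mul_sum]
      exact Finset.sum_congr rfl fun l _ => by ring
    simp only [h9]
    rw [Finset.sum_eq_single (Fin.last r)]
    · rw [h8, if_pos hcl]
    · intro i _ hi
      rw [if_neg (hcne i hi), mul_zero]
    · simp
  have h10 : ∀ l, pderiv ((⟨r, hr⟩ : Fin n), l) ((N l).det * K) =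
      (∑ b : Fin r, ((N l).updateCol b.castSucc fun i =>
        pderiv ((⟨r, hr⟩ : Fin n), l) (N l i b.castSucc)).det) * K + d * K +
        (N l).det * pderiv ((⟨r, hr⟩ : Fin n), l) K := by
    intro l
    rw [pderiv_mul, h1]
    ring
  have h11 : ∑ l, pderiv ((⟨r, hr⟩ : Fin n), l) ((N l).det * K) =
      ((σ : MvPolynomial (Fin n × Fin m) A) + (m : MvPolynomial (Fin n × Fin m) A) -
        (r : MvPolynomial (Fin n × Fin m) A)) * (d * K) := by
    simp only [h10]
    rw [Finset.sum_add_distrib, Finset.sum_add_distrib, h7, ← Finset.sum_mul, Finset.sum_comm]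
    simp only [h2]
    rw [Finset.sum_const, Finset.sum_const, Finset.card_univ, Finset.card_univ, Fintype.card_fin,
      Fintype.card_fin, nsmul_eq_mul, nsmul_eq_mul]
    ring
  exact h11

end wt

end Pool.Agent.K6.H77.PD
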