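import Pool.Agent.K6.H77.PD.Cap

set_option autoImplicit false
set_option linter.unusedSectionVars false

/-! # Capelli's identity for the pairing -/

namespace Pool.Agent.K6.H77.PD

open MvPolynomial

variable {n m : ℕ} {R : Type} [CommRing R]

theorem cap_ind (σ : ℕ) (K : MvPolynomial (Fin n × Fin m) (MvPolynomial (Fin n × Fin m) R))
    (hK : Wt σ K) : ∀ (r : ℕ) (hr : r ≤ n),
    ∑ j : Fin r → Fin m, lam (C (∏ a : Fin r, X (Fin.castLE hr a, j a)) *
      ((Matrix.of fun i a : Fin r => (X (Fin.castLE hr i, j a) :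
        MvPolynomial (Fin n × Fin m) (MvPolynomial (Fin n × Fin m) R))).det * K)) =
      (∏ i ∈ Finset.range r, ((σ : R) + (m : R) - (i : R))) * lam K
  | 0, hr => by
    simp
  | r + 1, hr => by
    have ih := cap_ind σ K hK r (Nat.le_of_succ_le hr)
    have hr' : r < n := hr
    rw [← Fintype.sum_equiv (Fin.snocEquiv fun _ : Fin (r + 1) => Fin m)
      (fun q : Fin m × (Fin r → Fin m) => lam (C (∏ a : Fin (r + 1),
        X (Fin.castLE hr a, (Fin.snoc q.2 q.1 : Fin (r + 1) → Fin m) a)) *
      ((Matrix.of fun i a : Fin (r + 1) => (X (Fin.castLE hr i,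
        (Fin.snoc q.2 q.1 : Fin (r + 1) → Fin m) a) :
        MvPolynomial (Fin n × Fin m) (MvPolynomial (Fin n × Fin m) R))).det * K))) _
      (fun q => rfl), Fintype.sum_prod_type, Finset.sum_comm, Finset.prod_range_succ]
    have h1 : ∀ j' : Fin r → Fin m, ∑ l : Fin m, lam (C (∏ a : Fin (r + 1),
        X (Fin.castLE hr a, (Fin.snoc j' l : Fin (r + 1) → Fin m) a)) *
      ((Matrix.of fun i a : Fin (r + 1) => (X (Fin.castLE hr i,
        (Fin.snoc j' l : Fin (r + 1) → Fin m) a) :
        MvPolynomial (Fin n × Fin m) (MvPolynomial (Fin n × Fin m) R))).det * K)) =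
        ((σ : R) + (m : R) - (r : R)) * lam (C (∏ a : Fin r, X (Fin.castLE hr'.le a, j' a)) *
      ((Matrix.of fun i a : Fin r => (X (Fin.castLE hr'.le i, j' a) :
        MvPolynomial (Fin n × Fin m) (MvPolynomial (Fin n × Fin m) R))).det * K)) := by
      intro j'
      have h2 : ∀ l : Fin m, lam (C (∏ a : Fin (r + 1),
          X (Fin.castLE hr a, (Fin.snoc j' l : Fin (r + 1) → Fin m) a)) *
          ((Matrix.of fun i a : Fin (r + 1) => (X (Fin.castLE hr i,
          (Fin.snoc j' l : Fin (r + 1) → Fin m) a) :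
          MvPolynomial (Fin n × Fin m) (MvPolynomial (Fin n × Fin m) R))).det * K)) =
          lam (C (∏ a : Fin r, X (Fin.castLE hr'.le a, j' a)) *
            pderiv ((⟨r, hr'⟩ : Fin n), l) ((Matrix.of fun i a : Fin (r + 1) => (X (Fin.castLE hr i,
          (Fin.snoc j' l : Fin (r + 1) → Fin m) a) :
          MvPolynomial (Fin n × Fin m) (MvPolynomial (Fin n × Fin m) R))).det * K)) := by
        intro l
        have h3 : (∏ a : Fin (r + 1),
            (X (Fin.castLE hr a, (Fin.snoc j' l : Fin (r + 1) → Fin m) a) :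
              MvPolynomial (Fin n × Fin m) R)) =
            X ((⟨r, hr'⟩ : Fin n), l) * ∏ a : Fin r, X (Fin.castLE hr'.le a, j' a) := by
          rw [Fin.prod_univ_castSucc, mul_comm]
          congr 1
          · simp only [Fin.snoc_last]
            rfl
          · refine Finset.prod_congr rfl fun a _ => ?_
            simp only [Fin.snoc_castSucc]
            rfl
        rw [h3, map_mul, mul_assoc, lam_X, pderiv_C_mul]
      simp only [h2]
      rw [← lam_sum, ← Finset.mul_sum, cap_step σ K hK r hr' j']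
      have h4 : ((σ : MvPolynomial (Fin n × Fin m) (MvPolynomial (Fin n × Fin m) R)) +
          (m : MvPolynomial (Fin n × Fin m) (MvPolynomial (Fin n × Fin m) R)) -
          (r : MvPolynomial (Fin n × Fin m) (MvPolynomial (Fin n × Fin m) R))) =
          C (C ((σ : R) + (m : R) - (r : R))) := by
        simp
      rw [h4, mul_left_comm, lam_CC_mul]
    simp only [h1]
    rw [← Finset.mul_sum, ih]
    ring

/-- The determinant of `x x' ^ T`. -/
noncomputable def DX (n m : ℕ) (R : Type) [CommRing R] :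
    MvPolynomial (Fin n × Fin m) (MvPolynomial (Fin n × Fin m) R) :=
  (Matrix.of fun a i : Fin n => ∑ j : Fin m, C (X (a, j)) * X (i, j)).det

theorem capelli (σ : ℕ) (K : MvPolynomial (Fin n × Fin m) (MvPolynomial (Fin n × Fin m) R))
    (hK : Wt σ K) : lam (DX n m R * K) =
      (∏ i ∈ Finset.range n, ((σ : R) + (m : R) - (i : R))) * lam K := by
  rw [← cap_ind σ K hK n le_rfl, DX, det_expand, Finset.sum_mul, lam_sum]
  refine Finset.sum_congr rfl fun j _ => ?_
  rw [mul_assoc, map_prod]
  rfl

theorem GW_DX : GW 1 (DX n m R) := by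
  intro S _ _ x M
  have h1 : ∀ y : Fin n × Fin m → S, aeval y (DX n m R) =
      (Matrix.of fun a i : Fin n => ∑ j : Fin m,
        algebraMap (MvPolynomial (Fin n × Fin m) R) S (X (a, j)) * y (i, j)).det := by
    intro y
    rw [DX, AlgHom.map_det]
    congr 1
    ext a i
    rw [AlgHom.mapMatrix_apply, Matrix.map_apply, Matrix.of_apply, Matrix.of_apply, map_sum]
    refine Finset.sum_congr rfl fun j _ => ?_
    rw [map_mul, aeval_X, aeval_C]
  rw [h1, h1, pow_one, ← Matrix.det_transpose M, mul_comm, ← Matrix.det_mul]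
  congr 1
  ext a i
  rw [Matrix.mul_apply, Matrix.of_apply]
  simp only [Matrix.of_apply, Matrix.transpose_apply, Finset.sum_mul, Finset.mul_sum]
  rw [Finset.sum_comm]
  refine Finset.sum_congr rfl fun b _ => Finset.sum_congr rfl fun j _ => ?_
  ring

theorem capelli_pow (σ : ℕ) (K : MvPolynomial (Fin n × Fin m) (MvPolynomial (Fin n × Fin m) R))
    (hK : GW σ K) : ∀ w : ℕ, lam (DX n m R ^ w * K) =
      (∏ l ∈ Finset.range w, ∏ i ∈ Finset.range n, (((σ + l : ℕ) : R) + (m : R) - (i : R))) * lam K
  | 0 => by simp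
  | w + 1 => by
    have h1 : GW (σ + w) (DX n m R ^ w * K) := by
      have := (GW_DX (n := n) (m := m) (R := R)).pow w
      rw [mul_one] at this
      rw [add_comm]
      exact this.mul hK
    rw [pow_succ', mul_assoc, capelli (σ + w) _ h1.wt, capelli_pow σ K hK w,
      Finset.prod_range_succ]
    ring

end Pool.Agent.K6.H77.PD
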