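import Pool.Agent.K6.H77.PD.Stm

set_option autoImplicit false
set_option linter.unusedSectionVars false

/-! # The polynomial of a tree -/

namespace Pool.Agent.K6.H77.PD

open MvPolynomial

section

variable {S S' : Type} [CommRing S] [CommRing S'] (n : ℕ)

theorem val_map (φ : S →+* S') : ∀ (t : Tr) (y : Fin n → Col n t → S) (e : Ent n t → S),
    φ (val n t y e) = val n t (fun i k => φ (y i k)) (fun j => φ (e j))
  | .leaf a, y, e => by
    unfold val
    rw [map_pow, RingHom.map_det]
    rfl
  | .fork t t', y, e => by
    show φ (val n t _ _ * val n t' _ _) = val n t _ _ * val n t' _ _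
    rw [map_mul, val_map φ t, val_map φ t']
  | .step m t, y, e => by
    show φ (val n t _ _) = val n t _ _
    rw [val_map φ t]
    congr 1
    funext i k
    rw [map_sum]
    exact Finset.sum_congr rfl fun j _ => map_mul _ _ _

theorem val_mapA {A : Type} [CommRing A] [Algebra A S] [Algebra A S'] (φ : S →ₐ[A] S') (t : Tr)
    (y : Fin n → Col n t → S) (e : Ent n t → S) :
    φ (val n t y e) = val n t (fun i k => φ (y i k)) (fun j => φ (e j)) :=
  val_map n φ.toRingHom t y e

theorem val_mulM (A : Matrix (Fin n) (Fin n) S) : ∀ (t : Tr) (y : Fin n → Col n t → S)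
    (e : Ent n t → S), val n t (fun i k => ∑ j, A i j * y j k) e = A.det ^ wt t * val n t y e
  | .leaf a, y, e => by
    show (Matrix.det (Matrix.of fun i k : Fin n => ∑ j, A i j * y j k)) ^ a =
      A.det ^ a * (Matrix.det (Matrix.of fun i j : Fin n => y i j)) ^ a
    rw [← mul_pow, ← Matrix.det_mul]
    rfl
  | .fork t t', y, e => by
    show val n t _ _ * val n t' _ _ = A.det ^ (wt t + wt t') * (val n t _ _ * val n t' _ _)
    rw [val_mulM A t, val_mulM A t', pow_add]
    ring
  | .step m t, y, e => by
    show val n t _ _ = A.det ^ wt t * val n t _ _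
    rw [← val_mulM A t]
    congr 1
    funext i k
    simp only [Finset.sum_mul, Finset.mul_sum]
    rw [Finset.sum_comm]
    exact Finset.sum_congr rfl fun j _ => Finset.sum_congr rfl fun l _ => mul_assoc _ _ _

end

/-- The polynomial over a ring. -/
noncomputable def pR (n : ℕ) (t : Tr) (R : Type) [CommRing R] : MvPolynomial (Var n t) R :=
  val n t (fun i k => X (Sum.inl (i, k))) (fun e => X (Sum.inr e))

theorem map_poly (n : ℕ) (t : Tr) (R : Type) [CommRing R] :
    map (Int.castRingHom R) (poly n t) = pR n t R := by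
  unfold poly pR
  rw [val_map n (map (Int.castRingHom R)) t]
  simp only [map_X]

theorem aeval_poly (n : ℕ) (t : Tr) {S : Type} [CommRing S] (z : Var n t → S) :
    aeval z (poly n t) = val n t (fun i k => z (Sum.inl (i, k))) (fun e => z (Sum.inr e)) := by
  unfold poly
  have h := val_map n ((aeval z : MvPolynomial (Var n t) ℤ →ₐ[ℤ] S) :
    MvPolynomial (Var n t) ℤ →+* S) t (fun i k => X (Sum.inl (i, k))) (fun e => X (Sum.inr e))
  simp only [RingHom.coe_coe, aeval_X] at h
  exact h

end Pool.Agent.K6.H77.PD
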