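import Pool.Agent.K6.H77.PD.Cap2
import Pool.Agent.K6.H77.PD.Tree

set_option autoImplicit false
set_option linter.unusedSectionVars false

/-! # Cayley's identity: products, renaming, and the leaf -/

namespace Pool.Agent.K6.H77.PD

open MvPolynomial

section ren

variable {V W : Type} {R : Type} [CommRing R]

theorem ap_rename (e : V ≃ W) (u : MvPolynomial V R) : ∀ v : MvPolynomial V R,
    ap (rename e u) (rename e v) = ap u v := by
  induction u using MvPolynomial.induction_on with
  | C c =>
    intro v
    rw [rename_C, ap_C, ap_C, constantCoeff_rename]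
  | add p q h h' =>
    intro v
    rw [map_add, ap_add_left, ap_add_left, h, h']
  | mul_X p i h =>
    intro v
    rw [map_mul, rename_X, mul_comm, ap_X_mul, pderiv_rename e.injective, h, mul_comm p, ap_X_mul]

theorem Cay.rename {f : MvPolynomial V ℤ} {β : ℕ → ℕ} (h : Cay f β) (e : V ≃ W) :
    Cay (MvPolynomial.rename e f) β := by
  intro R _ s v
  obtain ⟨v', rfl⟩ : ∃ v', v = MvPolynomial.rename e v' :=
    ⟨MvPolynomial.rename e.symm v, by rw [rename_rename]; simp⟩
  rw [map_rename, ← map_mul (MvPolynomial.rename e), ← map_pow (MvPolynomial.rename e),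
    ← map_pow (MvPolynomial.rename e), ap_rename, ap_rename, h R s v']

end ren

section prd

variable {V W : Type} {R : Type} [CommRing R]

theorem el_rinl (f : MvPolynomial V R) :
    (el : MvPolynomial (V ⊕ W) R →ₐ[R] _) (rename Sum.inl f) = C (C f) := by
  induction f using MvPolynomial.induction_on with
  | C c => rw [rename_C, el_C]
  | add p q h h' => simp only [map_add, h, h']
  | mul_X p i h => simp only [map_mul, rename_X, el_inl, h]

theorem er_rinl (f : MvPolynomial V R) :
    (er : MvPolynomial (V ⊕ W) R →ₐ[R] _) (rename Sum.inl f) = C (map C f) := by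
  induction f using MvPolynomial.induction_on with
  | C c => rw [rename_C, er_C, map_C]
  | add p q h h' => simp only [map_add, h, h']
  | mul_X p i h => simp only [map_mul, rename_X, er_inl, h, map_X]

theorem el_rinr (g : MvPolynomial W R) :
    (el : MvPolynomial (V ⊕ W) R →ₐ[R] _) (rename Sum.inr g) = map (C.comp C) g := by
  induction g using MvPolynomial.induction_on with
  | C c => rw [rename_C, el_C, map_C]; rfl
  | add p q h h' => simp only [map_add, h, h']
  | mul_X p i h => simp only [map_mul, rename_X, el_inr, h, map_X]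

theorem er_rinr (g : MvPolynomial W R) :
    (er : MvPolynomial (V ⊕ W) R →ₐ[R] _) (rename Sum.inr g) = map (C.comp C) g := by
  induction g using MvPolynomial.induction_on with
  | C c => rw [rename_C, er_C, map_C]; rfl
  | add p q h h' => simp only [map_add, h, h']
  | mul_X p i h => simp only [map_mul, rename_X, er_inr, h, map_X]

/-- `x'` does not occur in `el v`. -/
theorem el_const (v : MvPolynomial (V ⊕ W) R) :
    ∃ v1 : MvPolynomial W (MvPolynomial V R), el v = map C v1 := by
  induction v using MvPolynomial.induction_on with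
  | C c => exact ⟨C (C c), by rw [el_C, map_C]⟩
  | add p q h h' =>
    obtain ⟨a, ha⟩ := h
    obtain ⟨b, hb⟩ := h'
    exact ⟨a + b, by rw [map_add, ha, hb, map_add]⟩
  | mul_X p j h =>
    obtain ⟨a, ha⟩ := h
    rcases j with i | w
    · exact ⟨a * C (X i), by rw [map_mul, ha, el_inl, map_mul, map_C]⟩
    · exact ⟨a * X w, by rw [map_mul, ha, el_inr, map_mul, map_X]⟩

theorem map_CC {S : Type} [CommRing S] (φ : R →+* S) (f : MvPolynomial V ℤ) :
    map φ (map (Int.castRingHom R) f) = map (Int.castRingHom S) f := by
  have h : φ.comp (Int.castRingHom R) = Int.castRingHom S := RingHom.ext_int _ _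
  rw [map_map, h]

theorem Cay.prod {f : MvPolynomial V ℤ} {g : MvPolynomial W ℤ} {β γ : ℕ → ℕ} (hf : Cay f β)
    (hg : Cay g γ) :
    Cay (MvPolynomial.rename Sum.inl f * MvPolynomial.rename Sum.inr g) (fun s => β s * γ s) := by
  intro R _ s v
  set F : MvPolynomial V R := map (Int.castRingHom R) f with hF
  set G : MvPolynomial W (MvPolynomial V R) := map (Int.castRingHom _) g with hG
  have e1 : map (Int.castRingHom R) (MvPolynomial.rename Sum.inl f *
      MvPolynomial.rename Sum.inr g : MvPolynomial (V ⊕ W) ℤ) =
      MvPolynomial.rename Sum.inl F * MvPolynomial.rename Sum.inr (map (Int.castRingHom R) g) := by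
    rw [map_mul, map_rename, map_rename]
  obtain ⟨v1, hv1⟩ := el_const v
  have e2 : (map ((C : MvPolynomial V R →+* MvPolynomial V (MvPolynomial V R)).comp
      (C : R →+* MvPolynomial V R)) (map (Int.castRingHom R) g) :
      MvPolynomial W (MvPolynomial V (MvPolynomial V R))) = map C G := by
    rw [map_CC, hG, map_CC]
  rw [e1, fub, fub, map_mul el, map_mul el, map_pow er, map_pow er, map_mul er, el_rinl, el_rinr,
    er_rinl, er_rinr, e2, hv1]
  have e3 : ∀ k : ℕ, (C (map C F) * map C G :
      MvPolynomial W (MvPolynomial V (MvPolynomial V R))) ^ k =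
      C (map C (F ^ k)) * map C (G ^ k) := by
    intro k
    rw [mul_pow, ← C_pow, map_pow (map C), map_pow (map C)]
  rw [e3, e3, ap_C_mul_right, ap_C_mul_right, mul_assoc, ap_C_mul, ← map_mul (map C), ← ap_map,
    ← ap_map, hG, hg _ s v1, ← hG]
  have e4 : (map C (F ^ (s + 1)) * (C F * C ((γ s : MvPolynomial V R) * ap v1 (G ^ s))) :
      MvPolynomial V (MvPolynomial V R)) =
      C (C (γ s : R)) * (C (F * ap v1 (G ^ s)) * map C (F ^ (s + 1))) := by
    have : (γ s : MvPolynomial V R) = C (γ s : R) := by simp
    rw [this, C_mul, C_mul]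
    ring
  have e5 : (map C (F ^ s) * C (ap v1 (G ^ s)) : MvPolynomial V (MvPolynomial V R)) =
      C (ap v1 (G ^ s)) * map C (F ^ s) := mul_comm _ _
  rw [e4, e5, lam_CC_mul, lam_CK, lam_CK, hF, hf R s]
  push_cast
  ring

end prd

/-- The products of the factors of the polynomial `β`. -/
theorem beta_append (l l' : List (ℕ × ℕ)) (s : ℕ) : beta (l ++ l') s = beta l s * beta l' s := by
  unfold beta
  rw [List.map_append, List.prod_append]

theorem list_prod_range {M : Type} [CommMonoid M] (f : ℕ → M) : ∀ n : ℕ,
    ((List.range n).map f).prod = ∏ i ∈ Finset.range n, f i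
  | 0 => by simp
  | n + 1 => by rw [List.prod_range_succ, list_prod_range f n, Finset.prod_range_succ]

theorem beta_range (n w : ℕ) (m : ℕ) (s : ℕ) :
    beta ((List.range n).map fun i => (w, m - i)) s =
      ∏ l ∈ Finset.range w, ∏ i ∈ Finset.range n, (w * s + (m - i) + l) := by
  unfold beta
  rw [List.map_map, Finset.prod_comm]
  exact list_prod_range _ n

/-- The cast of the factors. -/
theorem beta_cast (n w m s : ℕ) (h : n ≤ m) (R : Type) [CommRing R] :
    (∏ l ∈ Finset.range w, ∏ i ∈ Finset.range n, (((w * s + l : ℕ) : R) + (m : R) - (i : R))) =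
      ((∏ l ∈ Finset.range w, ∏ i ∈ Finset.range n, (w * s + (m - i) + l) : ℕ) : R) := by
  push_cast
  refine Finset.prod_congr rfl fun l _ => Finset.prod_congr rfl fun i hi => ?_
  have h1 : i ≤ m := (Finset.mem_range.1 hi).le.trans h
  rw [Nat.cast_sub h1]
  ring

end Pool.Agent.K6.H77.PD
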