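import Mathlib

set_option autoImplicit false
set_option linter.unusedSectionVars false

/-! # Derivations and determinants -/

namespace Pool.Agent.K6.H77.PD

open Matrix

section

variable {A B : Type} [CommRing A] [CommRing B] [Algebra A B]

theorem der_prod (D : Derivation A B B) {ι : Type} [DecidableEq ι] (s : Finset ι) (f : ι → B) :
    D (∏ i ∈ s, f i) = ∑ a ∈ s, D (f a) * ∏ i ∈ s.erase a, f i := by
  induction s using Finset.induction_on with
  | empty => simp
  | insert b s hb ih =>
    rw [Finset.prod_insert hb, Derivation.leibniz, ih, Finset.sum_insert hb,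
      Finset.erase_insert hb, smul_eq_mul, smul_eq_mul, Finset.mul_sum, add_comm]
    congr 1
    · ring
    · refine Finset.sum_congr rfl fun a ha => ?_
      have h1 : a ≠ b := fun h => hb (h ▸ ha)
      rw [Finset.erase_insert_of_ne (Ne.symm h1), Finset.prod_insert (fun h => hb (Finset.mem_of_mem_erase h))]
      ring

/-- The derivative of a determinant, by columns. -/
theorem der_det (D : Derivation A B B) {ι : Type} [DecidableEq ι] [Fintype ι] (M : Matrix ι ι B) :
    D M.det = ∑ a, (M.updateCol a fun i => D (M i a)).det := by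
  have h1 : ∀ a, (M.updateCol a fun i => D (M i a)).det =
      ∑ σ : Equiv.Perm ι, (Equiv.Perm.sign σ : ℤ) • (D (M (σ a) a) *
        ∏ i ∈ Finset.univ.erase a, M (σ i) i) := by
    intro a
    rw [Matrix.det_apply]
    refine Finset.sum_congr rfl fun σ _ => ?_
    rw [← Finset.mul_prod_erase _ _ (Finset.mem_univ a)]
    have h2 : ∏ x ∈ Finset.univ.erase a, (M.updateCol a fun i => D (M i a)) (σ x) x =
        ∏ i ∈ Finset.univ.erase a, M (σ i) i := by
      refine Finset.prod_congr rfl fun x hx => ?_
      rw [Matrix.updateCol_ne (Finset.mem_erase.1 hx).1]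
    rw [h2, Matrix.updateCol_self]
    rfl
  simp only [h1]
  rw [Finset.sum_comm, Matrix.det_apply, map_sum]
  refine Finset.sum_congr rfl fun σ _ => ?_
  rw [← Finset.smul_sum, ← der_prod]
  have h3 : ((Equiv.Perm.sign σ) • ∏ i, M (σ i) i : B) =
      ((Equiv.Perm.sign σ : ℤ) • ∏ i, M (σ i) i : B) := rfl
  rw [h3, map_zsmul]

/-- Two equal columns. -/
theorem det_swap_col {ι : Type} [DecidableEq ι] [Fintype ι] (M : Matrix ι ι B) (a c : ι)
    (hac : a ≠ c) (h : ∀ i, M i a = M i c) (v : ι → B) :
    (M.updateCol a v).det = -(M.updateCol c v).det := by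
  have h1 : (M.updateCol a v).submatrix id (Equiv.swap a c) = M.updateCol c v := by
    ext i j
    rw [Matrix.submatrix_apply, id]
    by_cases hj : j = c
    · rw [hj, Equiv.swap_apply_right, Matrix.updateCol_self, Matrix.updateCol_self]
    · by_cases hj2 : j = a
      · rw [hj2, Equiv.swap_apply_left, Matrix.updateCol_ne (Ne.symm hac), Matrix.updateCol_ne hac, h]
      · rw [Equiv.swap_apply_of_ne_of_ne hj2 hj, Matrix.updateCol_ne hj2, Matrix.updateCol_ne hj]
  have h2 := Matrix.det_permute' (Equiv.swap a c) (M.updateCol a v)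
  rw [h1, Equiv.Perm.sign_swap hac] at h2
  rw [h2]
  simp

/-- The last unit column. -/
theorem det_last_col {r : ℕ} (M : Matrix (Fin (r + 1)) (Fin (r + 1)) B) :
    (M.updateCol (Fin.last r) (Pi.single (Fin.last r) 1)).det =
      (Matrix.of fun i a : Fin r => M i.castSucc a.castSucc).det := by
  rw [Matrix.det_succ_column _ (Fin.last r), Finset.sum_eq_single (Fin.last r)]
  · rw [Matrix.updateCol_self, Pi.single_eq_same, mul_one]
    have h1 : ((-1 : B)) ^ (((Fin.last r : Fin (r + 1)) : ℕ) + ((Fin.last r : Fin (r + 1)) : ℕ)) = 1 := by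
      rw [← two_mul, pow_mul]
      simp
    rw [h1, one_mul]
    congr 1
    ext i a
    rw [Matrix.submatrix_apply, Fin.succAbove_last, Matrix.updateCol_ne (Fin.castSucc_lt_last a).ne]
    rfl
  · intro i _ hi
    rw [Matrix.updateCol_self, Pi.single_eq_of_ne hi]
    simp
  · simp

/-- Expansion of the determinant of a product. -/
theorem det_expand {n m : ℕ} (f g : Fin n → Fin m → B) :
    (Matrix.of fun a i : Fin n => ∑ j, f a j * g i j).det =
      ∑ φ : Fin n → Fin m, (∏ a, f a (φ a)) * (Matrix.of fun i a : Fin n => g i (φ a)).det := by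
  have h1 : (Matrix.of fun a i : Fin n => ∑ j, f a j * g i j) =
      fun a : Fin n => ∑ j : Fin m, (f a j • fun i : Fin n => g i j) := by
    ext a i
    simp [Finset.sum_apply]
  have h2 : (Matrix.of fun a i : Fin n => ∑ j, f a j * g i j).det =
      (Matrix.detRowAlternating : (Fin n → B) [⋀^Fin n]→ₗ[B] B).toMultilinearMap
        (fun a : Fin n => ∑ j : Fin m, (f a j • fun i : Fin n => g i j)) := by
    rw [h1]
    rfl
  rw [h2, MultilinearMap.map_sum]
  refine Finset.sum_congr rfl fun φ _ => ?_
  rw [MultilinearMap.map_smul_univ, smul_eq_mul]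
  congr 1
  rw [← Matrix.det_transpose]
  rfl

end

end Pool.Agent.K6.H77.PD
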