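import Pool.Agent.K6.H77.PD.Fin

set_option autoImplicit false
set_option linter.unusedSectionVars false

/-! # Path determinants: the Bernstein-Sato polynomial and the Poincare series in closed form -/

namespace Pool.Agent.K6.H77.PD

open MeasureTheory Pool.Agent.W427.SMC Pool.Agent.H628R4.TP

theorem fac_ne_zero {V : Type} (α : V →₀ ℕ) : fac ℂ α ≠ 0 := by
  unfold fac
  rw [Finsupp.prod]
  refine Finset.prod_ne_zero_iff.2 fun i _ => ?_
  exact_mod_cast Nat.factorial_ne_zero _

theorem eq_of_ap_eq {V : Type} {u v : MvPolynomial V ℂ}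
    (h : ∀ w : MvPolynomial V ℂ, ap w u = ap w v) : u = v := by
  ext α
  have h1 := h (MvPolynomial.monomial α 1)
  rw [ap_monomial, ap_monomial, one_mul, one_mul] at h1
  exact mul_right_cancel₀ (fac_ne_zero α) h1

theorem mulLeft_mem {V : Type} (g : MvPolynomial V ℂ) :
    (LinearMap.mulLeft ℂ g : Module.End ℂ (MvPolynomial V ℂ)) ∈ weylS V := by
  induction g using MvPolynomial.induction_on with
  | C a =>
    have : (LinearMap.mulLeft ℂ (MvPolynomial.C a) : Module.End ℂ (MvPolynomial V ℂ)) =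
        algebraMap ℂ _ a := by
      refine LinearMap.ext fun u => ?_
      rw [LinearMap.mulLeft_apply, Module.algebraMap_end_apply, MvPolynomial.smul_eq_C_mul]
    rw [this]
    exact Subalgebra.algebraMap_mem _ a
  | add p q hp hq =>
    have : (LinearMap.mulLeft ℂ (p + q) : Module.End ℂ (MvPolynomial V ℂ)) =
        LinearMap.mulLeft ℂ p + LinearMap.mulLeft ℂ q := by
      refine LinearMap.ext fun u => ?_
      rw [LinearMap.add_apply, LinearMap.mulLeft_apply, LinearMap.mulLeft_apply,
        LinearMap.mulLeft_apply, add_mul]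
    rw [this]
    exact Subalgebra.add_mem _ hp hq
  | mul_X p i hp =>
    rw [LinearMap.mulLeft_mul]
    exact Subalgebra.mul_mem _ hp (Algebra.subset_adjoin (Or.inl ⟨i, rfl⟩))

/-- From Cayley's identity to the functional equation. -/
theorem isB_of_cay {V : Type} (f : MvPolynomial V ℤ) (β : ℕ → ℕ) (h : Cay f β) (B : Polynomial ℂ)
    (hB : ∀ s : ℕ, B.eval (s : ℂ) = (β s : ℂ)) :
    IsBFunction (MvPolynomial.map (Int.castRingHom ℂ) f) B := by
  obtain ⟨Q, hQ, ha⟩ := adj _ (mulLeft_mem (MvPolynomial.map (Int.castRingHom ℂ) f))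
  refine ⟨Finsupp.single 0 ⟨Q, hQ⟩, fun s => ?_⟩
  rw [Finsupp.sum_single_index (by simp)]
  simp only [pow_zero, one_smul]
  refine eq_of_ap_eq fun v => ?_
  rw [ap_C_mul_right, ← ha, hB]
  exact (h ℂ s v).symm

theorem isB_mul {V : Type} {f : MvPolynomial V ℂ} {b : Polynomial ℂ} (h : IsBFunction f b)
    (c : Polynomial ℂ) : IsBFunction f (b * c) := by
  induction c using Polynomial.induction_on' with
  | add p q hp hq =>
    obtain ⟨P, hP⟩ := hp
    obtain ⟨Q, hQ⟩ := hq
    refine ⟨P + Q, fun s => ?_⟩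
    rw [mul_add, Polynomial.eval_add, map_add, add_mul, hP, hQ, Finsupp.sum_add_index']
    · intro m; simp
    · intro m A B
      simp [smul_add]
  | monomial k a =>
    obtain ⟨P, hP⟩ := h
    refine ⟨(P.mapRange (fun Q => a • Q) (smul_zero _)).mapDomain (fun m => m + k), fun s => ?_⟩
    rw [Finsupp.sum_mapDomain_index (by intro m; simp) (by intro m A B; simp [smul_add]),
      Finsupp.sum_mapRange_index (by intro m; simp), Polynomial.eval_mul,
      Polynomial.eval_monomial]
    have h1 := hP s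
    rw [MvPolynomial.C_mul, mul_comm (MvPolynomial.C _) (MvPolynomial.C _), mul_assoc, h1,
      Finsupp.sum, Finsupp.sum, Finset.mul_sum]
    refine Finset.sum_congr rfl fun m _ => ?_
    rw [← MvPolynomial.smul_eq_C_mul, Subalgebra.coe_smul, LinearMap.smul_apply, smul_smul,
      smul_smul]
    congr 1
    ring

/-- The polynomials of the functional equations are the multiples of `betaP`. -/
theorem isB_iff (n : ℕ) (t : Tr) (h : Ok n t) (b : Polynomial ℂ) :
    IsBFunction (MvPolynomial.map (Int.castRingHom ℂ) (poly n t)) b ↔ betaP (facs n t) ∣ b := by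
  constructor
  · exact dvd_b n t h b
  · rintro ⟨c, rfl⟩
    exact isB_mul (isB_of_cay (poly n t) _ (cay_tree n t h) _ (betaP_eval _)) c

section

variable (p : ℕ) [Fact p.Prime] {V : Type} [Fintype V] (f : MvPolynomial V ℤ)

attribute [local instance] msZ bsZ

open Polynomial in
/-- The Poincare series in closed form. -/
theorem poin_expl (D P : ℂ[X])
    (h : ∀ s : ℝ, 0 ≤ s → D.eval (tr' p s : ℂ) *
      ((∫⁻ z, tau p s (MvPolynomial.aeval z f) ∂(Measure.pi fun _ : V => mu p)).toReal : ℂ) =
        P.eval (tr' p s : ℂ)) :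
    (((1 - X) * D : ℂ[X]) : PowerSeries ℂ) * poincare p f = ((D - X * P : ℂ[X]) : PowerSeries ℂ) := by
  rw [← sub_eq_zero]
  refine Conv.zero_of ?_
  have h4 := ((poincare_conv p f).poly_mul ((1 - X) * D)).add
    ((Conv.poly (D - X * P)).C_mul (-1))
  have h5 : (((1 - X) * D : ℂ[X]) : PowerSeries ℂ) * poincare p f -
      ((D - X * P : ℂ[X]) : PowerSeries ℂ) =
      (((1 - X) * D : ℂ[X]) : PowerSeries ℂ) * poincare p f +
        PowerSeries.C (-1) * ((D - X * P : ℂ[X]) : PowerSeries ℂ) := by
    rw [map_neg, map_one]; ring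
  rw [h5]
  refine h4.congr fun t h0 h1' => ?_
  obtain ⟨s, hs, rfl⟩ := exists_s p t h0 h1'
  have h6 := poin_val p f s hs
  have h7 := h s hs.le
  set Z := (∫⁻ z, tau p s (MvPolynomial.aeval z f) ∂(Measure.pi fun _ : V => mu p)).toReal
  have h8 : (1 - (tr' p s : ℂ)) * ∑' m : ℕ, (cN p f m : ℂ) * (tr' p s : ℂ) ^ m =
      1 - (tr' p s : ℂ) * (Z : ℂ) := by
    have h9 := congrArg (fun x : ℝ => (x : ℂ)) h6
    simp only [Complex.ofReal_mul, Complex.ofReal_sub, Complex.ofReal_one,
      Complex.ofReal_tsum, Complex.ofReal_pow] at h9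
    exact h9
  simp only [eval_sub, eval_mul, eval_X, eval_one]
  linear_combination D.eval (tr' p s : ℂ) * h8 - (tr' p s : ℂ) * h7

end

/-- The Poincare series of a tree. -/
theorem poincare_closed (p : ℕ) [Fact p.Prime] (n : ℕ) (t : Tr) (h : Ok n t) :
    (((1 - Polynomial.X) * DT p (facs n t) : Polynomial ℂ) : PowerSeries ℂ) *
        poincare p (poly n t) =
      ((DT p (facs n t) - Polynomial.X * NT p (facs n t) : Polynomial ℂ) : PowerSeries ℂ) :=
  poin_expl p (poly n t) _ _ fun s hs => zeta_tree p n t h s hs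

end Pool.Agent.K6.H77.PD
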