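import Pool.Agent.N165.CU.Rat

set_option autoImplicit false

/-! # Path determinants of rooted trees: definitions -/

namespace Pool.Agent.K6.H77.PD

open MvPolynomial

/-- Rooted trees. Below the root there is an edge for every leaf which is not inside a `step`, and
for every `step` which is not inside a `step`: `fork t t'` puts the edges of `t` and `t'` side by
side, `step m t` is an edge which ends in an inner vertex of dimension `m`, with the edges of `t`
below this vertex, and `leaf a` is an edge which ends in a leaf with the exponent `a`. -/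
inductive Tr : Type
  | leaf (a : ℕ) : Tr
  | fork (t t' : Tr) : Tr
  | step (m : ℕ) (t : Tr) : Tr

/-- The columns of the matrix `y` with `n` rows which consists of the generic matrices of the edges
at the root. -/
def Col (n : ℕ) : Tr → Type
  | .leaf _ => Fin n
  | .fork t t' => Col n t ⊕ Col n t'
  | .step m _ => Fin m

/-- The indices of the entries of the matrices of all other edges. -/
def Ent (n : ℕ) : Tr → Type
  | .leaf _ => Empty
  | .fork t t' => Ent n t ⊕ Ent n t'
  | .step m t => (Fin m × Col n t) ⊕ Ent n t

instance instFintypeCol (n : ℕ) : (t : Tr) → Fintype (Col n t)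
  | .leaf _ => inferInstanceAs (Fintype (Fin n))
  | .fork t t' =>
    haveI := instFintypeCol n t
    haveI := instFintypeCol n t'
    inferInstanceAs (Fintype (Col n t ⊕ Col n t'))
  | .step m _ => inferInstanceAs (Fintype (Fin m))

instance instFintypeEnt (n : ℕ) : (t : Tr) → Fintype (Ent n t)
  | .leaf _ => inferInstanceAs (Fintype Empty)
  | .fork t t' =>
    haveI := instFintypeEnt n t
    haveI := instFintypeEnt n t'
    inferInstanceAs (Fintype (Ent n t ⊕ Ent n t'))
  | .step m t =>
    haveI := instFintypeEnt n t
    inferInstanceAs (Fintype ((Fin m × Col n t) ⊕ Ent n t))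

/-- The product, over the leaves of the tree, of the powers of the determinants of the products of the
matrices on the path from the root to the leaf. -/
def val {S : Type} [CommRing S] (n : ℕ) :
    (t : Tr) → (Fin n → Col n t → S) → (Ent n t → S) → S
  | .leaf a, y, _ => (Matrix.det (Matrix.of fun i j : Fin n => y i j)) ^ a
  | .fork t t', y, e => val n t (fun i k => y i (Sum.inl k)) (fun j => e (Sum.inl j)) *
      val n t' (fun i k => y i (Sum.inr k)) (fun j => e (Sum.inr j))
  | .step m t, y, e => val n t (fun i k => ∑ j : Fin m, y i j * e (Sum.inl (j, k)))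
      (fun j => e (Sum.inr j))

/-- The variables. -/
abbrev Var (n : ℕ) (t : Tr) : Type := (Fin n × Col n t) ⊕ Ent n t

/-- The polynomial of the tree: `val` of generic matrices. -/
noncomputable def poly (n : ℕ) (t : Tr) : MvPolynomial (Var n t) ℤ :=
  val n t (fun i k => X (Sum.inl (i, k))) (fun e => X (Sum.inr e))

/-- The inner vertices have dimension at least `n`. -/
def Ok (n : ℕ) : Tr → Prop
  | .leaf _ => True
  | .fork t t' => Ok n t ∧ Ok n t'
  | .step m t => n ≤ m ∧ Ok n t

/-- The sum of the exponents of the leaves. -/
def wt : Tr → ℕ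
  | .leaf a => a
  | .fork t t' => wt t + wt t'
  | .step _ t => wt t

/-- The list of the pairs `(N, ν)`, one for every edge and `i < n`: `N` is the sum of the exponents
of the leaves below the edge, `ν = m - i`, `m` the dimension of the end of the edge. -/
def facs (n : ℕ) : Tr → List (ℕ × ℕ)
  | .leaf a => (List.range n).map fun i => (a, n - i)
  | .fork t t' => facs n t ++ facs n t'
  | .step m t => ((List.range n).map fun i => (wt t, m - i)) ++ facs n t

/-- `∏ (N, ν), ∏ j < N, (N s + ν + j)` -/
def beta (l : List (ℕ × ℕ)) (s : ℕ) : ℕ :=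
  (l.map fun q => ∏ j ∈ Finset.range q.1, (q.1 * s + q.2 + j)).prod

/-- The same as a polynomial. -/
noncomputable def betaP (l : List (ℕ × ℕ)) : Polynomial ℂ :=
  (l.map fun q => ∏ j ∈ Finset.range q.1,
    (Polynomial.C (q.1 : ℂ) * Polynomial.X + Polynomial.C (q.2 : ℂ) + Polynomial.C (j : ℂ))).prod

variable {V : Type} {R : Type} [CommRing R]

/-- The apolar pairing `∑ α, u_α v_α α!`. -/
noncomputable def ap (u v : MvPolynomial V R) : R :=
  ∑ α ∈ u.support, u.coeff α * (v.coeff α * (α.prod fun _ k => (k.factorial : R)))

/-- Cayley's identity `f(∂) f ^ (s + 1) = β(s) f ^ s`, over every commutative ring, in terms of the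
apolar pairing. -/
def Cay {V : Type} (f : MvPolynomial V ℤ) (β : ℕ → ℕ) : Prop :=
  ∀ (R : Type) [CommRing R] (s : ℕ) (v : MvPolynomial V R),
    ap (map (Int.castRingHom R) f * v) (map (Int.castRingHom R) f ^ (s + 1)) =
      (β s : R) * ap v (map (Int.castRingHom R) f ^ s)

end Pool.Agent.K6.H77.PD
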