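import Pool.Agent.K6.H77.PD.Stm
import Pool.Agent.K6.H33.NM.PI

set_option autoImplicit false

/-! # Path determinants: statements of the p-adic pieces -/

namespace Pool.Agent.K6.H77.PD

open MeasureTheory Pool.Agent.W427.SMC
open scoped ENNReal

attribute [local instance] msZ bsZ

/-- `|D(y)| ^ σ`, where `|D(y)|` is the maximal norm of the `n × n` minors of the `n × m` matrix. -/
noncomputable def Dm (p : ℕ) [Fact p.Prime] (σ : ℝ) {n m : ℕ} (y : Fin n → Fin m → ℤ_[p]) : ℝ≥0∞ :=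
  ⨆ c : Fin n → Fin m, tau p σ (Matrix.det (Matrix.of fun i k : Fin n => y i (c k)))

/-- Piece U1: unimodular substitutions of the rows preserve the measure. -/
def S_U1 : Prop :=
  ∀ (p : ℕ) [Fact p.Prime] (m : ℕ) (U V : Matrix (Fin m) (Fin m) ℤ_[p]), U * V = 1 → V * U = 1 →
    ∀ (κ : Type) [Fintype κ],
      MeasurePreserving (fun (z : Fin m × κ → ℤ_[p]) (q : Fin m × κ) => ∑ j, U q.1 j * z (j, q.2))
        (Measure.pi fun _ => mu p) (Measure.pi fun _ => mu p)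

/-- Piece U2: every `n × m` matrix, `n ≤ m`, can be moved to `(A 0)` by a unimodular substitution of
the columns, and the norm of the determinant of `A` is the maximal norm of the minors. -/
def S_U2 : Prop :=
  ∀ (p : ℕ) [Fact p.Prime] (n m : ℕ), n ≤ m → ∀ y : Fin n → Fin m → ℤ_[p],
    ∃ U V : Matrix (Fin m) (Fin m) ℤ_[p], U * V = 1 ∧ V * U = 1 ∧
      ∃ A : Matrix (Fin n) (Fin n) ℤ_[p],
        (∀ (i : Fin n) (j : Fin m), ∑ l, y i l * U l j =
          if h : (j : ℕ) < n then A i ⟨j, h⟩ else 0) ∧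
        ∀ σ : ℝ, 0 ≤ σ → Dm p σ y = tau p σ A.det

/-- Piece U3: the integral of the maximal norm of the minors. -/
def S_U3 : Prop :=
  ∀ (p : ℕ) [Fact p.Prime] (n m : ℕ), n ≤ m → ∀ (N : ℕ) (σ : ℝ), 0 ≤ σ →
    (∏ i ∈ Finset.range n, ((p : ℝ) ^ (m - i) - tr' p σ ^ N)) *
      (∫⁻ y : Fin n × Fin m → ℤ_[p], Dm p (N * σ) (fun i j => y (i, j))
        ∂(Measure.pi fun _ => mu p)).toReal =
      ∏ i ∈ Finset.range n, ((p : ℝ) ^ (m - i) - 1)

/-- The integral of the polynomial of a tree. -/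
def S_PD : Prop :=
  ∀ (p : ℕ) [Fact p.Prime] (n : ℕ) (t : Tr), Ok n t → ∀ σ : ℝ, 0 ≤ σ →
    ((facs n t).map fun q => ((p : ℝ) ^ q.2 - tr' p σ ^ q.1)).prod *
      (∫⁻ z : Var n t → ℤ_[p], tau p σ (val n t (fun i k => z (Sum.inl (i, k)))
        (fun e => z (Sum.inr e))) ∂(Measure.pi fun _ => mu p)).toReal =
      ((facs n t).map fun q => ((p : ℝ) ^ q.2 - 1)).prod

/-- Piece U4: the recursion over the tree. -/
def S_U4 : Prop := S_U1 → S_U2 → S_U3 → S_PD

end Pool.Agent.K6.H77.PD
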