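import Pool.Agent.K6.H77.PD.Ap
import Pool.Agent.K6.H77.PD.DD

set_option autoImplicit false
set_option linter.unusedSectionVars false

/-! # The pairing on polynomials in two sets of variables, and Capelli's identity -/

namespace Pool.Agent.K6.H77.PD

open MvPolynomial

section lam

variable {V : Type} {R : Type} [CommRing R]

/-- The functional `x ^ α x' ^ β ↦ α!` if `α = β`, otherwise `0`, on `R[x][x']`. -/
noncomputable def lam (K : MvPolynomial V (MvPolynomial V R)) : R :=
  ∑ γ ∈ K.support, (K.coeff γ).coeff γ * fac R γ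

theorem lam_eq (K : MvPolynomial V (MvPolynomial V R)) (s : Finset (V →₀ ℕ))
    (h : K.support ⊆ s) : lam K = ∑ γ ∈ s, (K.coeff γ).coeff γ * fac R γ := by
  unfold lam
  refine Finset.sum_subset h fun α _ h2 => ?_
  rw [notMem_support_iff.1 h2, coeff_zero, zero_mul]

theorem lam_add (K K' : MvPolynomial V (MvPolynomial V R)) : lam (K + K') = lam K + lam K' := by
  classical
  rw [lam_eq (K + K') (K.support ∪ K'.support) support_add,
    lam_eq K (K.support ∪ K'.support) Finset.subset_union_left,
    lam_eq K' (K.support ∪ K'.support) Finset.subset_union_right, ← Finset.sum_add_distrib]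
  refine Finset.sum_congr rfl fun α _ => ?_
  rw [coeff_add, coeff_add]
  ring

theorem lam_zero : lam (0 : MvPolynomial V (MvPolynomial V R)) = 0 := by
  unfold lam
  simp

theorem lam_sum {ι : Type} (s : Finset ι) (K : ι → MvPolynomial V (MvPolynomial V R)) :
    lam (∑ i ∈ s, K i) = ∑ i ∈ s, lam (K i) := by
  classical
  induction s using Finset.induction_on with
  | empty => simp [lam_zero]
  | insert a s ha ih => rw [Finset.sum_insert ha, Finset.sum_insert ha, lam_add, ih]

theorem lam_CC_mul (c : R) (K : MvPolynomial V (MvPolynomial V R)) :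
    lam (C (C c) * K) = c * lam K := by
  rw [lam_eq (C (C c) * K) K.support (fun α hα => by
    rw [mem_support_iff, coeff_C_mul] at hα
    rw [mem_support_iff]
    exact fun h => hα (by rw [h, mul_zero])), lam, Finset.mul_sum]
  refine Finset.sum_congr rfl fun α _ => ?_
  rw [coeff_C_mul, coeff_C_mul]
  ring

theorem lam_monomial (γ : V →₀ ℕ) (p : MvPolynomial V R) :
    lam (monomial γ p) = p.coeff γ * fac R γ := by
  classical
  rw [lam_eq (monomial γ p) {γ} support_monomial_subset, Finset.sum_singleton, coeff_monomial,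
    if_pos rfl]

theorem lam_X (i : V) (K : MvPolynomial V (MvPolynomial V R)) :
    lam (C (X i) * K) = lam (pderiv i K) := by
  classical
  induction K using MvPolynomial.induction_on' with
  | monomial γ p =>
    rw [C_mul_monomial, lam_monomial, pderiv_monomial, lam_monomial, mul_comm (X i) p,
      coeff_mul_X']
    by_cases h : i ∈ γ.support
    · rw [if_pos h]
      have h1 : γ i ≠ 0 := Finsupp.mem_support_iff.1 h
      obtain ⟨α, hα⟩ : ∃ α : V →₀ ℕ, γ = α + Finsupp.single i 1 := by
        refine ⟨γ - Finsupp.single i 1, (tsub_add_cancel_of_le ?_).symm⟩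
        rw [Finsupp.single_le_iff]
        omega
      have h2 : γ - Finsupp.single i 1 = α := by rw [hα, add_tsub_cancel_right]
      have h3 : (p * (γ i : MvPolynomial V R)).coeff α = p.coeff α * (γ i : R) := by
        have : (γ i : MvPolynomial V R) = C (γ i : R) := by simp
        rw [this, mul_comm, coeff_C_mul, mul_comm]
      have h4 : (γ i : R) = (α i : R) + 1 := by rw [hα]; simp
      rw [h2, h3, hα, fac_add_single, ← hα, h4]
      ring
    · rw [if_neg h]
      have h1 : γ i = 0 := by rwa [Finsupp.mem_support_iff, not_not] at h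
      rw [h1]
      simp
  | add u u' h h' => rw [mul_add, lam_add, h, h', map_add, lam_add]

theorem lam_CK (a b : MvPolynomial V R) : lam (C a * map C b) = ap a b := by
  rw [ap_comm, lam_eq (C a * map C b) b.support (fun γ h => by
    rw [mem_support_iff, coeff_C_mul, coeff_map] at h
    rw [mem_support_iff]
    exact fun h2 => h (by rw [h2]; simp)), ap_eq b a b.support subset_rfl]
  refine Finset.sum_congr rfl fun γ _ => ?_
  rw [coeff_C_mul, coeff_map, mul_comm a, coeff_C_mul]
  ring

end lam

section fub

variable {V W : Type} {R : Type} [CommRing R]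

/-- The first copy. -/
noncomputable def el : MvPolynomial (V ⊕ W) R →ₐ[R]
    MvPolynomial W (MvPolynomial V (MvPolynomial V R)) :=
  aeval (Sum.elim (fun i => C (C (X i))) X)

/-- The second copy. -/
noncomputable def er : MvPolynomial (V ⊕ W) R →ₐ[R]
    MvPolynomial W (MvPolynomial V (MvPolynomial V R)) :=
  aeval (Sum.elim (fun i => C (X i)) X)

theorem el_C (c : R) : (el : MvPolynomial (V ⊕ W) R →ₐ[R] _) (C c) = C (C (C c)) := by
  unfold el
  rw [aeval_C]
  rfl

theorem er_C (c : R) : (er : MvPolynomial (V ⊕ W) R →ₐ[R] _) (C c) = C (C (C c)) := by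
  unfold er
  rw [aeval_C]
  rfl

theorem el_inl (i : V) : (el : MvPolynomial (V ⊕ W) R →ₐ[R] _) (X (Sum.inl i)) = C (C (X i)) := by
  unfold el
  rw [aeval_X]
  rfl

theorem el_inr (w : W) : (el : MvPolynomial (V ⊕ W) R →ₐ[R] _) (X (Sum.inr w)) = X w := by
  unfold el
  rw [aeval_X]
  rfl

theorem er_inl (i : V) : (er : MvPolynomial (V ⊕ W) R →ₐ[R] _) (X (Sum.inl i)) = C (X i) := by
  unfold er
  rw [aeval_X]
  rfl

theorem er_inr (w : W) : (er : MvPolynomial (V ⊕ W) R →ₐ[R] _) (X (Sum.inr w)) = X w := by
  unfold er
  rw [aeval_X]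
  rfl

theorem pd_er (w : W) (v : MvPolynomial (V ⊕ W) R) :
    pderiv w (er v) = er (pderiv (Sum.inr w) v) := by
  classical
  induction v using MvPolynomial.induction_on with
  | C a => rw [er_C, pderiv_C, pderiv_C, map_zero]
  | add p q h h' => rw [map_add, map_add, h, h', map_add, map_add]
  | mul_X p j h =>
    rw [map_mul, pderiv_mul, h, pderiv_mul, map_add, map_mul, map_mul]
    rcases j with i | w'
    · rw [er_inl, pderiv_C, mul_zero, pderiv_X_of_ne (by simp), map_zero, mul_zero]
    · rw [er_inr, pderiv_X, pderiv_X]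
      by_cases h : w = w'
      · subst h
        rw [Pi.single_eq_same, Pi.single_eq_same, map_one]
      · rw [Pi.single_eq_of_ne (Ne.symm h), Pi.single_eq_of_ne (by simpa using Ne.symm h), map_zero]

/-- restriction to `w = 0` -/
noncomputable def r0 : MvPolynomial (V ⊕ W) R →ₐ[R] MvPolynomial V R :=
  aeval (Sum.elim X fun _ => 0)

theorem cc_er (v : MvPolynomial (V ⊕ W) R) :
    constantCoeff (er v) = map C (r0 v) := by
  induction v using MvPolynomial.induction_on with
  | C a =>
    rw [er_C, constantCoeff_C]
    unfold r0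
    rw [aeval_C, algebraMap_eq, map_C]
  | add p q h h' => rw [map_add, map_add, h, h', map_add, map_add]
  | mul_X p j h =>
    rw [map_mul, map_mul, h, map_mul, map_mul]
    congr 1
    rcases j with i | w'
    · rw [er_inl, constantCoeff_C]
      unfold r0
      rw [aeval_X]
      simp
    · rw [er_inr, constantCoeff_X]
      unfold r0
      rw [aeval_X]
      simp

theorem cc_r0 (v : MvPolynomial (V ⊕ W) R) : constantCoeff (r0 v) = constantCoeff v := by
  induction v using MvPolynomial.induction_on with
  | C a =>
    unfold r0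
    rw [aeval_C, algebraMap_eq, constantCoeff_C, constantCoeff_C]
  | add p q h h' => rw [map_add, map_add, h, h', map_add]
  | mul_X p j h =>
    rw [map_mul, map_mul, h, map_mul]
    congr 1
    unfold r0
    rcases j with i | w' <;> simp

theorem pd_r0 (i : V) (v : MvPolynomial (V ⊕ W) R) :
    pderiv i (r0 v) = r0 (pderiv (Sum.inl i) v) := by
  classical
  induction v using MvPolynomial.induction_on with
  | C a =>
    unfold r0
    rw [aeval_C, algebraMap_eq, pderiv_C, pderiv_C, map_zero]
  | add p q h h' => rw [map_add, map_add, h, h', map_add, map_add]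
  | mul_X p j h =>
    rw [map_mul, pderiv_mul, h, pderiv_mul, map_add, map_mul, map_mul]
    congr 2
    unfold r0
    rcases j with i' | w'
    · rw [aeval_X, Sum.elim_inl, pderiv_X, pderiv_X]
      by_cases h : i = i'
      · subst h
        rw [Pi.single_eq_same, Pi.single_eq_same, map_one]
      · rw [Pi.single_eq_of_ne (Ne.symm h), Pi.single_eq_of_ne (by simpa using Ne.symm h), map_zero]
    · rw [aeval_X, Sum.elim_inr, map_zero, pderiv_X_of_ne (by simp), map_zero]

theorem pd_comm {σ : Type} (i j : σ) (v : MvPolynomial σ R) :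
    pderiv i (pderiv j v) = pderiv j (pderiv i v) := by
  classical
  induction v using MvPolynomial.induction_on with
  | C a => simp
  | add p q h h' => rw [map_add, map_add, h, h', map_add, map_add]
  | mul_X p k h =>
    rw [pderiv_mul, pderiv_mul, map_add, map_add, pderiv_mul, pderiv_mul, pderiv_mul, pderiv_mul, h]
    have h1 : ∀ a b : σ, pderiv a (pderiv b (X k : MvPolynomial σ R)) = 0 := by
      intro a b
      rw [pderiv_X]
      by_cases hb : b = k
      · subst hb
        rw [Pi.single_eq_same]
        simp
      · rw [Pi.single_eq_of_ne (Ne.symm hb), map_zero]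
    rw [h1, h1]
    ring

theorem pd_ap (i : V) (u : MvPolynomial (V ⊕ W) R) : ∀ v : MvPolynomial (V ⊕ W) R,
    pderiv i (ap (el u) (er v)) = ap (el u) (er (pderiv (Sum.inl i) v)) := by
  induction u using MvPolynomial.induction_on with
  | C c =>
    intro v
    rw [el_C, ap_C, ap_C, cc_er, cc_er, ← pd_r0, pderiv_mul, pderiv_C, zero_mul, zero_add,
      pderiv_map]
  | add p q h h' =>
    intro v
    rw [map_add, ap_add_left, ap_add_left, map_add, h, h']
  | mul_X p j h =>
    intro v
    rw [map_mul]
    rcases j with i' | w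
    · rw [el_inl, mul_comm (el p), ap_C_mul, ap_C_mul, pderiv_mul, pderiv_C, zero_mul, zero_add, h]
    · rw [el_inr, mul_comm (el p), ap_X_mul, ap_X_mul, pd_er, pd_er, h, pd_comm]

/-- **Fubini.** -/
theorem fub (u : MvPolynomial (V ⊕ W) R) : ∀ v : MvPolynomial (V ⊕ W) R,
    ap u v = lam (ap (el u) (er v)) := by
  induction u using MvPolynomial.induction_on with
  | C c =>
    intro v
    rw [el_C, ap_C, ap_C, cc_er, lam_CC_mul]
    have h := lam_CK (1 : MvPolynomial V R) (r0 v)
    rw [C_1, one_mul] at h
    have h2 := ap_C (1 : R) (r0 v)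
    rw [C_1, one_mul] at h2
    rw [h, h2, cc_r0]
  | add p q h h' =>
    intro v
    rw [map_add, ap_add_left, ap_add_left, lam_add, h, h']
  | mul_X p j h =>
    intro v
    rw [map_mul, mul_comm p, ap_X_mul, h]
    rcases j with i | w
    · rw [el_inl, mul_comm (el p), ap_C_mul, lam_X, pd_ap]
    · rw [el_inr, mul_comm (el p), ap_X_mul, pd_er]

end fub

end Pool.Agent.K6.H77.PD
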